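import Mathlib

/-!
Complete deterministic automata: words, reset words, extremal and irreducible automata.
-/

namespace Pool.Agent.Work.MP_446a37_lc

/-- The state reached from `q` by reading the word `u`. -/
def act {Q A : Type} (δ : Q → A → Q) (q : Q) (u : List A) : Q := u.foldl δ q

/-- `u` is a reset word. -/
def IsReset {Q A : Type} (δ : Q → A → Q) (u : List A) : Prop := ∀ p q, act δ p u = act δ q u

/-- The shortest reset word has length exactly `(n - 1) ^ 2`, where `n` is the number of states. -/
def Extremal {Q A : Type} [Fintype Q] (δ : Q → A → Q) : Prop :=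
  (∃ u, IsReset δ u ∧ u.length = (Fintype.card Q - 1) ^ 2) ∧
    ∀ u, IsReset δ u → (Fintype.card Q - 1) ^ 2 ≤ u.length

/-- The action of the letter `a` on the vector space with basis `Q`: the linear map sending the
basis vector `q` to the basis vector `δ q a`. -/
def push {Q A : Type} [Fintype Q] [DecidableEq Q] (δ : Q → A → Q) (a : A) (v : Q → ℂ) : Q → ℂ :=
  fun p => ∑ q, if δ q a = p then v q else 0

/-- Irreducibility of the synchronized representation: a subspace of the space of vectors of
coordinate sum zero that is invariant under all letters is `0` or the whole of it. -/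
def Irreducible {Q A : Type} [Fintype Q] [DecidableEq Q] (δ : Q → A → Q) : Prop :=
  ∀ W : Submodule ℂ (Q → ℂ), (∀ v ∈ W, ∑ q, v q = 0) → (∀ a, ∀ v ∈ W, push δ a v ∈ W) →
    W = ⊥ ∨ ∀ v : Q → ℂ, ∑ q, v q = 0 → v ∈ W

section

variable {Q A : Type}

theorem act_nil (δ : Q → A → Q) (q : Q) : act δ q [] = q := rfl

theorem act_cons (δ : Q → A → Q) (q : Q) (a : A) (u : List A) :
    act δ q (a :: u) = act δ (δ q a) u := rfl

theorem act_append (δ : Q → A → Q) (q : Q) (u w : List A) :
    act δ q (u ++ w) = act δ (act δ q u) w := by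
  simp [act, List.foldl_append]

theorem act_replicate_succ (δ : Q → A → Q) (q : Q) (a : A) (k : ℕ) :
    act δ q (List.replicate (k + 1) a) = δ (act δ q (List.replicate k a)) a := by
  rw [List.replicate_succ', act_append]
  rfl

theorem act_replicate (δ : Q → A → Q) (q : Q) (a : A) (k : ℕ) :
    act δ q (List.replicate k a) = (fun q => δ q a)^[k] q := by
  induction k with
  | zero => rfl
  | succ k ih => rw [act_replicate_succ, ih, Function.iterate_succ_apply']

theorem IsReset.append {δ : Q → A → Q} {w : List A} (h : IsReset δ w) (u : List A) :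
    IsReset δ (w ++ u) := by
  intro p q
  rw [act_append, act_append, h p q]

/-- the states sent into `S` by `u` -/
def pre [Fintype Q] [DecidableEq Q] (δ : Q → A → Q) (S : Finset Q) (u : List A) : Finset Q :=
  Finset.univ.filter fun q => act δ q u ∈ S

theorem pre_append [Fintype Q] [DecidableEq Q] (δ : Q → A → Q) (S : Finset Q) (u w : List A) :
    pre δ S (u ++ w) = pre δ (pre δ S w) u := by
  ext q
  simp [pre, act_append]

/-- enumeration of the states along the cycle of a cyclic letter -/
theorem exists_equiv [Fintype Q] [DecidableEq Q] (δ : Q → A → Q) (a : A) (q0 : Q)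
    (ha : ∀ q q', ∃ k, act δ q (List.replicate k a) = q') :
    ∃ (m : ℕ) (_ : NeZero m) (e : Q ≃ ZMod m), m = Fintype.card Q ∧
      ∀ q, e (δ q a) = e q + 1 := by
  set α : Q → Q := fun q => δ q a with hα
  have ha' : ∀ q q', ∃ k, α^[k] q = q' := fun q q' => by
    obtain ⟨k, hk⟩ := ha q q'
    exact ⟨k, by rw [← hk, act_replicate]⟩
  have hper : q0 ∈ Function.periodicPts α := by
    obtain ⟨k, hk⟩ := ha' (α q0) q0
    exact ⟨k + 1, Nat.succ_pos _, by
      rw [Function.IsPeriodicPt, Function.IsFixedPt, Function.iterate_succ_apply]; exact hk⟩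
  have hpos := Function.minimalPeriod_pos_of_mem_periodicPts hper
  set m := Function.minimalPeriod α q0 with hm
  have : NeZero m := ⟨by omega⟩
  have hnat : ∀ k : ℕ, α^[((k : ℕ) : ZMod m).val] q0 = α^[k] q0 := fun k => by
    rw [ZMod.val_natCast, Function.iterate_mod_minimalPeriod_eq]
  have hinj : Function.Injective (fun x : ZMod m => α^[x.val] q0) := by
    intro x y hxy
    apply ZMod.val_injective m
    exact Function.iterate_injOn_Iio_minimalPeriod (ZMod.val_lt x) (ZMod.val_lt y) hxy
  have hsurj : Function.Surjective (fun x : ZMod m => α^[x.val] q0) := by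
    intro q
    obtain ⟨k, hk⟩ := ha' q0 q
    exact ⟨(k : ZMod m), by rw [← hk]; exact hnat k⟩
  set e := Equiv.ofBijective _ ⟨hinj, hsurj⟩ with he
  refine ⟨m, inferInstance, e.symm, ?_, ?_⟩
  · rw [← Fintype.card_congr e, ZMod.card]
  · intro q
    obtain ⟨x, rfl⟩ := e.surjective q
    rw [Equiv.symm_apply_apply, Equiv.symm_apply_eq]
    show α (α^[x.val] q0) = α^[(x + 1).val] q0
    have h1 : ((x.val + 1 : ℕ) : ZMod m) = x + 1 := by
      push_cast
      rw [ZMod.natCast_zmod_val]
    rw [← h1, hnat, Function.iterate_succ_apply']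

end

end Pool.Agent.Work.MP_446a37_lc
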