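import Pool.Agent.Work.MP_446a37_lc.Aut

/-!
Invariant subspaces of automata all of whose letters have rank at least `n - 1`.
-/

namespace Pool.Agent.Work.MP_446a37_lc

open Finset

variable {Q A : Type} [Fintype Q] [DecidableEq Q]

theorem push_sub (δ : Q → A → Q) (c : A) (v w : Q → ℂ) :
    push δ c (v - w) = push δ c v - push δ c w := by
  ext p
  simp only [push, Pi.sub_apply, ← sum_sub_distrib]
  refine sum_congr rfl fun q _ => ?_
  split_ifs <;> simp

theorem push_zero (δ : Q → A → Q) (c : A) : push δ c (0 : Q → ℂ) = 0 := by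
  ext p
  simp [push]

theorem push_single (δ : Q → A → Q) (c : A) (p : Q) :
    push δ c (Pi.single p 1) = Pi.single (δ p c) 1 := by
  ext r
  rw [push, Finset.sum_eq_single p]
  · rw [Pi.single_eq_same, Pi.single_apply]
    by_cases h : δ p c = r
    · simp [h]
    · simp [h, Ne.symm h]
  · intro q _ hq
    rw [Pi.single_eq_of_ne hq, ite_self]
  · simp

/-- the action of a word on vectors -/
def pushw (δ : Q → A → Q) : List A → (Q → ℂ) → (Q → ℂ)
  | [], v => v
  | c :: u, v => pushw δ u (push δ c v)

theorem pushw_apply (δ : Q → A → Q) (u : List A) : ∀ (v : Q → ℂ) (p : Q),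
    pushw δ u v p = ∑ q, if act δ q u = p then v q else 0 := by
  induction u with
  | nil =>
    intro v p
    rw [Finset.sum_eq_single p]
    · simp [pushw, act_nil]
    · intro q _ hq
      rw [act_nil, if_neg hq]
    · simp
  | cons c u ih =>
    intro v p
    rw [pushw, ih]
    have h1 : ∀ q, (if act δ q u = p then push δ c v q else 0) =
        ∑ r, if δ r c = q then (if act δ q u = p then v r else 0) else 0 := by
      intro q
      split_ifs with h
      · rfl
      · simp
    rw [sum_congr rfl fun q _ => h1 q, sum_comm]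
    refine sum_congr rfl fun r _ => ?_
    rw [Finset.sum_ite_eq]
    simp [act_cons]

theorem pushw_reset (δ : Q → A → Q) (u : List A) (hu : IsReset δ u) (v : Q → ℂ)
    (hv : ∑ q, v q = 0) : pushw δ u v = 0 := by
  ext p
  rw [pushw_apply]
  by_cases h : ∃ q0, act δ q0 u = p
  · obtain ⟨q0, h0⟩ := h
    have h1 : ∀ q, act δ q u = p := fun q => by rw [hu q q0, h0]
    simp only [h1, if_true, hv, Pi.zero_apply]
  · push Not at h
    simp [h]

theorem exists_kernel (δ : Q → A → Q) (W : Submodule ℂ (Q → ℂ))
    (hW : ∀ a, ∀ v ∈ W, push δ a v ∈ W) (u : List A) : ∀ v ∈ W, v ≠ 0 → pushw δ u v = 0 →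
    ∃ c, ∃ w ∈ W, w ≠ 0 ∧ push δ c w = 0 := by
  induction u with
  | nil =>
    intro v _ h0 h1
    exact absurd h1 h0
  | cons c u ih =>
    intro v hv h0 h1
    by_cases h2 : push δ c v = 0
    · exact ⟨c, v, hv, h0, h2⟩
    · exact ih (push δ c v) (hW c v hv) h2 h1

/-- a vector killed by a letter of rank at least `n - 1` is a multiple of a difference -/
theorem kernel_form (δ : Q → A → Q) (c : A)
    (hrank : Fintype.card Q ≤ (univ.image fun q => δ q c).card + 1)
    (w : Q → ℂ) (hw : w ≠ 0) (hk : push δ c w = 0) :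
    ∃ q1 q2, q1 ≠ q2 ∧ w q1 ≠ 0 ∧ w = w q1 • (Pi.single q1 1 - Pi.single q2 1) := by
  obtain ⟨q1, hq1⟩ : ∃ q, w q ≠ 0 := by
    by_contra h
    push Not at h
    exact hw (funext h)
  have hfib : ∀ q, (∑ r, if δ r c = δ q c then w r else 0) = 0 := fun q =>
    congrFun hk (δ q c)
  obtain ⟨q2, hq2, hq2c⟩ : ∃ q2, q2 ≠ q1 ∧ δ q2 c = δ q1 c := by
    by_contra h
    push Not at h
    have h1 := hfib q1
    rw [Finset.sum_eq_single q1] at h1
    · simp only [if_true] at h1
      exact hq1 h1
    · intro r _ hr
      rw [if_neg (h r hr)]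
    · simp
  have himg : (univ.erase q2).image (fun q => δ q c) = univ.image fun q => δ q c := by
    ext r
    simp only [mem_image, mem_erase, mem_univ, and_true, true_and]
    constructor
    · rintro ⟨q, -, h⟩
      exact ⟨q, h⟩
    · rintro ⟨q, h⟩
      by_cases hq : q = q2
      · exact ⟨q1, hq2.symm, by rw [← h, hq, hq2c]⟩
      · exact ⟨q, hq, h⟩
  have hinj : Set.InjOn (fun q => δ q c) ((univ.erase q2 : Finset Q) : Set Q) := by
    apply injOn_of_card_image_eq
    apply le_antisymm card_image_le
    rw [himg, card_erase_of_mem (mem_univ _), card_univ]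
    omega
  have hne : ∀ r, r ≠ q2 → ∀ r', r' ≠ q2 → δ r c = δ r' c → r = r' := by
    intro r hr r' hr' h
    exact hinj (by simpa using hr) (by simpa using hr') h
  have hz : ∀ r, r ≠ q1 → r ≠ q2 → w r = 0 := by
    intro r h1 h2
    have h3 := hfib r
    rw [Finset.sum_eq_single r] at h3
    · simpa using h3
    · intro r' _ hr'
      rw [if_neg]
      intro h
      by_cases h4 : r' = q2
      · subst h4
        rw [hq2c] at h
        exact h1 (hne r h2 q1 hq2.symm h.symm)
      · exact hr' (hne r' h4 r h2 h)
    · simp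
  have hs : w q1 + w q2 = 0 := by
    have h3 := hfib q1
    rw [← Finset.sum_subset (subset_univ ({q1, q2} : Finset Q)), Finset.sum_pair hq2.symm] at h3
    · simpa [hq2c] using h3
    · intro r _ hr
      simp only [mem_insert, mem_singleton, not_or] at hr
      rw [hz r hr.1 hr.2, ite_self]
  refine ⟨q1, q2, hq2.symm, hq1, ?_⟩
  ext r
  by_cases h1 : r = q1
  · subst h1
    simp [hq2.symm]
  · by_cases h2 : r = q2
    · subst h2
      simp only [Pi.smul_apply, Pi.sub_apply, Pi.single_eq_of_ne hq2, Pi.single_eq_same,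
        smul_eq_mul]
      linear_combination hs
    · simp [h1, h2, hz r h1 h2]

/-- the equivalence relation attached to a subspace -/
def relS (W : Submodule ℂ (Q → ℂ)) : Setoid Q where
  r p q := (Pi.single p 1 - Pi.single q 1 : Q → ℂ) ∈ W
  iseqv := {
    refl := fun p => by rw [sub_self]; exact W.zero_mem
    symm := fun {p q} h => by
      have := W.neg_mem h
      rwa [neg_sub] at this
    trans := fun {p q r} h1 h2 => by
      have := W.add_mem h1 h2
      rwa [sub_add_sub_cancel] at this }

theorem relS_iff (W : Submodule ℂ (Q → ℂ)) (p q : Q) :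
    (relS W).r p q ↔ (Pi.single p 1 - Pi.single q 1 : Q → ℂ) ∈ W := Iff.rfl

theorem relS_congr (δ : Q → A → Q) (W : Submodule ℂ (Q → ℂ))
    (hW : ∀ a, ∀ v ∈ W, push δ a v ∈ W) {p q : Q} (h : (relS W).r p q) (c : A) :
    (relS W).r (δ p c) (δ q c) := by
  have := hW c _ h
  rwa [push_sub, push_single, push_single] at this

theorem relS_word (δ : Q → A → Q) (W : Submodule ℂ (Q → ℂ))
    (hW : ∀ a, ∀ v ∈ W, push δ a v ∈ W) (u : List A) : ∀ {p q : Q}, (relS W).r p q →
    (relS W).r (act δ p u) (act δ q u) := by
  induction u with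
  | nil => intro p q h; exact h
  | cons c u ih => intro p q h; exact ih (relS_congr δ W hW h c)

theorem total_mem (W : Submodule ℂ (Q → ℂ)) (h : ∀ p q, (relS W).r p q) (v : Q → ℂ)
    (hv : ∑ q, v q = 0) : v ∈ W := by
  rcases isEmpty_or_nonempty Q with hQ | ⟨⟨q0⟩⟩
  · rw [Subsingleton.elim v 0]; exact W.zero_mem
  have e : v = ∑ q, v q • (Pi.single q 1 - Pi.single q0 1 : Q → ℂ) := by
    simp only [smul_sub, sum_sub_distrib, ← sum_smul, hv, zero_smul, sub_zero]
    ext r
    rw [Finset.sum_apply, Finset.sum_eq_single r]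
    · simp
    · intro q _ hq
      simp [Pi.single_eq_of_ne hq.symm]
    · simp
  rw [e]
  exact W.sum_mem fun q _ => W.smul_mem _ (h q q0)

/-- a nonzero invariant subspace contains a difference of two states -/
theorem exists_pair (δ : Q → A → Q)
    (hrank : ∀ c, Fintype.card Q ≤ (univ.image fun q => δ q c).card + 1)
    (hsync : ∃ u, IsReset δ u) (W : Submodule ℂ (Q → ℂ)) (hW0 : ∀ v ∈ W, ∑ q, v q = 0)
    (hW : ∀ a, ∀ v ∈ W, push δ a v ∈ W) (hne : W ≠ ⊥) :
    ∃ q1 q2, q1 ≠ q2 ∧ (relS W).r q1 q2 := by
  obtain ⟨v, hv, hv0⟩ := Submodule.exists_mem_ne_zero_of_ne_bot hne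
  obtain ⟨u, hu⟩ := hsync
  obtain ⟨c, w, hw, hw0, hk⟩ := exists_kernel δ W hW u v hv hv0 (pushw_reset δ u hu v (hW0 v hv))
  obtain ⟨q1, q2, h12, hq1, e⟩ := kernel_form δ c (hrank c) w hw0 hk
  refine ⟨q1, q2, h12, ?_⟩
  rw [relS_iff]
  have h1 := W.smul_mem (w q1)⁻¹ hw
  rw [e] at h1
  have h2 : (w q1 • (Pi.single q1 1 - Pi.single q2 1) : Q → ℂ) q1 = w q1 := by
    rw [← e]
  rw [h2, smul_smul, inv_mul_cancel₀ hq1, one_smul] at h1
  exact h1

/-- **Rank criterion.** A synchronizing automaton whose letters have rank at least `n - 1` and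
whose permutation letters generate a transitive group is irreducible. -/
theorem irreducible_of_transitive (δ : Q → A → Q)
    (hrank : ∀ c, Fintype.card Q ≤ (univ.image fun q => δ q c).card + 1)
    (hsync : ∃ u, IsReset δ u)
    (htr : ∀ p q, ∃ u : List A, (∀ c ∈ u, Function.Injective fun q => δ q c) ∧ act δ p u = q) :
    Irreducible δ := by
  intro W hW0 hW
  by_cases hbot : W = ⊥
  · exact Or.inl hbot
  right
  obtain ⟨q1, q2, h12, hr⟩ := exists_pair δ hrank hsync W hW0 hW hbot
  -- every class has at least two elements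
  have hcls : ∀ q, ∃ q', q' ≠ q ∧ (relS W).r q q' := by
    intro q
    obtain ⟨u, hu, huq⟩ := htr q1 q
    have hinj : ∀ (u : List A), (∀ c ∈ u, Function.Injective fun q => δ q c) →
        Function.Injective fun q => act δ q u := by
      intro u
      induction u with
      | nil => intro _ p q h; exact h
      | cons c u ih =>
        intro hu p q h
        exact hu c (by simp) (ih (fun c' hc' => hu c' (by simp [hc'])) h)
    refine ⟨act δ q2 u, ?_, ?_⟩
    · intro h
      exact h12 (hinj u hu (by show act δ q1 u = act δ q2 u; rw [huq, h]))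
    · have := relS_word δ W hW u hr
      rwa [huq] at this
  refine total_mem W ?_
  by_contra hnot
  push Not at hnot
  -- letters act injectively on the classes
  have hstep : ∀ c p q, (relS W).r (δ p c) (δ q c) → (relS W).r p q := by
    intro c
    set F : Quotient (relS W) → Quotient (relS W) :=
      Quotient.map (fun q => δ q c) (fun p q h => relS_congr δ W hW h c) with hF
    have hsurj : Function.Surjective F := by
      intro x
      induction x using Quotient.inductionOn with
      | h q =>
        obtain ⟨q', hq', hqq⟩ := hcls q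
        have h1 : (∃ r, δ r c = q) ∨ ∃ r, δ r c = q' := by
          by_contra hcon
          push Not at hcon
          have h2 : (univ.image fun q => δ q c) ⊆ (univ.erase q).erase q' := by
            intro x hx
            obtain ⟨r, -, rfl⟩ := mem_image.1 hx
            simp only [mem_erase, mem_univ, and_true]
            exact ⟨hcon.2 r, hcon.1 r⟩
          have h3 := card_le_card h2
          rw [card_erase_of_mem (by simp [hq']), card_erase_of_mem (mem_univ _), card_univ] at h3
          have h4 := hrank c
          have h5 : 2 ≤ Fintype.card Q := by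
            have : ({q, q'} : Finset Q).card ≤ Fintype.card Q := card_le_univ _
            rwa [card_pair hq'.symm] at this
          omega
        rcases h1 with ⟨r, hr1⟩ | ⟨r, hr1⟩
        · exact ⟨Quotient.mk _ r, by rw [hF, Quotient.map_mk, hr1]⟩
        · refine ⟨Quotient.mk _ r, ?_⟩
          rw [hF, Quotient.map_mk, hr1]
          exact Quotient.sound ((relS W).symm hqq)
    have hinj : Function.Injective F := Finite.injective_iff_surjective.2 hsurj
    intro p q h
    have h1 : F (Quotient.mk _ p) = F (Quotient.mk _ q) := by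
      rw [hF, Quotient.map_mk, Quotient.map_mk]
      exact Quotient.sound h
    exact Quotient.exact (hinj h1)
  have hword : ∀ (u : List A) (p q : Q), (relS W).r (act δ p u) (act δ q u) →
      (relS W).r p q := by
    intro u
    induction u with
    | nil => intro p q h; exact h
    | cons c u ih => intro p q h; exact hstep c p q (ih _ _ h)
  obtain ⟨p, q, hpq⟩ := hnot
  obtain ⟨u, hu⟩ := hsync
  apply hpq
  apply hword u
  rw [hu p q]

/-- **Simple automata.** A simple synchronizing automaton whose letters have rank at least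
`n - 1` is irreducible. -/
theorem irreducible_of_simple (δ : Q → A → Q)
    (hrank : ∀ c, Fintype.card Q ≤ (univ.image fun q => δ q c).card + 1)
    (hsync : ∃ u, IsReset δ u)
    (hsimple : ∀ r : Setoid Q, (∀ p q, r.r p q → ∀ c, r.r (δ p c) (δ q c)) →
      (∀ p q, r.r p q → p = q) ∨ ∀ p q, r.r p q) :
    Irreducible δ := by
  intro W hW0 hW
  by_cases hbot : W = ⊥
  · exact Or.inl hbot
  right
  obtain ⟨q1, q2, h12, hr⟩ := exists_pair δ hrank hsync W hW0 hW hbot
  refine total_mem W ?_
  rcases hsimple (relS W) (fun p q h c => relS_congr δ W hW h c) with h | h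
  · exact absurd (h q1 q2 hr) h12
  · exact h

end Pool.Agent.Work.MP_446a37_lc
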