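import Pool.Agent.Work.MP_446a37_lc.Ext
import Pool.Agent.Work.MP_446a37_lc.Irr

/-!
Circular automata: a letter of rank at most `n - 2` forces a reset word of length at most
`n ^ 2 - 2 n`.
-/

namespace Pool.Agent.Work.MP_446a37_lc

open Finset

variable {Q A : Type} [Fintype Q] [DecidableEq Q]

theorem extension' (δ : Q → A → Q) (a : A)
    (ha : ∀ q q', ∃ k, act δ q (List.replicate k a) = q') (hsync : ∃ w, IsReset δ w)
    (S : Finset Q) (hS : S.Nonempty) (hS' : S ≠ univ) :
    ∃ u : List A, u.length ≤ Fintype.card Q ∧ S.card < (pre δ S u).card := by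
  obtain ⟨u, hu, h⟩ := extension δ a ha hsync S hS hS'
  refine ⟨u, hu, lt_of_lt_of_eq h ?_⟩
  congr 1
  ext q
  simp only [pre, mem_filter]

theorem grow (δ : Q → A → Q)
    (hext : ∀ S : Finset Q, S.Nonempty → S ≠ univ →
      ∃ u : List A, u.length ≤ Fintype.card Q ∧ S.card < (pre δ S u).card)
    (S : Finset Q) (hS : 2 ≤ S.card) (k : ℕ) :
    ∃ u : List A, u.length ≤ Fintype.card Q * k ∧
      min (2 + k) (Fintype.card Q) ≤ (pre δ S u).card := by
  induction k with
  | zero =>
    refine ⟨[], by simp, ?_⟩
    have h2 : pre δ S [] = S := by ext q; simp [pre, act_nil]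
    rw [h2]
    exact le_trans (min_le_left _ _) hS
  | succ k ih =>
    obtain ⟨u, hu, hc⟩ := ih
    have hSc : S.card ≤ Fintype.card Q := card_le_univ S
    by_cases hU : pre δ S u = univ
    · refine ⟨u, by nlinarith, ?_⟩
      rw [hU, card_univ]
      exact min_le_right _ _
    · have hne : (pre δ S u).Nonempty := by
        rw [← card_pos]
        omega
      obtain ⟨u', hu', hc'⟩ := hext _ hne hU
      refine ⟨u' ++ u, ?_, ?_⟩
      · rw [List.length_append, Nat.mul_succ]
        omega
      · rw [pre_append]
        omega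

theorem short_of_rank (δ : Q → A → Q) (a : A)
    (ha : ∀ q q', ∃ k, act δ q (List.replicate k a) = q') (hsync : ∃ w, IsReset δ w) (c : A)
    (hc : (univ.image fun q => δ q c).card + 2 ≤ Fintype.card Q) :
    ∃ u, IsReset δ u ∧ u.length < (Fintype.card Q - 1) ^ 2 := by
  set n := Fintype.card Q with hn
  have hQ : Nonempty Q := by
    rw [← Fintype.card_pos_iff]
    omega
  obtain ⟨q0⟩ := hQ
  have himg : 1 ≤ (univ.image fun q => δ q c).card :=
    card_pos.2 ⟨δ q0 c, mem_image_of_mem _ (mem_univ _)⟩
  obtain ⟨x, y, hxy, hxyc⟩ : ∃ x y, x ≠ y ∧ δ x c = δ y c := by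
    by_contra h
    push Not at h
    have hinj : Function.Injective fun q => δ q c := by
      intro x y hxy
      by_contra hne
      exact h x y hne hxy
    have := card_image_of_injective univ hinj
    rw [card_univ] at this
    omega
  have hS0 : 2 ≤ (pre δ {δ x c} [c]).card := by
    have h1 : ({x, y} : Finset Q) ⊆ pre δ {δ x c} [c] := by
      intro q hq
      simp only [mem_insert, mem_singleton] at hq
      simp only [pre, mem_filter, mem_univ, true_and, mem_singleton, act_cons, act_nil]
      rcases hq with rfl | rfl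
      · rfl
      · exact hxyc.symm
    have := card_le_card h1
    rwa [card_pair hxy] at this
  obtain ⟨u, hu, hcu⟩ := grow δ (extension' δ a ha hsync) _ hS0 (n - 3)
  rw [← hn, ← pre_append] at hcu
  rw [← hn] at hu
  obtain ⟨k, hk⟩ : ∃ k, n = k + 3 := ⟨n - 3, by omega⟩
  have hpre : n - 1 ≤ (pre δ {δ x c} (u ++ [c])).card := by omega
  have hlen : (u ++ [c]).length ≤ n * (n - 3) + 1 := by
    rw [List.length_append]
    simpa using hu
  by_cases hU : pre δ {δ x c} (u ++ [c]) = univ
  · refine ⟨u ++ [c], ?_, ?_⟩
    · intro p q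
      have h1 : ∀ p, act δ p (u ++ [c]) = δ x c := by
        intro p
        have : p ∈ pre δ {δ x c} (u ++ [c]) := by rw [hU]; exact mem_univ _
        simpa [pre] using this
      rw [h1 p, h1 q]
    · rw [hk] at hlen ⊢
      simp only [Nat.add_sub_cancel] at hlen
      have : (k + 3 - 1) ^ 2 = k ^ 2 + 4 * k + 4 := by
        rw [show k + 3 - 1 = k + 2 by omega]; ring
      rw [this]
      nlinarith
  -- one state is missing
  obtain ⟨q', hq'⟩ : ∃ q', q' ∉ pre δ {δ x c} (u ++ [c]) := by
    by_contra h
    push Not at h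
    exact hU (eq_univ_iff_forall.2 h)
  have hall : ∀ p, p ≠ q' → act δ p (u ++ [c]) = δ x c := by
    have h1 : pre δ {δ x c} (u ++ [c]) = univ.erase q' := by
      apply eq_of_subset_of_card_le
      · intro p hp
        rw [mem_erase]
        exact ⟨fun h => hq' (h ▸ hp), mem_univ _⟩
      · rw [card_erase_of_mem (mem_univ _), card_univ]
        exact hpre
    intro p hp
    have h2 : p ∈ pre δ {δ x c} (u ++ [c]) := by
      rw [h1, mem_erase]
      exact ⟨hp, mem_univ _⟩
    simpa [pre] using h2
  -- two states missed by `c`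
  obtain ⟨p1, hp1, p2, hp2, h12⟩ : ∃ p1 ∈ (univ.image fun q => δ q c)ᶜ,
      ∃ p2 ∈ (univ.image fun q => δ q c)ᶜ, p1 ≠ p2 := by
    apply one_lt_card.1
    rw [card_compl]
    omega
  obtain ⟨m, hm0, e, hmc, he⟩ := exists_equiv δ a q0 ha
  have hei : ∀ (i : ℕ) q, e (act δ q (List.replicate i a)) = e q + i := by
    intro i
    induction i with
    | zero => intro q; simp [act_nil]
    | succ i ih =>
      intro q
      rw [act_replicate_succ, he, ih]
      push_cast
      ring
  have hmiss : ∀ p ∈ (univ.image fun q => δ q c)ᶜ, ∀ q, δ q c ≠ p := by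
    intro p hp q h
    rw [mem_compl, mem_image] at hp
    exact hp ⟨q, mem_univ _, h⟩
  have hgood : ∀ p, (∀ q, δ q c ≠ p) → (e q' - e p).val ≤ n - 2 →
      ∃ u, IsReset δ u ∧ u.length < (n - 1) ^ 2 := by
    intro p hp hv
    refine ⟨c :: List.replicate (e q' - e p).val a ++ (u ++ [c]), ?_, ?_⟩
    · have h1 : ∀ q, act δ q (c :: List.replicate (e q' - e p).val a) ≠ q' := by
        intro q h
        rw [act_cons] at h
        have h2 := congrArg e h
        rw [hei, ZMod.natCast_zmod_val] at h2
        apply hp q
        apply e.injective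
        linear_combination h2
      intro q r
      rw [act_append δ q, act_append δ r, hall _ (h1 q), hall _ (h1 r)]
    · rw [List.length_append, List.length_cons, List.length_replicate]
      have h3 : (n - 1) ^ 2 = k ^ 2 + 4 * k + 4 := by
        rw [hk, show k + 3 - 1 = k + 2 by omega]; ring
      rw [h3]
      rw [hk, show k + 3 - 3 = k by omega] at hlen
      have h4 : (e q' - e p).val ≤ k + 1 := by omega
      nlinarith
  have hval : ∀ p, (e q' - e p).val < n := by
    intro p
    rw [hn, ← hmc]
    exact ZMod.val_lt _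
  by_cases h1 : (e q' - e p1).val ≤ n - 2
  · exact hgood p1 (hmiss p1 hp1) h1
  · by_cases h2 : (e q' - e p2).val ≤ n - 2
    · exact hgood p2 (hmiss p2 hp2) h2
    · exfalso
      have h3 := hval p1
      have h4 := hval p2
      have h5 : (e q' - e p1).val = (e q' - e p2).val := by omega
      have h6 := ZMod.val_injective m h5
      apply h12
      apply e.injective
      linear_combination -h6

/-- **Extremal circular automata are irreducible.** -/
theorem circular (δ : Q → A → Q) (hx : Extremal δ) (a : A)
    (ha : ∀ q q', ∃ k, act δ q (List.replicate k a) = q') : Irreducible δ := by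
  have hsync : ∃ u, IsReset δ u := ⟨hx.1.choose, hx.1.choose_spec.1⟩
  refine irreducible_of_transitive δ ?_ hsync ?_
  · intro c
    by_contra hc
    push Not at hc
    have hc' : (univ.image fun q => δ q c).card + 2 ≤ Fintype.card Q := by omega
    obtain ⟨u, hu, hlt⟩ := short_of_rank δ a ha hsync c hc'
    have := hx.2 u hu
    omega
  · intro p q
    obtain ⟨k, hk⟩ := ha p q
    refine ⟨List.replicate k a, ?_, hk⟩
    intro c hc
    rw [List.eq_of_mem_replicate hc]
    apply Finite.injective_iff_surjective.2
    intro r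
    obtain ⟨k, hk⟩ := ha (δ r a) r
    refine ⟨act δ r (List.replicate k a), ?_⟩
    show δ (act δ r (List.replicate k a)) a = r
    rw [← act_replicate_succ δ, List.replicate_succ, act_cons]
    exact hk

end Pool.Agent.Work.MP_446a37_lc
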