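import Pool.Agent.Work.MP_446a37_lc.Orient3

/-!
Uniqueness: for `n ≥ 4` the extremal orientable automata are the Cerny automata.
-/

namespace Pool.Agent.Work.MP_446a37_lc

open Finset

variable {n : ℕ} [NeZero n] {A : Type}
variable {δ : ZMod n → A → ZMod n} {I : ℕ → Finset (ZMod n)} {M : ℕ}

/-- the index of an arc of size two, minus one -/
structure IsIndex (δ : ZMod n → A → ZMod n) (I : ℕ → Finset (ZMod n)) (s : ZMod n)
    (f : ZMod n → ℕ) : Prop where
  lt : ∀ a, f a < n
  eq : ∀ a, a = -(f a • s)
  arc : ∀ a, I (f a + 1) = arc a 2
  step : ∀ a, f a + 1 < n → f (a - s) = f a + 1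
  zero : f 0 = 0
  last : ∀ a, n ≤ f a + 1 → a = s
  next : ∀ a b e, pre δ (Pool.Agent.Work.MP_446a37_lc.arc a 2) [e] =
    Pool.Agent.Work.MP_446a37_lc.arc b 2 → f b ≤ f a + 1
  big : ∀ a b e, pre δ (Pool.Agent.Work.MP_446a37_lc.arc a 2) [e] =
    Pool.Agent.Work.MP_446a37_lc.arc b 3 → a = s

theorem IsIndex.inj {s : ZMod n} {f : ZMod n → ℕ} (h : IsIndex δ I s f) {a b : ZMod n}
    (hab : f a = f b) : a = b := by
  rw [h.eq a, h.eq b, hab]

theorem Setup.exists_index (S : Setup n δ I M) (h4 : 4 ≤ n) (c : A) (s : ZMod n)
    (hs : ∀ x, δ x c = x + s) (h1 : (1 : ZMod n) ∈ AddSubgroup.zmultiples s) :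
    addOrderOf s = n ∧ ∃ f, IsIndex δ I s f := by
  have htop : ∀ a : ZMod n, a ∈ AddSubgroup.zmultiples s := by
    intro a
    have h3 : a = a.val • (1 : ZMod n) := by
      rw [nsmul_one, ZMod.natCast_zmod_val]
    rw [h3]
    exact nsmul_mem h1 _
  have hord : addOrderOf s = n := by
    have h2 : AddSubgroup.zmultiples s = ⊤ := by
      rw [eq_top_iff]
      intro a _
      exact htop a
    have h3 := Nat.card_zmultiples s
    rw [h2, AddSubgroup.card_top, Nat.card_eq_fintype_card, ZMod.card] at h3
    exact h3.symm
  refine ⟨hord, ?_⟩
  have hidx := fun a => S.index_of_mem c s hs a (htop a)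
  rw [hord] at hidx
  choose f hf1 hf2 hf3 hf4 using hidx
  have hns : n • s = 0 := by rw [nsmul_eq_mul, ZMod.natCast_self, zero_mul]
  have huniq : ∀ a i, i < n → a = -(i • s) → f a = i := by
    intro a i hi hai
    have h2 : f a • s = i • s := by
      apply neg_injective
      rw [← hf2, ← hai]
    exact nsmul_injOn_Iio_addOrderOf (Set.mem_Iio.2 (by rw [hord]; exact hf1 a))
      (Set.mem_Iio.2 (by rw [hord]; exact hi)) h2
  have hlast : ∀ a, n ≤ f a + 1 → a = s := by
    intro a ha
    have h2 : f a = n - 1 := by have := hf1 a; omega
    rw [hf2 a, h2]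
    have h3 : (n - 1) • s + s = 0 := by
      rw [← succ_nsmul, Nat.sub_add_cancel (by omega), hns]
    linear_combination -h3
  refine ⟨f, hf1, hf2, hf3, ?_, ?_, hlast, ?_, ?_⟩
  · intro a ha
    apply huniq _ _ ha
    rw [succ_nsmul, neg_add, ← hf2]
    ring
  · exact huniq 0 0 (by omega) (by simp)
  · intro a b e hab
    have h2 := S.L.next (f a + 1) (f b + 1) e (hf4 b).le (by rw [hf3, hf3, hab])
    omega
  · intro a b e hab
    apply hlast
    obtain ⟨j, hj1, hjM, hj⟩ := S.L.surj b 3 (by omega) (by omega)
    have h2 := S.L.next (f a + 1) j e hjM.le (by rw [hf3, hab, hj])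
    by_contra hlt
    push Not at hlt
    obtain ⟨h3, -⟩ := S.block c s hs (j - 1) (by rw [hord]; omega)
    rw [Nat.sub_add_cancel hj1, hj] at h3
    have := (arc_inj (by omega) (by omega) (by omega) h3).2
    omega

theorem Setup.cerny (S : Setup n δ I M) (h4 : 4 ≤ n) (c : A) (s : ZMod n)
    (hs : ∀ x, δ x c = x + s) (h1 : (1 : ZMod n) ∈ AddSubgroup.zmultiples s) (e : A)
    (h01 : δ 0 e = δ 1 e) :
    (s = 1 ∧ ∀ x, δ x e = if x = 0 then 1 else x) ∨
      (s = -1 ∧ ∀ x, δ x e = if x = 1 then 0 else x) := by
  have hn := S.hn
  obtain ⟨hord, f, hf⟩ := S.exists_index h4 c s hs h1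
  have o1 := one_ne_zero' hn
  have o2 := two_ne_zero' hn
  have o3 := three_ne_zero' h4
  obtain ⟨m, hmis, hatt⟩ := S.exists_missing e h01
  have hgrow : ∀ a, δ 0 e ∈ arc a 2 → m ∉ arc a 2 → a = s := by
    intro a hya hma
    have hcard := S.card_pre e h01 m a hatt hma
    rw [if_pos hya] at hcard
    obtain ⟨g, hg⟩ := S.lifts e
    obtain ⟨b, l, hl, hbl⟩ := preimage_arc hg a (k := 2) (by omega)
    have hF : pre δ (arc a 2) [e] = arc b l := by rw [pre_single]; exact hbl
    rw [hF, card_arc b hl] at hcard
    subst hcard
    exact hf.big a b e hF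
  have hs2 : s + s ≠ 0 := by
    intro h
    have h2 : addOrderOf s ∣ 2 := by
      apply addOrderOf_dvd_of_nsmul_eq_zero
      rw [two_nsmul]; exact h
    rw [hord] at h2
    have := Nat.le_of_dvd (by omega) h2
    omega
  have hs0 : s ≠ 0 := by
    rintro rfl
    exact hs2 (by simp)
  have hf0 : ∀ a, f a = 0 → a = 0 := fun a ha => hf.inj (by rw [ha, hf.zero])
  have hfs1 : f (-s) = 1 := by
    have := hf.step 0 (by rw [hf.zero]; omega)
    rwa [hf.zero, zero_sub] at this
  have hfs2 : f (-s - s) = 2 := by
    have := hf.step (-s) (by rw [hfs1]; omega)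
    rwa [hfs1] at this
  by_cases hmy : m ∈ arc (δ 0 e) 2
  · -- case A
    right
    have hm : m = δ 0 e + 1 := by
      rw [mem_arc_two] at hmy
      exact hmy.resolve_left fun h => hmis 0 h.symm
    have hy : δ 0 e - 1 = s := by
      apply hgrow
      · rw [mem_arc_two]; right; ring
      · rw [mem_arc_two, hm]
        rintro (h | h)
        · exact o2 (by linear_combination h)
        · exact o1 (by linear_combination h)
    have hform := S.typeA e h01 (by rw [← hm]; exact hmis)
    have hy' : δ 0 e = s + 1 := by rw [← hy]; ring
    -- monotonicity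
    have hmono : ∀ b : ZMod n, b ≠ 0 → b ≠ 1 → b ≠ 2 → f (b - 1) ≤ f b := by
      intro b hb0 hb1 hb2
      set a := b + s with ha
      have hlt : f a + 1 < n := by
        by_contra hge
        push Not at hge
        have := hf.last a hge
        exact hb0 (by linear_combination this)
      have h5 := hf.step a hlt
      have h6 : a - s = b := by rw [ha]; ring
      rw [h6] at h5
      rw [h5]
      apply hf.next a (b - 1) e
      have h7 : δ 0 e ∉ arc a 2 := by
        rw [mem_arc_two, hy', ha]
        rintro (h | h)
        · exact hb1 (by linear_combination -h)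
        · exact hb0 (by linear_combination -h)
      have h8 : δ 1 e ∉ arc a 2 := by rw [← h01]; exact h7
      rw [pre_single]
      ext x
      simp only [mem_filter, mem_univ, true_and]
      by_cases hx1 : x = 1
      · rw [hx1]
        constructor
        · intro h; exact absurd h h8
        · intro h
          exfalso
          rw [mem_arc_two] at h
          rcases h with h | h
          · exact hb2 (by linear_combination -h)
          · exact hb1 (by linear_combination -h)
      · rw [hform x hx1, hy', mem_arc_two, mem_arc_two, ha]
        constructor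
        · rintro (h | h)
          · left; linear_combination h
          · right; linear_combination h
        · rintro (h | h)
          · left; linear_combination h
          · right; linear_combination h
    have hsm : s = -1 := by
      by_contra hne
      have hv1 : -s ≠ 1 := fun h => hne (by linear_combination -h)
      by_cases hv2 : -s = 2
      · -- then `4` has index 2
        have h5 : -s - s = 4 := by linear_combination 2 * hv2
        have h6 : (4 : ZMod n) ≠ 0 := by
          intro h
          apply hs2
          linear_combination -h5 - h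
        rw [h5] at hfs2
        have h7 := hmono 4 h6 (fun h => o3 (by linear_combination h))
          (fun h => o2 (by linear_combination h))
        rw [hfs2] at h7
        have e3 : (4 - 1 : ZMod n) = 3 := by norm_num
        rw [e3] at h7
        have h8 : f 3 ≠ 2 := by
          intro h
          have := hf.inj (h.trans hfs2.symm)
          exact o1 (by linear_combination -this)
        have h9 : f 3 ≠ 1 := by
          intro h
          have := hf.inj (h.trans hfs1.symm)
          rw [hv2] at this
          exact o1 (by linear_combination this)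
        have h10 : f 3 ≠ 0 := fun h => o3 (hf0 3 h)
        omega
      · have h5 := hmono (-s) (by simpa using hs0) hv1 hv2
        rw [hfs1] at h5
        have h6 : f (-s - 1) ≠ 1 := by
          intro h
          have := hf.inj (h.trans hfs1.symm)
          exact o1 (by linear_combination -this)
        have h7 : f (-s - 1) ≠ 0 := by
          intro h
          have := hf0 _ h
          exact hv1 (by linear_combination this)
        omega
    refine ⟨hsm, fun x => ?_⟩
    by_cases hx : x = 1
    · rw [if_pos hx, hx, ← h01, hy', hsm]; ring
    · rw [if_neg hx, hform x hx, hy', hsm]; ring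
  · -- case B
    left
    have hy : δ 0 e = s := hgrow _ (by rw [mem_arc_two]; exact Or.inl rfl) hmy
    have hm : m = δ 0 e - 1 := by
      by_contra hne
      have h5 : δ 0 e - 1 = s := by
        apply hgrow
        · rw [mem_arc_two]; right; ring
        · rw [mem_arc_two, sub_add_cancel]
          rintro (h | h)
          · exact hne h
          · exact hmis 0 h.symm
      exact o1 (by linear_combination hy - h5)
    have hform := S.typeB e h01 (by rw [← hm]; exact hmis)
    have hmono : ∀ b : ZMod n, b ≠ 0 → b ≠ -1 → b ≠ -2 → f (b + 1) ≤ f b := by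
      intro b hb0 hb1 hb2
      set a := b + s with ha
      have hlt : f a + 1 < n := by
        by_contra hge
        push Not at hge
        have := hf.last a hge
        exact hb0 (by linear_combination this)
      have h5 := hf.step a hlt
      have h6 : a - s = b := by rw [ha]; ring
      rw [h6] at h5
      rw [h5]
      apply hf.next a (b + 1) e
      have h7 : δ 0 e ∉ arc a 2 := by
        rw [mem_arc_two, hy, ha]
        rintro (h | h)
        · exact hb0 (by linear_combination -h)
        · exact hb1 (by linear_combination -h)
      rw [pre_single]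
      ext x
      simp only [mem_filter, mem_univ, true_and]
      by_cases hx0 : x = 0
      · rw [hx0]
        constructor
        · intro h; exact absurd h h7
        · intro h
          exfalso
          rw [mem_arc_two] at h
          rcases h with h | h
          · exact hb1 (by linear_combination -h)
          · exact hb2 (by linear_combination -h)
      · rw [hform x hx0, hy, mem_arc_two, mem_arc_two, ha]
        constructor
        · rintro (h | h)
          · left; linear_combination h
          · right; linear_combination h
        · rintro (h | h)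
          · left; linear_combination h
          · right; linear_combination h
    have hsm : s = 1 := by
      by_contra hne
      have hv1 : -s ≠ -1 := fun h => hne (by linear_combination -h)
      by_cases hv2 : -s = -2
      · have h5 : -s - s = -4 := by linear_combination 2 * hv2
        have h6 : (-4 : ZMod n) ≠ 0 := by
          intro h
          apply hs2
          linear_combination -h5 - h
        rw [h5] at hfs2
        have h7 := hmono (-4) h6 (fun h => o3 (by linear_combination -h))
          (fun h => o2 (by linear_combination -h))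
        rw [hfs2] at h7
        have e3 : (-4 + 1 : ZMod n) = -3 := by norm_num
        rw [e3] at h7
        have h8 : f (-3) ≠ 2 := by
          intro h
          have := hf.inj (h.trans hfs2.symm)
          exact o1 (by linear_combination this)
        have h9 : f (-3) ≠ 1 := by
          intro h
          have := hf.inj (h.trans hfs1.symm)
          rw [hv2] at this
          exact o1 (by linear_combination -this)
        have h10 : f (-3) ≠ 0 := by
          intro h
          have := hf0 _ h
          exact o3 (by linear_combination -this)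
        omega
      · have h5 := hmono (-s) (by simpa using hs0) hv1 hv2
        rw [hfs1] at h5
        have h6 : f (-s + 1) ≠ 1 := by
          intro h
          have := hf.inj (h.trans hfs1.symm)
          exact o1 (by linear_combination this)
        have h7 : f (-s + 1) ≠ 0 := by
          intro h
          have := hf0 _ h
          exact hv1 (by linear_combination this)
        omega
    refine ⟨hsm, fun x => ?_⟩
    by_cases hx : x = 0
    · rw [if_pos hx, hx, hy, hsm]
    · rw [if_neg hx, hform x hx, hy, hsm]; ring

/-- **Uniqueness of the Cerny automaton** among the extremal orientable automata. -/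
theorem orientable_cerny {Q : Type} [Fintype Q] [DecidableEq Q] (δ : Q → A → Q)
    (hn : 4 ≤ Fintype.card Q) (hx : Extremal δ) (ho : Orientable δ) :
    ∃ e : Q ≃ ZMod (Fintype.card Q),
      (∀ c, (∀ q, e (δ q c) = e q) ∨ (∀ q, e (δ q c) = e q + 1) ∨
        (∀ q, e (δ q c) = if e q = 0 then 1 else e q)) ∧
      (∃ c, ∀ q, e (δ q c) = e q + 1) ∧
      ∃ c, ∀ q, e (δ q c) = if e q = 0 then 1 else e q := by
  obtain ⟨e, he⟩ := ho
  have hne : NeZero (Fintype.card Q) := ⟨by omega⟩
  set δ0 : ZMod (Fintype.card Q) → A → ZMod (Fintype.card Q) :=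
    fun x c => e (δ (e.symm x) c) with hδ0
  have h0 : ∀ q c, e (δ q c) = δ0 (e q) c := by
    intro q c
    simp [hδ0]
  have hx0 : Extremal δ0 := extremal_equiv e δ δ0 h0 hx
  have hl : ∀ c, ∃ g, IsLift (Fintype.card Q) g fun x => δ0 x c := by
    intro c
    obtain ⟨g, hg1, hg2, hg3⟩ := he c
    exact ⟨g, hg1, hg2, hg3⟩
  obtain ⟨x0, I, S⟩ := exists_setup (by omega) δ0 hx0 hl
  set δ' : ZMod (Fintype.card Q) → A → ZMod (Fintype.card Q) :=
    fun x c => δ0 (x + x0) c - x0 with hδ'
  have h1 : ∀ q c, (Equiv.subRight x0) (δ0 q c) = δ' ((Equiv.subRight x0) q) c := by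
    intro q c
    simp [hδ']
  have hx' : Extremal δ' := extremal_equiv (Equiv.subRight x0) δ0 δ' h1 hx0
  have hsync : ∃ u, IsReset δ' u := ⟨hx'.1.choose, hx'.1.choose_spec.1⟩
  obtain ⟨a, s, hs, hs0⟩ := S.exists_rot
  have hgen := S.generates hsync a s hs hs0
  obtain ⟨e0, he0⟩ := S.exists_merge hsync
  -- the equivalence `q ↦ e q - x0`
  set e1 : Q ≃ ZMod (Fintype.card Q) := e.trans (Equiv.subRight x0) with he1
  have h2 : ∀ q c, e1 (δ q c) = δ' (e1 q) c := by
    intro q c
    show (Equiv.subRight x0) (e (δ q c)) = _
    rw [h0, h1]
    rfl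
  have hletter : ∀ c, (∀ x, δ' x c = x) ∨ (∀ x, δ' x c = x + s) ∨ δ' 0 c = δ' 1 c := by
    intro c
    rcases S.inj_or c with ⟨t, ht⟩ | h01
    · by_cases h : t = 0
      · left; intro x; rw [ht, h, add_zero]
      · right; left
        intro x
        rw [ht, S.rot_unique c a t s ht hs h hs0]
    · exact Or.inr (Or.inr h01)
  have hn3 : 3 ≤ Fintype.card Q := by omega
  have hpm : (1 : ZMod (Fintype.card Q)) ≠ -1 := by
    intro h
    exact two_ne_zero' hn3 (by linear_combination h)
  rcases S.cerny hn a s hs hgen e0 he0 with ⟨hs1, hf0⟩ | ⟨hs1, hf0⟩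
  · refine ⟨e1, ?_, ?_, ?_⟩
    · intro c
      rcases hletter c with h | h | h
      · left; intro q; rw [h2, h]
      · right; left; intro q; rw [h2, h, hs1]
      · right; right
        intro q
        rcases S.cerny hn a s hs hgen c h with ⟨-, h3⟩ | ⟨h3, -⟩
        · rw [h2, h3]
        · exact absurd (hs1.symm.trans h3) hpm
    · exact ⟨a, fun q => by rw [h2, hs, hs1]⟩
    · exact ⟨e0, fun q => by rw [h2, hf0]⟩
  · set e2 : Q ≃ ZMod (Fintype.card Q) := e1.trans (Equiv.subLeft 1) with he2
    have h3 : ∀ q c, e2 (δ q c) = 1 - δ' (1 - e2 q) c := by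
      intro q c
      show (1 : ZMod (Fintype.card Q)) - e1 (δ q c) = _
      rw [h2]
      congr 2
      show e1 q = 1 - (1 - e1 q)
      ring
    refine ⟨e2, ?_, ?_, ?_⟩
    · intro c
      rcases hletter c with h | h | h
      · left; intro q; rw [h3, h]; ring
      · right; left; intro q; rw [h3, h, hs1]; ring
      · right; right
        intro q
        rcases S.cerny hn a s hs hgen c h with ⟨h4, -⟩ | ⟨-, h4⟩
        · exact absurd (h4.symm.trans hs1) hpm
        · rw [h3, h4]
          by_cases hq : e2 q = 0
          · rw [hq, sub_zero, if_pos rfl, if_pos rfl, sub_zero]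
          · rw [if_neg hq, if_neg]
            · ring
            · intro h5
              exact hq (by linear_combination -h5)
    · exact ⟨a, fun q => by rw [h3, hs, hs1]; ring⟩
    · refine ⟨e0, fun q => ?_⟩
      rw [h3, hf0]
      by_cases hq : e2 q = 0
      · rw [hq, sub_zero, if_pos rfl, if_pos rfl, sub_zero]
      · rw [if_neg hq, if_neg]
        · ring
        · intro h5
          exact hq (by linear_combination -h5)

end Pool.Agent.Work.MP_446a37_lc
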