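import Pool.Agent.Work.MP_446a37_lc.Irr

/-!
In prime degree a transitive group of permutations given by words contains a word acting as a
full cycle.
-/

namespace Pool.Agent.Work.MP_446a37_lc

open Finset

variable {Q A : Type} [Fintype Q] [DecidableEq Q]

/-- the group of permutations given by words -/
def wordGroup (δ : Q → A → Q) : Subgroup (Equiv.Perm Q) where
  carrier := {σ | ∃ u : List A, ∀ q, σ q = act δ q u}
  mul_mem' := by
    rintro σ τ ⟨u, hu⟩ ⟨v, hv⟩
    exact ⟨v ++ u, fun q => by rw [Equiv.Perm.mul_apply, hv, hu, act_append]⟩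
  one_mem' := ⟨[], fun q => rfl⟩
  inv_mem' := by
    rintro σ ⟨u, hu⟩
    have hpow : ∀ k : ℕ, ∃ v : List A, ∀ q, (σ ^ k) q = act δ q v := by
      intro k
      induction k with
      | zero => exact ⟨[], fun q => rfl⟩
      | succ k ih =>
        obtain ⟨v, hv⟩ := ih
        refine ⟨u ++ v, fun q => ?_⟩
        rw [pow_succ, Equiv.Perm.mul_apply, hu, hv, act_append]
    have hinv : σ⁻¹ = σ ^ (orderOf σ - 1) := by
      symm
      apply eq_inv_of_mul_eq_one_left
      rw [← pow_succ, Nat.sub_add_cancel (orderOf_pos σ), pow_orderOf_eq_one]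
    rw [hinv]
    exact hpow _

theorem exists_cycle_word (δ : Q → A → Q) (hp : (Fintype.card Q).Prime)
    (htr : ∀ x y : Q, ∃ u : List A, (Function.Injective fun q => act δ q u) ∧ act δ x u = y) :
    ∃ w : List A, ∀ x y : Q, ∃ k : ℕ, (fun q => act δ q w)^[k] x = y := by
  have hcard := hp.pos
  obtain ⟨q0⟩ : Nonempty Q := Fintype.card_pos_iff.1 hcard
  have : Fact (Fintype.card Q).Prime := ⟨hp⟩
  have horb : MulAction.orbit (wordGroup δ) q0 = Set.univ := by
    rw [Set.eq_univ_iff_forall]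
    intro y
    obtain ⟨u, hu, huy⟩ := htr q0 y
    refine ⟨⟨Equiv.ofBijective _ (Finite.injective_iff_bijective.1 hu), ⟨u, fun q => rfl⟩⟩, huy⟩
  have hdvd : Fintype.card Q ∣ Nat.card (wordGroup δ) := by
    have h1 := MulAction.index_stabilizer (wordGroup δ) q0
    rw [horb, Set.ncard_univ, Nat.card_eq_fintype_card] at h1
    rw [← h1]
    exact Subgroup.index_dvd_card _
  obtain ⟨s, hσ⟩ := exists_prime_orderOf_dvd_card' (Fintype.card Q) hdvd
  obtain ⟨w, hw⟩ : ∃ u : List A, ∀ q, (s : Equiv.Perm Q) q = act δ q u := s.2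
  have hord : orderOf (s : Equiv.Perm Q) = Fintype.card Q := by
    rw [← hσ, Subgroup.orderOf_coe]
  generalize (s : Equiv.Perm Q) = σ at hw hord
  have hcyc : σ.IsCycle := Equiv.Perm.isCycle_of_prime_order'' hp hord
  have hsupp : σ.support = univ := by
    rw [← Finset.card_eq_iff_eq_univ, ← hcyc.orderOf, hord]
  refine ⟨w, fun x y => ?_⟩
  have hne : ∀ z, σ z ≠ z := by
    intro z
    rw [← Equiv.Perm.mem_support, hsupp]
    exact mem_univ z
  obtain ⟨k, hk⟩ := hcyc.exists_pow_eq (hne x) (hne y)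
  refine ⟨k, ?_⟩
  rw [← hk]
  have hfun : (fun q => act δ q w) = σ := by
    ext q
    exact (hw q).symm
  rw [hfun, Equiv.Perm.iterate_eq_pow]

end Pool.Agent.Work.MP_446a37_lc
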