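import Pool.Agent.Work.MP_446a37_lc.Irr

/-!
Simple automata, and the equivalence with irreducibility for letters of rank at least `n - 1`.
-/

namespace Pool.Agent.Work.MP_446a37_lc

open Finset

/-- `r` is a congruence of the automaton. -/
def IsCongruence {Q A : Type} (δ : Q → A → Q) (r : Setoid Q) : Prop :=
  ∀ p q, r.r p q → ∀ c, r.r (δ p c) (δ q c)

/-- The only congruences are equality and the total relation. -/
def IsSimple {Q A : Type} (δ : Q → A → Q) : Prop :=
  ∀ r : Setoid Q, IsCongruence δ r → (∀ p q, r.r p q → p = q) ∨ ∀ p q, r.r p q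

variable {Q A : Type} [Fintype Q] [DecidableEq Q]

/-- `push` as a linear map -/
def pushL (δ : Q → A → Q) (c : A) : (Q → ℂ) →ₗ[ℂ] (Q → ℂ) where
  toFun := push δ c
  map_add' v w := by
    ext p
    simp only [push, Pi.add_apply, ← sum_add_distrib]
    refine sum_congr rfl fun q _ => ?_
    split_ifs <;> simp
  map_smul' r v := by
    ext p
    simp only [push, Pi.smul_apply, smul_eq_mul, RingHom.id_apply, mul_sum]
    refine sum_congr rfl fun q _ => ?_
    split_ifs <;> simp

theorem simple_of_irreducible (δ : Q → A → Q) (h : Irreducible δ) : IsSimple δ := by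
  classical
  intro r hr
  by_contra hcon
  push Not at hcon
  obtain ⟨⟨p1, q1, h1, hne⟩, p2, q2, h2⟩ := hcon
  set W : Submodule ℂ (Q → ℂ) := Submodule.span ℂ
    {v | ∃ p q, r.r p q ∧ v = Pi.single p 1 - Pi.single q 1} with hW
  have hs0 : ∀ v ∈ W, ∑ q, v q = 0 := by
    intro v hv
    induction hv using Submodule.span_induction with
    | mem v hv =>
      obtain ⟨p, q, -, rfl⟩ := hv
      simp [Finset.sum_sub_distrib]
    | zero => simp
    | add v w _ _ hv hw => simp only [Pi.add_apply, sum_add_distrib, hv, hw, add_zero]
    | smul t v _ hv =>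
      simp only [Pi.smul_apply, smul_eq_mul, ← mul_sum, hv, mul_zero]
  have hinv : ∀ a, ∀ v ∈ W, push δ a v ∈ W := by
    intro a v hv
    show pushL δ a v ∈ W
    induction hv using Submodule.span_induction with
    | mem v hv =>
      obtain ⟨p, q, hpq, rfl⟩ := hv
      refine Submodule.subset_span ⟨δ p a, δ q a, hr p q hpq a, ?_⟩
      show push δ a _ = _
      rw [push_sub, push_single, push_single]
    | zero => rw [map_zero]; exact W.zero_mem
    | add v w _ _ hv hw => rw [map_add]; exact W.add_mem hv hw
    | smul t v _ hv => rw [map_smul]; exact W.smul_mem _ hv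
  rcases h W hs0 hinv with h3 | h3
  · have h4 : (Pi.single p1 1 - Pi.single q1 1 : Q → ℂ) ∈ W :=
      Submodule.subset_span ⟨p1, q1, h1, rfl⟩
    rw [h3, Submodule.mem_bot] at h4
    have h5 := congrFun h4 p1
    simp [hne] at h5
  · have h4 : (Pi.single p2 1 - Pi.single q2 1 : Q → ℂ) ∈ W := h3 _ (by
      simp [Finset.sum_sub_distrib])
    have h5 : ∀ v ∈ W, ∑ q, (if r.r p2 q then v q else 0) = 0 := by
      intro v hv
      induction hv using Submodule.span_induction with
      | mem v hv =>
        obtain ⟨p, q, hpq, rfl⟩ := hv
        have e : ∀ s : Q, (if r.r p2 s then (Pi.single p 1 - Pi.single q 1 : Q → ℂ) s else 0) =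
            (Pi.single p (if r.r p2 p then 1 else 0) : Q → ℂ) s -
            (Pi.single q (if r.r p2 q then 1 else 0) : Q → ℂ) s := by
          intro s
          simp only [Pi.sub_apply, Pi.single_apply]
          by_cases hs : s = p
          · subst hs
            by_cases hs' : s = q
            · subst hs'
              simp
            · simp [hs']
          · by_cases hs' : s = q
            · subst hs'
              by_cases hh : r.r p2 s
              · simp [hs, hh]
              · simp [hs, hh]
            · simp [hs, hs']
        rw [sum_congr rfl fun s _ => e s, sum_sub_distrib, sum_pi_single', sum_pi_single']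
        have h6 : r.r p2 p ↔ r.r p2 q := ⟨fun h => r.trans h hpq, fun h => r.trans h (r.symm hpq)⟩
        simp [h6]
      | zero => simp
      | add v w _ _ hv hw =>
        have : ∀ q, (if r.r p2 q then (v + w) q else 0) =
            (if r.r p2 q then v q else 0) + (if r.r p2 q then w q else 0) := by
          intro q
          split_ifs <;> simp
        rw [sum_congr rfl fun q _ => this q, sum_add_distrib, hv, hw, add_zero]
      | smul t v _ hv =>
        have : ∀ q, (if r.r p2 q then (t • v) q else 0) =
            t * (if r.r p2 q then v q else 0) := by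
          intro q
          split_ifs <;> simp
        rw [sum_congr rfl fun q _ => this q, ← mul_sum, hv, mul_zero]
    have h6 := h5 _ h4
    have h7 : ∀ q : Q, (if r.r p2 q then (Pi.single p2 1 - Pi.single q2 1 : Q → ℂ) q else 0) =
        if q = p2 then 1 else 0 := by
      intro q
      by_cases hq : r.r p2 q
      · have hne2 : q ≠ q2 := fun h => h2 (h ▸ hq)
        rw [if_pos hq, Pi.sub_apply, Pi.single_apply, Pi.single_eq_of_ne hne2, sub_zero]
      · have hne2 : q ≠ p2 := fun h => hq (h ▸ r.refl _)
        rw [if_neg hq, if_neg hne2]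
    rw [sum_congr rfl fun q _ => h7 q] at h6
    simp at h6

end Pool.Agent.Work.MP_446a37_lc
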