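import Pool.Agent.Work.MP_446a37_lc.Hs

/-!
The spectral argument behind the extension lemma for circular automata, in abstract form.
`b` is an eigenbasis of `R` with distinct eigenvalues `z k`, `T c` are the other operators,
`σ` is a functional vanishing on all basis vectors but `b k0`.
-/

namespace Pool.Agent.Work.MP_446a37_lc

open Finset Classical

variable {κ A V : Type*} [Fintype κ] [AddCommGroup V] [Module ℂ V]

section

variable (b : Module.Basis κ ℂ V) (z : κ → ℂ) (R : V →ₗ[ℂ] V) (T : A → V →ₗ[ℂ] V)
  (σ : V →ₗ[ℂ] ℂ) (k0 : κ)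

/-- frequencies from which `k0` can be reached in at most `s` steps -/
noncomputable def RS : ℕ → Finset κ
  | 0 => {k0}
  | s + 1 => univ.filter fun k => k ∈ RS s ∨ ∃ k' ∈ RS s, ∃ c, b.repr (T c (b k)) k' ≠ 0

/-- the shifted sets -/
noncomputable def RS' : ℕ → Finset κ
  | 0 => ∅
  | s + 1 => RS b T k0 s

theorem RS_mono (s : ℕ) : RS b T k0 s ⊆ RS b T k0 (s + 1) := by
  intro k hk
  simp only [RS, mem_filter, mem_univ, true_and]
  exact Or.inl hk

theorem RS_step {s : ℕ} {k k' : κ} (hk' : k' ∈ RS b T k0 s) {c : A}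
    (h : b.repr (T c (b k)) k' ≠ 0) : k ∈ RS b T k0 (s + 1) := by
  simp only [RS, mem_filter, mem_univ, true_and]
  exact Or.inr ⟨k', hk', c, h⟩

theorem RS_strict (s : ℕ) (h : RS b T k0 s ≠ RS b T k0 (s + 1)) :
    s + 1 ≤ (RS b T k0 s).card := by
  induction s with
  | zero => simp [RS]
  | succ s ih =>
    have h1 : RS b T k0 s ≠ RS b T k0 (s + 1) := by
      intro h2
      apply h
      ext k
      constructor
      · exact fun hk => RS_mono b T k0 (s + 1) hk
      · intro hk
        rw [RS] at hk
        simp only [mem_filter, mem_univ, true_and] at hk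
        rcases hk with hk | ⟨k', hk', c, hc⟩
        · exact hk
        · rw [← h2] at hk'
          exact RS_step b T k0 hk' hc
    have h2 := ih h1
    have h3 : (RS b T k0 s).card < (RS b T k0 (s + 1)).card :=
      card_lt_card (lt_of_le_of_ne (RS_mono b T k0 s) h1)
    omega

/-- signed sums over words with prescribed letters, with powers of `R` inserted -/
noncomputable def Bs : List A → ℕ → V →ₗ[ℂ] ℂ
  | [], _ => σ
  | c :: L, m => ∑ j ∈ range (m + 1), (Bs L (m - j)) ∘ₗ (T c) ∘ₗ (R ^ j)

/-- vectors all of whose terms vanish -/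
noncomputable def Zm : List A → ℕ → Submodule ℂ V
  | [], _ => LinearMap.ker σ
  | c :: L, m => ⨅ j : Fin (m + 1), (Zm L (m - j)).comap ((T c) ∘ₗ (R ^ (j : ℕ)))

theorem mem_Zm_cons (c : A) (L : List A) (m : ℕ) (f : V) :
    f ∈ Zm R T σ (c :: L) m ↔ ∀ j ≤ m, T c ((R ^ j) f) ∈ Zm R T σ L (m - j) := by
  rw [Zm, Submodule.mem_iInf]
  constructor
  · intro h j hj
    exact h ⟨j, by omega⟩
  · intro h j
    exact h j (by omega)

theorem Zm_mono (L : List A) {m m' : ℕ} (h : m' ≤ m) :
    Zm R T σ L m ≤ Zm R T σ L m' := by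
  induction L generalizing m m' with
  | nil => exact le_rfl
  | cons c L ih =>
    intro f hf
    rw [mem_Zm_cons] at hf ⊢
    intro j hj
    exact ih (by omega) (hf j (by omega))

variable {b z R T σ k0}

theorem pow_basis (hR : ∀ k, R (b k) = z k • b k) (k : κ) (j : ℕ) :
    (R ^ j) (b k) = z k ^ j • b k := by
  induction j with
  | zero => simp
  | succ j ih =>
    rw [pow_succ', Module.End.mul_apply, ih, map_smul, hR, smul_smul, pow_succ]

/-- convolution with the powers of `x` -/
noncomputable def conv (x : ℂ) : (ℕ → ℂ) →ₗ[ℂ] (ℕ → ℂ) where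
  toFun g := fun m => ∑ j ∈ range (m + 1), x ^ j * g (m - j)
  map_add' g h := by
    ext m
    simp only [Pi.add_apply, mul_add, sum_add_distrib]
  map_smul' r g := by
    ext m
    simp only [Pi.smul_apply, smul_eq_mul, RingHom.id_apply, mul_sum]
    exact sum_congr rfl fun j _ => by ring

theorem path (hR : ∀ k, R (b k) = z k • b k) (hσ : ∀ k, k ≠ k0 → σ (b k) = 0)
    (hz0 : z k0 = 1) (L : List A) : ∀ k, k ∉ RS' b T k0 L.length →
    (fun m => Bs R T σ L m (b k)) ∈ Submodule.span ℂ {g : ℕ → ℂ | ∃ P : List κ,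
      (k :: P).Nodup ∧ P.length = L.length ∧ (∀ x ∈ k :: P, x ∈ RS b T k0 L.length) ∧
      g = hs ((k :: P).map z)} := by
  induction L with
  | nil =>
    intro k _
    by_cases hk : k = k0
    · subst hk
      have : (fun m => Bs R T σ [] m (b k)) = σ (b k) • hs ([k].map z) := by
        ext m
        show σ (b k) = σ (b k) * hs [z k] m
        rw [hs_single, hz0, one_pow, mul_one]
      rw [this]
      refine Submodule.smul_mem _ _ (Submodule.subset_span ⟨[], by simp, rfl, ?_, rfl⟩)
      intro x hx
      simp only [List.mem_singleton] at hx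
      subst hx
      simp [RS]
    · have : (fun m => Bs R T σ [] m (b k)) = 0 := by
        ext m
        exact hσ k hk
      rw [this]
      exact Submodule.zero_mem _
  | cons c L ih =>
    intro k hk
    have hk1 : k ∉ RS b T k0 L.length := hk
    have e : (fun m => Bs R T σ (c :: L) m (b k)) =
        ∑ k', b.repr (T c (b k)) k' • conv (z k) (fun m => Bs R T σ L m (b k')) := by
      ext m
      rw [Finset.sum_apply]
      show (∑ j ∈ range (m + 1), (Bs R T σ L (m - j)) ∘ₗ (T c) ∘ₗ (R ^ j)) (b k) =
        ∑ k', (b.repr (T c (b k)) k') * (∑ j ∈ range (m + 1), z k ^ j * Bs R T σ L (m - j) (b k'))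
      rw [LinearMap.sum_apply]
      simp only [mul_sum]
      rw [sum_comm]
      refine sum_congr rfl fun j _ => ?_
      rw [LinearMap.comp_apply, LinearMap.comp_apply, pow_basis hR, map_smul, map_smul]
      conv_lhs => rw [← b.sum_repr (T c (b k))]
      rw [map_sum, smul_sum]
      refine sum_congr rfl fun k' _ => ?_
      rw [map_smul, smul_eq_mul, smul_eq_mul]
      ring
    rw [e]
    refine Submodule.sum_mem _ fun k' _ => ?_
    by_cases h0 : b.repr (T c (b k)) k' = 0
    · rw [h0, zero_smul]; exact Submodule.zero_mem _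
    · refine Submodule.smul_mem _ _ ?_
      have hk' : k' ∉ RS' b T k0 L.length := by
        intro h1
        rcases hL : L.length with _ | s
        · rw [hL] at h1
          simp [RS'] at h1
        · rw [hL] at h1 hk1
          exact hk1 (RS_step b T k0 h1 h0)
      have h2 := ih k' hk'
      have h3 := Submodule.mem_map_of_mem (f := conv (z k)) h2
      rw [Submodule.map_span] at h3
      refine Submodule.span_mono ?_ h3
      rintro _ ⟨g, ⟨P, hnd, hlen, hmem, rfl⟩, rfl⟩
      refine ⟨k' :: P, ?_, ?_, ?_, ?_⟩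
      · rw [List.nodup_cons]
        exact ⟨fun h => hk1 (hmem k h), hnd⟩
      · simp [hlen]
      · intro x hx
        rw [List.mem_cons] at hx
        rcases hx with rfl | hx
        · exact RS_step b T k0 (hmem k' (by simp)) h0
        · exact RS_mono b T k0 _ (hmem x hx)
      · ext m
        rfl

theorem Bs_zero (hR : ∀ k, R (b k) = z k • b k) (hσ : ∀ k, k ≠ k0 → σ (b k) = 0)
    (hz0 : z k0 = 1) (hzi : Function.Injective z) (hzn : ∀ k, z k ^ Fintype.card κ = 1)
    (L : List A) (hL : 1 ≤ L.length) (f : V) (hf : ∀ k ∈ RS' b T k0 L.length, b.repr f k = 0) :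
    Bs R T σ L (Fintype.card κ - L.length) f = 0 := by
  have h1 : ∀ k, k ∉ RS' b T k0 L.length → Bs R T σ L (Fintype.card κ - L.length) (b k) = 0 := by
    intro k hk
    have h2 := path (T := T) hR hσ hz0 L k hk
    have h3 : ∀ g ∈ Submodule.span ℂ {g : ℕ → ℂ | ∃ P : List κ,
      (k :: P).Nodup ∧ P.length = L.length ∧ (∀ x ∈ k :: P, x ∈ RS b T k0 L.length) ∧
      g = hs ((k :: P).map z)}, g (Fintype.card κ - L.length) = 0 := by
      intro g hg
      induction hg using Submodule.span_induction with
      | mem g hg =>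
        obtain ⟨P, hnd, hlen, -, rfl⟩ := hg
        have hc := hnd.length_le_card
        have h4 := hs_roots (n := Fintype.card κ) ((k :: P).map z) (hnd.map hzi) (by
            intro x hx
            obtain ⟨y, -, rfl⟩ := List.mem_map.1 hx
            exact hzn y) (by simp [hlen]; omega) (by simpa using hc)
        have h5 : Fintype.card κ + 1 - ((k :: P).map z).length = Fintype.card κ - L.length := by
          simp [hlen]
        rwa [h5] at h4
      | zero => rfl
      | add g h _ _ hg hh => rw [Pi.add_apply, hg, hh, add_zero]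
      | smul r g _ hg => rw [Pi.smul_apply, hg, smul_zero]
    exact h3 _ h2
  rw [← b.sum_repr f, map_sum]
  refine sum_eq_zero fun k _ => ?_
  rw [map_smul]
  by_cases hk : k ∈ RS' b T k0 L.length
  · rw [hf k hk, zero_smul]
  · rw [h1 k hk, smul_zero]

theorem repr_T (c : A) (g : V) (k' : κ) :
    b.repr (T c g) k' = ∑ k, b.repr g k * b.repr (T c (b k)) k' := by
  have h : T c g = ∑ k, b.repr g k • T c (b k) := by
    conv_lhs => rw [← b.sum_repr g]
    rw [map_sum]
    exact sum_congr rfl fun k _ => map_smul _ _ _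
  rw [h, map_sum, Finsupp.finsetSum_apply]
  refine sum_congr rfl fun k _ => ?_
  rw [map_smul, Finsupp.smul_apply, smul_eq_mul]

theorem repr_aeval (hR : ∀ k, R (b k) = z k • b k) (p : Polynomial ℂ) (f : V) (k : κ) :
    b.repr (Polynomial.aeval R p f) k = p.eval (z k) * b.repr f k := by
  have h1 : ∀ k, Polynomial.aeval R p (b k) = p.eval (z k) • b k := by
    intro k
    rw [Polynomial.aeval_eq_sum_range, LinearMap.sum_apply, Polynomial.eval_eq_sum_range,
      sum_smul]
    refine sum_congr rfl fun j _ => ?_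
    rw [LinearMap.smul_apply, pow_basis hR, smul_smul]
  conv_lhs => rw [← b.sum_repr f]
  rw [map_sum, map_sum, Finsupp.finsetSum_apply]
  rw [Finset.sum_eq_single k]
  · rw [map_smul, h1, map_smul, map_smul]
    simp [mul_comm]
  · intro k' _ hk'
    rw [map_smul, h1, map_smul, map_smul]
    simp [Finsupp.single_apply, hk']
  · simp

theorem low (hR : ∀ k, R (b k) = z k • b k) (hσ : ∀ k, k ≠ k0 → σ (b k) = 0)
    (hσ0 : σ (b k0) ≠ 0) (hzi : Function.Injective z) (s : ℕ) : ∀ (m : ℕ) (f : V),
    (RS b T k0 s).card ≤ m + s + 1 → (∀ k ∈ RS' b T k0 s, b.repr f k = 0) →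
    (∀ L : List A, L.length = s → f ∈ Zm R T σ L m) → ∀ k ∈ RS b T k0 s, b.repr f k = 0 := by
  induction s with
  | zero =>
    intro m f _ _ hZ k hk
    have h1 : σ f = 0 := hZ [] rfl
    simp only [RS, mem_singleton] at hk
    subst hk
    rw [← b.sum_repr f, map_sum, Finset.sum_eq_single k] at h1
    · rw [map_smul, smul_eq_mul] at h1
      rcases mul_eq_zero.1 h1 with h | h
      · exact h
      · exact absurd h hσ0
    · intro k' _ hk'
      rw [map_smul, hσ k' hk', smul_zero]
    · simp
  | succ s ih =>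
    intro m f hcard hf hZ k1 hk1
    by_cases hin : k1 ∈ RS b T k0 s
    · exact hf k1 hin
    have hne : RS b T k0 s ≠ RS b T k0 (s + 1) := fun h => hin (h ▸ hk1)
    have hst := RS_strict b T k0 s hne
    set X := (RS b T k0 (s + 1) \ RS b T k0 s).erase k1 with hX
    have hXc : X.card + 1 + (RS b T k0 s).card = (RS b T k0 (s + 1)).card := by
      have h1 : X.card + 1 = (RS b T k0 (s + 1) \ RS b T k0 s).card :=
        card_erase_add_one (by simp [hk1, hin])
      rw [h1, card_sdiff_add_card_eq_card (RS_mono b T k0 s)]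
    have hXm : X.card ≤ m := by omega
    set p : Polynomial ℂ := ∏ x ∈ X, (Polynomial.X - Polynomial.C (z x)) with hp
    have hdeg : p.natDegree = X.card := by
      rw [hp, Polynomial.natDegree_prod_of_monic _ _ fun x _ => Polynomial.monic_X_sub_C _]
      simp
    set g := Polynomial.aeval R p f with hg
    have hpe : ∀ k, p.eval (z k) = ∏ x ∈ X, (z k - z x) := by
      intro k
      rw [hp, Polynomial.eval_prod]
      simp
    have hpne : p.eval (z k1) ≠ 0 := by
      rw [hpe]
      refine prod_ne_zero_iff.2 fun x hx => sub_ne_zero.2 fun h => ?_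
      rw [hX, mem_erase] at hx
      exact hx.1 (hzi h).symm
    have hgr : ∀ k, k ∈ RS b T k0 (s + 1) → k ≠ k1 → b.repr g k = 0 := by
      intro k hk hkk
      rw [hg, repr_aeval hR]
      by_cases h : k ∈ RS b T k0 s
      · rw [hf k h, mul_zero]
      · rw [hpe, prod_eq_zero (i := k) _ (sub_self _), zero_mul]
        rw [hX, mem_erase, mem_sdiff]
        exact ⟨hkk, hk, h⟩
    obtain ⟨k', hk', c, hc⟩ : ∃ k' ∈ RS b T k0 s, ∃ c, b.repr (T c (b k1)) k' ≠ 0 := by
      rw [RS] at hk1
      simp only [mem_filter, mem_univ, true_and] at hk1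
      rcases hk1 with h | h
      · exact absurd h hin
      · exact h
    have h1 : ∀ k ∈ RS b T k0 s, b.repr (T c g) k = 0 := by
      refine ih (m - X.card) (T c g) (by omega) ?_ ?_
      · intro k'' hk''
        rw [repr_T]
        refine sum_eq_zero fun k _ => ?_
        by_cases h : b.repr (T c (b k)) k'' = 0
        · rw [h, mul_zero]
        · have h2 : k ∈ RS b T k0 s := by
            rcases s with _ | s
            · simp [RS'] at hk''
            · exact RS_step b T k0 hk'' h
          rw [hgr k (RS_mono b T k0 s h2) (fun h => hin (h ▸ h2)), zero_mul]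
      · intro L hL
        rw [hg, Polynomial.aeval_eq_sum_range, LinearMap.sum_apply, map_sum]
        refine Submodule.sum_mem _ fun j hj => ?_
        rw [LinearMap.smul_apply, map_smul]
        refine Submodule.smul_mem _ _ ?_
        rw [mem_range, hdeg] at hj
        have h3 := (mem_Zm_cons R T σ c L m f).1 (hZ (c :: L) (by simp [hL])) j (by omega)
        exact Zm_mono R T σ L (by omega) h3
    have h2 := h1 k' hk'
    rw [repr_T, Finset.sum_eq_single k1] at h2
    · rw [hg, repr_aeval hR] at h2
      rcases mul_eq_zero.1 h2 with h | h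
      · rcases mul_eq_zero.1 h with h | h
        · exact absurd h hpne
        · exact h
      · exact absurd h hc
    · intro k _ hk
      by_cases h : b.repr (T c (b k)) k' = 0
      · rw [h, mul_zero]
      · rw [hgr k (RS_step b T k0 hk' h) hk, zero_mul]
    · simp

theorem main_abs (hR : ∀ k, R (b k) = z k • b k) (hσ : ∀ k, k ≠ k0 → σ (b k) = 0)
    (hσ0 : σ (b k0) ≠ 0) (hz0 : z k0 = 1) (hzi : Function.Injective z)
    (hzn : ∀ k, z k ^ Fintype.card κ = 1) (f : V) (hf0 : σ f = 0)
    (hf : ∀ L : List A, L.length ≤ Fintype.card κ →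
      Bs R T σ L (Fintype.card κ - L.length) f = 0 →
      f ∈ Zm R T σ L (Fintype.card κ - L.length)) (s : ℕ) :
    ∀ k ∈ RS b T k0 s, b.repr f k = 0 := by
  induction s with
  | zero =>
    refine low (T := T) hR hσ hσ0 hzi 0 0 f (by simp [RS]) (by simp [RS']) ?_
    intro L hL
    rw [List.length_eq_zero_iff] at hL
    subst hL
    exact hf0
  | succ s ih =>
    by_cases hne : RS b T k0 s = RS b T k0 (s + 1)
    · rw [← hne]; exact ih
    have hst := RS_strict b T k0 s hne
    have hc : (RS b T k0 s).card ≤ Fintype.card κ := card_le_univ _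
    have hc' : (RS b T k0 (s + 1)).card ≤ Fintype.card κ := card_le_univ _
    refine low (T := T) hR hσ hσ0 hzi (s + 1) (Fintype.card κ - (s + 1)) f (by omega) ih ?_
    intro L hL
    have h1 := hf L (by omega) (Bs_zero hR hσ hz0 hzi hzn L (by omega) f (by rw [hL]; exact ih))
    rwa [hL] at h1

/-- the vanishing set is closed under reaching, so all the words give zero -/
theorem closed (f : V) (hf : ∀ s, ∀ k ∈ RS b T k0 s, b.repr f k = 0) (c : A) :
    ∀ s, ∀ k ∈ RS b T k0 s, b.repr (T c f) k = 0 := by
  intro s k' hk'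
  rw [repr_T]
  refine sum_eq_zero fun k _ => ?_
  by_cases h : b.repr (T c (b k)) k' = 0
  · rw [h, mul_zero]
  · rw [hf (s + 1) k (RS_step b T k0 hk' h), zero_mul]

end

end Pool.Agent.Work.MP_446a37_lc
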