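import Mathlib

/-!
A vanishing sum of `p` powers of a primitive `p`-th root of unity runs over all residues.
-/

namespace Pool.Agent.Work.MP_446a37_lc

open Finset Polynomial

variable {p : ℕ} [hp : Fact p.Prime]

theorem bij_of_sum (ζ : ℂ) (hζ : IsPrimitiveRoot ζ p) (g : ZMod p → ZMod p)
    (h : ∑ y, ζ ^ (g y).val = 0) : Function.Bijective g := by
  have hpos : 0 < p := hp.out.pos
  have : NeZero p := ⟨hpos.ne'⟩
  set P : ℚ[X] := ∑ y : ZMod p, X ^ (g y).val with hP
  have hroot : aeval ζ P = 0 := by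
    rw [hP, map_sum]
    simpa using h
  have hdvd : cyclotomic p ℚ ∣ P := by
    rw [cyclotomic_eq_minpoly_rat hζ hpos]
    exact minpoly.dvd ℚ ζ hroot
  obtain ⟨R, hR⟩ := hdvd
  have hev : P.eval 1 = p := by
    rw [hP, eval_finsetSum]
    simp [ZMod.card]
  have hP0 : P ≠ 0 := by
    intro h0
    rw [h0, eval_zero] at hev
    exact hpos.ne' (by exact_mod_cast hev.symm)
  have hR0 : R ≠ 0 := by
    rintro rfl
    rw [mul_zero] at hR
    exact hP0 hR
  have hdeg : P.natDegree ≤ p - 1 := by
    rw [hP]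
    apply natDegree_sum_le_of_forall_le
    intro y _
    rw [natDegree_X_pow]
    have := ZMod.val_lt (g y)
    omega
  have hRd : R.natDegree = 0 := by
    have h1 := natDegree_mul (cyclotomic_ne_zero p ℚ) hR0
    rw [← hR, natDegree_cyclotomic, Nat.totient_prime hp.out] at h1
    omega
  rw [natDegree_eq_zero] at hRd
  obtain ⟨c, rfl⟩ := hRd
  have hcoef : ∀ i < p, P.coeff i = c := by
    intro i hi
    rw [hR, coeff_mul_C, cyclotomic_prime, finsetSum_coeff]
    simp [coeff_X_pow, hi]
  have hc : c = 1 := by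
    have h1 : P.eval 1 = p * c := by
      rw [hR, eval_mul, eval_C, cyclotomic_prime, eval_finsetSum]
      simp
    rw [hev] at h1
    have h2 : (p : ℚ) ≠ 0 := by exact_mod_cast hpos.ne'
    have h3 : (p : ℚ) * (c - 1) = 0 := by linear_combination -h1
    rcases mul_eq_zero.1 h3 with h4 | h4
    · exact absurd h4 h2
    · linarith
  apply Finite.surjective_iff_bijective.1
  intro r
  by_contra hcon
  push Not at hcon
  have h1 := hcoef r.val (ZMod.val_lt r)
  rw [hc, hP, finsetSum_coeff, sum_eq_zero] at h1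
  · exact zero_ne_one h1
  · intro y _
    rw [coeff_X_pow, if_neg]
    intro h2
    exact hcon y (ZMod.val_injective p h2.symm)

end Pool.Agent.Work.MP_446a37_lc
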