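import Pool.Agent.Work.MP_446a37_lc.Redei
import Pool.Agent.Work.MP_446a37_lc.UnitySum
import Pool.Agent.Work.MP_446a37_lc.Cycle
import Pool.Agent.Work.MP_446a37_lc.Spec
import Pool.Agent.Work.MP_446a37_lc.Simple

/-!
Automata with a prime number of states and a transitive group of permutations.
-/

namespace Pool.Agent.Work.MP_446a37_lc

open Finset

/-- the additive character with frequency `a` -/
noncomputable def chr (p : ℕ) [NeZero p] (a x : ZMod p) : ℂ := ZMod.stdAddChar (a * x)

section chr

variable {p : ℕ} [hp : Fact p.Prime]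

theorem chr_add (a x y : ZMod p) : chr p a (x + y) = chr p a x * chr p a y := by
  rw [chr, mul_add, AddChar.map_add_eq_mul]
  rfl

theorem chr_sum (a : ZMod p) (ha : a ≠ 0) : ∑ x, chr p a x = 0 := by
  have h2 : (ZMod.stdAddChar (N := p)).mulShift a ≠ 1 := ZMod.isPrimitive_stdAddChar p ha
  exact AddChar.sum_eq_zero_of_ne_one h2

theorem chr_zero (x : ZMod p) : chr p 0 x = 1 := by
  rw [chr, zero_mul, AddChar.map_zero_eq_one]

theorem chr_at_zero (a : ZMod p) : chr p a 0 = 1 := by
  rw [chr, mul_zero, AddChar.map_zero_eq_one]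

theorem chr_mul (a b x : ZMod p) : chr p a x * chr p b x = chr p (a + b) x := by
  rw [chr, chr, chr, add_mul, AddChar.map_add_eq_mul]

theorem chr_inj (a b : ZMod p) (h : chr p a (-1) = chr p b (-1)) : a = b := by
  have h1 := ZMod.injective_stdAddChar h
  have h2 : -a = -b := by simpa using h1
  exact neg_injective h2

theorem chr_pow (x : ZMod p) : chr p 1 x = (chr p 1 1) ^ x.val := by
  rw [chr, chr, one_mul, one_mul, ← AddChar.map_nsmul_eq_pow, nsmul_one, ZMod.natCast_zmod_val]

theorem chr_prim : IsPrimitiveRoot (chr p 1 1) p := by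
  have h1 := Complex.isPrimitiveRoot_exp p hp.out.ne_zero
  have h2 : chr p 1 1 = Complex.exp (2 * Real.pi * Complex.I / p) := by
    have h3 := ZMod.stdAddChar_coe (N := p) 1
    rw [chr, one_mul]
    simpa using h3
  rw [h2]
  exact h1

/-- the characters form a basis of the functions on `Q`, for an enumeration `e` of `Q` -/
noncomputable def chrBasis {Q : Type} [Fintype Q] (e : Q ≃ ZMod p) :
    Module.Basis (ZMod p) ℂ (Q → ℂ) :=
  basisOfLinearIndependentOfCardEqFinrank (b := fun a : ZMod p => fun q : Q => chr p a (e q))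
    (by
      rw [Fintype.linearIndependent_iff]
      intro g hg a
      have h1 : ∑ q : Q, (∑ b, g b • fun q : Q => chr p b (e q)) q * chr p (-a) (e q) = 0 := by
        rw [hg]
        simp
      have h2 : ∑ q : Q, (∑ b, g b • fun q : Q => chr p b (e q)) q * chr p (-a) (e q) =
          ∑ b, g b * ∑ x : ZMod p, chr p (b - a) x := by
        have h3 : ∀ q : Q, (∑ b, g b • fun q : Q => chr p b (e q)) q * chr p (-a) (e q) =
            ∑ b, g b * chr p (b - a) (e q) := by
          intro q
          rw [Finset.sum_apply, sum_mul]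
          refine sum_congr rfl fun b _ => ?_
          rw [Pi.smul_apply, smul_eq_mul, mul_assoc, chr_mul, sub_eq_add_neg]
        rw [sum_congr rfl fun q _ => h3 q, sum_comm]
        refine sum_congr rfl fun b _ => ?_
        rw [← mul_sum]
        congr 1
        exact Equiv.sum_comp e (fun x => chr p (b - a) x)
      rw [h2, Finset.sum_eq_single a] at h1
      · rw [sub_self] at h1
        simp only [chr_zero, sum_const, card_univ, ZMod.card, nsmul_eq_mul, mul_one] at h1
        have h4 : (p : ℂ) ≠ 0 := by exact_mod_cast hp.out.ne_zero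
        exact (mul_eq_zero.1 h1).resolve_right h4
      · intro b _ hb
        rw [chr_sum _ (sub_ne_zero.2 hb), mul_zero]
      · simp)
    (by rw [ZMod.card, Module.finrank_fintype_fun_eq_card, Fintype.card_congr e, ZMod.card])

theorem chrBasis_apply {Q : Type} [Fintype Q] (e : Q ≃ ZMod p) (a : ZMod p) (q : Q) :
    chrBasis e a q = chr p a (e q) := by
  rw [chrBasis, coe_basisOfLinearIndependentOfCardEqFinrank]

theorem repr_inner {Q : Type} [Fintype Q] (e : Q ≃ ZMod p) (v : Q → ℂ) (a : ZMod p) :
    ∑ q, v q * chr p (-a) (e q) = p * (chrBasis e).repr v a := by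
  conv_lhs => rw [← (chrBasis e).sum_repr v]
  have h3 : ∀ q : Q, (∑ b, (chrBasis e).repr v b • chrBasis e b) q * chr p (-a) (e q) =
      ∑ b, (chrBasis e).repr v b * chr p (b - a) (e q) := by
    intro q
    rw [Finset.sum_apply, sum_mul]
    refine sum_congr rfl fun b _ => ?_
    rw [Pi.smul_apply, smul_eq_mul, chrBasis_apply, mul_assoc, chr_mul, sub_eq_add_neg]
  rw [sum_congr rfl fun q _ => h3 q, sum_comm, Finset.sum_eq_single a]
  · simp only [sub_self, chr_zero, mul_one, sum_const, card_univ, nsmul_eq_mul]
    rw [Fintype.card_congr e, ZMod.card]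
  · intro b _ hb
    rw [← mul_sum]
    have : ∑ q : Q, chr p (b - a) (e q) = 0 := by
      rw [← chr_sum (b - a) (sub_ne_zero.2 hb)]
      exact Equiv.sum_comp e (fun x => chr p (b - a) x)
    rw [this, mul_zero]
  · simp

end chr

section main

variable {Q A : Type} [Fintype Q] [DecidableEq Q]

theorem pushw_mem (δ : Q → A → Q) (W : Submodule ℂ (Q → ℂ))
    (hW : ∀ a, ∀ v ∈ W, push δ a v ∈ W) (u : List A) : ∀ v ∈ W, pushw δ u v ∈ W := by
  induction u with
  | nil => intro v hv; exact hv
  | cons c u ih => intro v hv; exact ih _ (hW c v hv)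

/-- a letter acts as a permutation or a constant -/
theorem letter_dichotomy (δ : Q → A → Q) {p : ℕ} [hp : Fact p.Prime] (h2 : 2 < p)
    (e : Q ≃ ZMod p) (w : List A) (he : ∀ q, e (act δ q w) = e q + 1)
    (W : Submodule ℂ (Q → ℂ)) (hW0 : ∀ v ∈ W, ∑ q, v q = 0)
    (hW : ∀ a, ∀ v ∈ W, push δ a v ∈ W) (hbot : W ≠ ⊥)
    (htop : ¬ ∀ v : Q → ℂ, ∑ q, v q = 0 → v ∈ W) (c : A) :
    (Function.Injective fun q => δ q c) ∨ ∀ q r, δ q c = δ r c := by
  classical
  set b := chrBasis e with hb
  set R : (Q → ℂ) →ₗ[ℂ] (Q → ℂ) := pushL (fun (q : Q) (_ : Unit) => act δ q w) () with hRdef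
  have hRapply : ∀ v : Q → ℂ, R v = pushw δ w v := by
    intro v
    ext q
    rw [pushw_apply]
    rfl
  have hinj : Function.Injective fun q => act δ q w := by
    intro x y hxy
    have h3 := congrArg e hxy
    simp only [he] at h3
    exact e.injective (add_right_cancel h3)
  have hR : ∀ a, R (b a) = chr p a (-1) • b a := by
    intro a
    rw [hRapply]
    ext q
    obtain ⟨r, hr⟩ := (Finite.injective_iff_surjective.1 hinj) q
    rw [pushw_apply, Finset.sum_eq_single r]
    · rw [if_pos hr, Pi.smul_apply, smul_eq_mul, hb, chrBasis_apply, chrBasis_apply, ← hr]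
      show chr p a (e r) = chr p a (-1) * chr p a (e (act δ r w))
      rw [he, ← chr_add]
      congr 1
      ring
    · intro s _ hs
      rw [if_neg]
      intro h3
      exact hs (hinj (h3.trans hr.symm))
    · simp
  have hRW : ∀ v ∈ W, R v ∈ W := fun v hv => by
    rw [hRapply]
    exact pushw_mem δ W hW w v hv
  have hcomp : ∀ v ∈ W, ∀ a, b.repr v a ≠ 0 → b a ∈ W := by
    intro v hv a ha
    set P : Polynomial ℂ := ∏ x ∈ univ.erase a, (Polynomial.X - Polynomial.C (chr p x (-1)))
      with hP
    have hRj : ∀ j : ℕ, (R ^ j) v ∈ W := by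
      intro j
      induction j with
      | zero => simpa using hv
      | succ j ih =>
        rw [pow_succ', Module.End.mul_apply]
        exact hRW _ ih
    have h3 : Polynomial.aeval R P v ∈ W := by
      rw [Polynomial.aeval_eq_sum_range, LinearMap.sum_apply]
      refine W.sum_mem fun j _ => ?_
      rw [LinearMap.smul_apply]
      exact W.smul_mem _ (hRj j)
    have h4 : Polynomial.aeval R P v = (P.eval (chr p a (-1)) * b.repr v a) • b a := by
      apply b.repr.injective
      ext x
      rw [repr_aeval (z := fun a => chr p a (-1)) hR, map_smul, Module.Basis.repr_self,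
        Finsupp.smul_single, smul_eq_mul, mul_one]
      by_cases hx : x = a
      · subst hx
        simp
      · rw [Finsupp.single_eq_of_ne hx, hP, Polynomial.eval_prod,
          prod_eq_zero (i := x) (by simp [hx]) (by simp), zero_mul]
    have h5 : P.eval (chr p a (-1)) ≠ 0 := by
      rw [hP, Polynomial.eval_prod]
      refine prod_ne_zero_iff.2 fun x hx => ?_
      rw [Polynomial.eval_sub, Polynomial.eval_X, Polynomial.eval_C]
      exact sub_ne_zero.2 fun h => ne_of_mem_erase hx (chr_inj _ _ h).symm
    rw [h4] at h3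
    have h6 := W.smul_mem (P.eval (chr p a (-1)) * b.repr v a)⁻¹ h3
    rwa [smul_smul, inv_mul_cancel₀ (mul_ne_zero h5 ha), one_smul] at h6
  have hp0 : (p : ℂ) ≠ 0 := by exact_mod_cast hp.out.ne_zero
  have hsum : ∀ v : Q → ℂ, ∑ q, v q = p * b.repr v 0 := by
    intro v
    rw [hb, ← repr_inner]
    refine sum_congr rfl fun q _ => ?_
    rw [neg_zero, chr_zero, mul_one]
  set X : Finset (ZMod p) := univ.filter fun a => b a ∈ W with hX
  have h0X : (0 : ZMod p) ∉ X := by
    intro h
    rw [hX, mem_filter] at h
    have h3 := hW0 _ h.2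
    rw [hsum, Module.Basis.repr_self, Finsupp.single_eq_same, mul_one] at h3
    exact hp0 h3
  obtain ⟨i0, hi0⟩ : ∃ i, i ∈ X := by
    obtain ⟨v, hv, hv0⟩ := Submodule.exists_mem_ne_zero_of_ne_bot hbot
    obtain ⟨a, ha⟩ : ∃ a, b.repr v a ≠ 0 := by
      by_contra hcon
      push Not at hcon
      exact hv0 (b.repr.map_eq_zero_iff.1 (Finsupp.ext hcon))
    exact ⟨a, by rw [hX, mem_filter]; exact ⟨mem_univ _, hcomp v hv a ha⟩⟩
  obtain ⟨j0, hj0, hj0X⟩ : ∃ j, j ≠ 0 ∧ j ∉ X := by
    by_contra hcon
    push Not at hcon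
    apply htop
    intro v hv
    rw [← b.sum_repr v]
    refine W.sum_mem fun a _ => ?_
    by_cases ha : a = 0
    · subst ha
      rw [hsum] at hv
      rw [(mul_eq_zero.1 hv).resolve_left hp0, zero_smul]
      exact W.zero_mem
    · have h3 := hcon a ha
      rw [hX, mem_filter] at h3
      exact W.smul_mem _ h3.2
  -- the letter as a function on residues
  set F : ZMod p → ZMod p := fun x => e (δ (e.symm x) c) with hF
  have hperm : ∀ i ∈ X, ∀ j, j ∉ X → Function.Bijective fun x => i * x - j * F x := by
    intro i hi j hj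
    apply bij_of_sum (chr p 1 1) chr_prim
    rw [hX, mem_filter] at hi
    have h3 : b.repr (push δ c (b i)) j = 0 := by
      by_contra hne
      apply hj
      rw [hX, mem_filter]
      exact ⟨mem_univ _, hcomp _ (hW c _ hi.2) j hne⟩
    have h4 := repr_inner e (push δ c (b i)) j
    rw [← hb, h3, mul_zero] at h4
    rw [← h4]
    have h5 : ∀ q, push δ c (b i) q * chr p (-j) (e q) =
        ∑ r, if δ r c = q then b i r * chr p (-j) (e (δ r c)) else 0 := by
      intro q
      rw [push, sum_mul]
      refine sum_congr rfl fun r _ => ?_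
      split_ifs with h
      · rw [h]
      · rw [zero_mul]
    rw [sum_congr rfl fun q _ => h5 q, sum_comm]
    have h6 : ∀ r, (∑ q, if δ r c = q then b i r * chr p (-j) (e (δ r c)) else 0) =
        chr p 1 (i * e r - j * e (δ r c)) := by
      intro r
      rw [Finset.sum_ite_eq]
      simp only [mem_univ, if_true]
      rw [hb, chrBasis_apply, chr, chr, chr, ← AddChar.map_add_eq_mul]
      congr 1
      ring
    rw [sum_congr rfl fun r _ => h6 r]
    have h7 := Equiv.sum_comp e.symm (fun r => chr p 1 (i * e r - j * e (δ r c)))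
    rw [← h7]
    refine sum_congr rfl fun x _ => ?_
    rw [← chr_pow]
    simp only [Equiv.apply_symm_apply, hF]
  have hpermt : ∀ i ∈ X, ∀ j, j ∉ X → j ≠ 0 → Function.Bijective fun x => F x - i / j * x := by
    intro i hi j hj hj1
    have h3 := hperm i hi j hj
    have h4 : (fun x => F x - i / j * x) = (fun y => -(1 / j) * y) ∘ fun x => i * x - j * F x := by
      ext x
      simp only [Function.comp]
      field_simp
      ring
    rw [h4]
    refine Function.Bijective.comp ?_ h3
    apply Finite.injective_iff_bijective.1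
    intro x y hxy
    have h5 : -(1 / j) ≠ 0 := by simp [hj1]
    exact mul_left_cancel₀ h5 hxy
  -- enough slopes
  obtain ⟨D, hD, hDp⟩ : ∃ D : Finset (ZMod p), (p - 1) / 2 ≤ D.card ∧
      ∀ t ∈ D, Function.Bijective fun y => F y - t * y := by
    set Y : Finset (ZMod p) := (univ.erase 0).filter fun a => a ∉ X with hY
    have hXY : X.card + Y.card = p - 1 := by
      have h3 : X = (univ.erase 0).filter fun a => a ∈ X := by
        ext a
        simp only [mem_filter, mem_erase, mem_univ, and_true]
        exact ⟨fun h => ⟨fun h0 => h0X (h0 ▸ h), h⟩, fun h => h.2⟩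
      have h4 : (univ.erase (0 : ZMod p)).card = p - 1 := by
        rw [card_erase_of_mem (mem_univ _), card_univ, ZMod.card]
      conv_lhs => rw [h3]
      rw [hY, card_filter_add_card_filter_not, h4]
    rcases Nat.le_total Y.card X.card with h3 | h3
    · refine ⟨X.image fun i => i / j0, ?_, ?_⟩
      · rw [card_image_of_injective]
        · omega
        · intro x y hxy
          have h4 : x / j0 = y / j0 := hxy
          rw [div_left_inj' hj0] at h4
          exact h4
      · intro t ht
        obtain ⟨i, hi, rfl⟩ := mem_image.1 ht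
        exact hpermt i hi j0 hj0X hj0
    · have hi1 : i0 ≠ 0 := fun h => h0X (h ▸ hi0)
      refine ⟨Y.image fun j => i0 / j, ?_, ?_⟩
      · rw [card_image_of_injOn]
        · omega
        · intro x hx y hy hxy
          have h4 : i0 / x = i0 / y := hxy
          have hx0 : x ≠ 0 := by
            have : x ∈ Y := hx
            rw [hY, mem_filter, mem_erase] at this
            exact this.1.1
          have hy0 : y ≠ 0 := by
            have : y ∈ Y := hy
            rw [hY, mem_filter, mem_erase] at this
            exact this.1.1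
          rw [div_eq_div_iff hx0 hy0] at h4
          exact (mul_left_cancel₀ hi1 h4).symm
      · intro t ht
        obtain ⟨j, hj, rfl⟩ := mem_image.1 ht
        rw [hY, mem_filter, mem_erase] at hj
        exact hpermt i0 hi0 j hj.2 hj.1.1
  obtain ⟨α, β, hαβ⟩ := affine h2 F D hD hDp
  have hFq : ∀ q, e (δ q c) = α * e q + β := by
    intro q
    rw [← hαβ, hF]
    simp
  by_cases hα : α = 0
  · right
    intro q r
    apply e.injective
    rw [hFq, hFq, hα]
    ring
  · left
    intro q r hqr
    have h3 := congrArg e hqr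
    simp only [hFq] at h3
    exact e.injective (mul_left_cancel₀ hα (add_right_cancel h3))

/-- two states -/
theorem two_states (h2 : Fintype.card Q = 2) (δ : Q → A → Q) : Irreducible δ := by
  intro W hW0 _
  by_cases hbot : W = ⊥
  · exact Or.inl hbot
  right
  obtain ⟨v, hv, hv0⟩ := Submodule.exists_mem_ne_zero_of_ne_bot hbot
  rw [← card_univ] at h2
  obtain ⟨x, y, hxy, huniv⟩ := Finset.card_eq_two.1 h2
  have hun : ∀ q : Q, q = x ∨ q = y := by
    intro q
    have := mem_univ q
    rw [huniv] at this
    simpa using this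
  have hsum : ∀ u : Q → ℂ, ∑ q, u q = u x + u y := by
    intro u
    rw [huniv, sum_pair hxy]
  intro u hu
  have h3 := hW0 v hv
  rw [hsum] at h3 hu
  have h4 : v x ≠ 0 := by
    intro h
    apply hv0
    ext q
    rcases hun q with rfl | rfl
    · exact h
    · rw [h, zero_add] at h3
      exact h3
  have h5 : u = (u x / v x) • v := by
    ext q
    rcases hun q with rfl | rfl
    · rw [Pi.smul_apply, smul_eq_mul, div_mul_cancel₀ _ h4]
    · rw [Pi.smul_apply, smul_eq_mul]
      field_simp
      linear_combination v x * hu - u x * h3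
  rw [h5]
  exact W.smul_mem _ hv

theorem prime_main (δ : Q → A → Q) (hp : (Fintype.card Q).Prime)
    (htr : ∀ x y : Q, ∃ u : List A, (Function.Injective fun q => act δ q u) ∧ act δ x u = y)
    (hsync : ∃ u : List A, IsReset δ u)
    (hth : Fintype.card Q = 2 ∨ ∀ c : A, ¬ IsReset δ [c]) : Irreducible δ := by
  rcases eq_or_ne (Fintype.card Q) 2 with h2 | h2
  · exact two_states h2 δ
  have hth' : ∀ c : A, ¬ IsReset δ [c] := hth.resolve_left h2
  have h3 : 2 < Fintype.card Q := lt_of_le_of_ne hp.two_le h2.symm
  obtain ⟨w, hw⟩ := exists_cycle_word δ hp htr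
  obtain ⟨q0⟩ : Nonempty Q := Fintype.card_pos_iff.1 hp.pos
  obtain ⟨m, hm0, e, hmc, he⟩ := exists_equiv (fun (q : Q) (_ : Unit) => act δ q w) () q0 (by
    intro x y
    obtain ⟨k, hk⟩ := hw x y
    exact ⟨k, by rw [act_replicate]; exact hk⟩)
  have hmp : Fact m.Prime := ⟨by rw [hmc]; exact hp⟩
  have h3' : 2 < m := by omega
  intro W hW0 hW
  by_contra hcon
  push Not at hcon
  obtain ⟨hbot, htop⟩ := hcon
  have hdich := letter_dichotomy δ h3' e w he W hW0 hW hbot (by push Not; exact htop)
  have hinj : ∀ c, Function.Injective fun q => δ q c := by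
    intro c
    rcases hdich c with h | h
    · exact h
    · exact absurd (fun q r => h q r) (hth' c)
  have hword : ∀ u : List A, Function.Injective fun q => act δ q u := by
    intro u
    induction u with
    | nil => intro q r h; exact h
    | cons c u ih => intro q r h; exact hinj c (ih h)
  obtain ⟨u, hu⟩ := hsync
  obtain ⟨x, y, hxy⟩ := Fintype.one_lt_card_iff.1 (by omega : 1 < Fintype.card Q)
  exact hxy (hword u (hu x y))

end main

end Pool.Agent.Work.MP_446a37_lc
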