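import Pool.Agent.Work.MP_446a37_lc.Aut

/-!
Arcs of the cycle `ZMod n`, and preimages of arcs under maps with a monotone lift.
-/

namespace Pool.Agent.Work.MP_446a37_lc

open Finset

variable {n : ℕ} [NeZero n]

/-- the arc `a, a + 1, ..., a + k - 1` -/
def arc (a : ZMod n) (k : ℕ) : Finset (ZMod n) := (range k).image fun i : ℕ => a + (i : ZMod n)

theorem mem_arc' {a x : ZMod n} {k : ℕ} : x ∈ arc a k ↔ ∃ i < k, x = a + (i : ZMod n) := by
  simp only [arc, mem_image, mem_range]
  exact ⟨fun ⟨i, hi, h⟩ => ⟨i, hi, h.symm⟩, fun ⟨i, hi, h⟩ => ⟨i, hi, h.symm⟩⟩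

theorem mem_arc {a x : ZMod n} {k : ℕ} : x ∈ arc a k ↔ (x - a).val < k ∨ n ≤ k := by
  rw [mem_arc']
  constructor
  · rintro ⟨i, hi, rfl⟩
    by_cases h : n ≤ k
    · exact Or.inr h
    · left
      rw [add_sub_cancel_left, ZMod.val_natCast, Nat.mod_eq_of_lt (by omega)]
      exact hi
  · rintro (h | h)
    · exact ⟨(x - a).val, h, by rw [ZMod.natCast_zmod_val]; ring⟩
    · exact ⟨(x - a).val, lt_of_lt_of_le (ZMod.val_lt _) h, by rw [ZMod.natCast_zmod_val]; ring⟩

theorem card_arc (a : ZMod n) {k : ℕ} (hk : k ≤ n) : (arc a k).card = k := by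
  rw [arc, card_image_of_injOn, card_range]
  intro i hi j hj hij
  have h1 : (i : ZMod n) = j := add_left_cancel hij
  simp only [coe_range, Set.mem_Iio] at hi hj
  have h2 := congrArg ZMod.val h1
  rwa [ZMod.val_natCast, ZMod.val_natCast, Nat.mod_eq_of_lt (by omega),
    Nat.mod_eq_of_lt (by omega)] at h2

theorem arc_inj {a b : ZMod n} {k l : ℕ} (hk : 1 ≤ k) (hk' : k < n) (hl' : l < n)
    (h : arc a k = arc b l) : a = b ∧ k = l := by
  have hkl : k = l := by
    rw [← card_arc a hk'.le, ← card_arc b hl'.le, h]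
  subst hkl
  refine ⟨?_, rfl⟩
  by_contra hne
  have h1 : a ∈ arc b k := by
    rw [← h, mem_arc, sub_self, ZMod.val_zero]
    left; omega
  rw [mem_arc] at h1
  have h1' : (a - b).val < k := h1.resolve_right (by omega)
  have hv : (a - b).val ≠ 0 := by
    rw [Ne, ZMod.val_eq_zero]
    exact sub_ne_zero.2 hne
  have h2 : a - 1 ∈ arc b k := by
    rw [mem_arc']
    refine ⟨(a - b).val - 1, by omega, ?_⟩
    rw [Nat.cast_sub (by omega), ZMod.natCast_zmod_val]
    push_cast
    ring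
  rw [← h, mem_arc] at h2
  have h3 : (a - 1 - a).val < k := h2.resolve_right (by omega)
  have h4 : (a - 1 - a : ZMod n) = ((n - 1 : ℕ) : ZMod n) := by
    have : 1 ≤ n := by omega
    rw [Nat.cast_sub this]
    simp
  rw [h4, ZMod.val_natCast, Nat.mod_eq_of_lt (by omega)] at h3
  omega

theorem arc_univ (a : ZMod n) : arc a n = univ := by
  rw [eq_univ_iff_forall]
  intro x
  rw [mem_arc]
  exact Or.inr le_rfl

theorem arc_subset (a : ZMod n) {k l : ℕ} (h : k ≤ l) : arc a k ⊆ arc a l := by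
  intro x hx
  rw [mem_arc'] at hx ⊢
  obtain ⟨i, hi, hx⟩ := hx
  exact ⟨i, by omega, hx⟩

theorem arc_subset_succ (a : ZMod n) (k : ℕ) : arc (a + 1) k ⊆ arc a (k + 1) := by
  intro x hx
  rw [mem_arc'] at hx ⊢
  obtain ⟨i, hi, hx⟩ := hx
  exact ⟨i + 1, by omega, by rw [hx]; push_cast; ring⟩

theorem mem_arc_int {α : ℤ} {x : ZMod n} {k : ℕ} :
    x ∈ arc (α : ZMod n) k ↔ ∃ z : ℤ, (z : ZMod n) = x ∧ α ≤ z ∧ z < α + k := by
  rw [mem_arc']
  constructor
  · rintro ⟨i, hi, rfl⟩
    exact ⟨α + i, by push_cast; rfl, by omega, by omega⟩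
  · rintro ⟨z, rfl, h1, h2⟩
    refine ⟨(z - α).toNat, by omega, ?_⟩
    have h3 : (((z - α).toNat : ℕ) : ZMod n) = ((z - α : ℤ) : ZMod n) := by
      rw [← Int.cast_natCast, Int.toNat_of_nonneg (by omega)]
    rw [h3]
    push_cast
    ring

/-- `g` is a nondecreasing map of the integers that commutes with the translation by `n` and
induces `f` -/
structure IsLift (n : ℕ) (g : ℤ → ℤ) (f : ZMod n → ZMod n) : Prop where
  mono : Monotone g
  per : ∀ x, g (x + n) = g x + n
  ind : ∀ x : ℤ, f x = g x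

theorem IsLift.per_mul {n : ℕ} {g : ℤ → ℤ} {f : ZMod n → ZMod n} (h : IsLift n g f) (x j : ℤ) :
    g (x + j * n) = g x + j * n := by
  have hnat : ∀ (j : ℕ) (x : ℤ), g (x + j * n) = g x + j * n := by
    intro j
    induction j with
    | zero => intro x; simp
    | succ j ih =>
      intro x
      have e : x + ((j + 1 : ℕ) : ℤ) * n = (x + j * n) + n := by push_cast; ring
      rw [e, h.per, ih]
      push_cast
      ring
  rcases Int.eq_nat_or_neg j with ⟨m, rfl | rfl⟩
  · exact hnat m x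
  · have := hnat m (x + -(m : ℤ) * n)
    have e : x + -(m : ℤ) * n + m * n = x := by ring
    rw [e] at this
    linarith

theorem preimage_arc {g : ℤ → ℤ} {f : ZMod n → ZMod n} (h : IsLift n g f) (a : ZMod n) {k : ℕ}
    (hk : k ≤ n) : ∃ (b : ZMod n) (l : ℕ), l ≤ n ∧ (univ.filter fun x => f x ∈ arc a k) = arc b l := by
  have hn : 0 < n := Nat.pos_of_ne_zero (NeZero.ne n)
  obtain ⟨α, rfl⟩ : ∃ α : ℤ, (α : ZMod n) = a := ⟨a.val, by
    rw [Int.cast_natCast, ZMod.natCast_zmod_val]⟩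
  -- least x with g x ≥ β
  have hleast : ∀ β : ℤ, ∃ x : ℤ, β ≤ g x ∧ ∀ y, β ≤ g y → x ≤ y := by
    intro β
    apply Int.exists_least_of_bdd
    · -- bounded below
      refine ⟨(β - g 0 - n) , fun y hy => ?_⟩
      by_contra hlt
      push Not at hlt
      -- y < β - g 0 - n
      have h1 : g y ≤ g (0 + (y / n + 1) * n) := by
        apply h.mono
        have := Int.lt_ediv_add_one_mul_self y (by exact_mod_cast hn : (0 : ℤ) < n)
        rw [zero_add]
        exact this.le
      rw [h.per_mul] at h1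
      have h2 : (y / n) * n ≤ y := Int.ediv_mul_le y (by exact_mod_cast hn.ne')
      have h3 : (y / n + 1) * n = (y / n) * n + n := by ring
      rw [h3] at h1
      linarith
    · refine ⟨0 + (β - g 0).toNat * n, ?_⟩
      rw [h.per_mul]
      have h1 : (β - g 0) ≤ ((β - g 0).toNat : ℤ) := Int.self_le_toNat _
      have h2 : ((β - g 0).toNat : ℤ) ≤ (β - g 0).toNat * n := by
        have : (1 : ℤ) ≤ n := by exact_mod_cast hn
        nlinarith [Int.natCast_nonneg (β - g 0).toNat]
      linarith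
  obtain ⟨x1, h1, h1'⟩ := hleast α
  obtain ⟨x2, h2, h2'⟩ := hleast (α + k)
  have h12 : x1 ≤ x2 := h1' x2 (by linarith [Int.natCast_nonneg k])
  have h21 : x2 ≤ x1 + n := by
    apply h2'
    rw [h.per]
    have : (k : ℤ) ≤ n := by exact_mod_cast hk
    linarith
  refine ⟨(x1 : ZMod n), (x2 - x1).toNat, by omega, ?_⟩
  ext x
  simp only [mem_filter, mem_univ, true_and]
  rw [mem_arc_int, mem_arc_int]
  obtain ⟨t, rfl⟩ : ∃ t : ℤ, (t : ZMod n) = x := ⟨x.val, by
    rw [Int.cast_natCast, ZMod.natCast_zmod_val]⟩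
  rw [h.ind]
  constructor
  · rintro ⟨z, hz, hz1, hz2⟩
    rw [ZMod.intCast_eq_intCast_iff_dvd_sub] at hz
    obtain ⟨j, hj⟩ := hz
    -- g t - z = n * j
    have e : z = g (t + (-j) * n) := by
      rw [h.per_mul]; linarith
    refine ⟨t + (-j) * n, by push_cast; simp, ?_, ?_⟩
    · exact h1' _ (by rw [← e]; exact hz1)
    · have h3 : t + (-j) * n < x2 := by
        by_contra hcon
        push Not at hcon
        have h4 := h.mono hcon
        rw [← e] at h4
        linarith
      omega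
  · rintro ⟨z, hz, hz1, hz2⟩
    refine ⟨g z, ?_, h1.trans (h.mono hz1), ?_⟩
    · rw [← h.ind, ← h.ind, hz]
    · by_contra hcon
      push Not at hcon
      have := h2' z hcon
      omega

end Pool.Agent.Work.MP_446a37_lc
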