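import Pool.Agent.Work.MP_446a37_lc.Aut
import Pool.Agent.Work.MP_446a37_lc.Spec

/-!
The extension lemma for circular automata: every nonempty proper set of states has a larger
preimage under a word of length at most `n`.
-/

namespace Pool.Agent.Work.MP_446a37_lc

open Finset Classical ComplexOrder

variable {Q A : Type} [Fintype Q]

/-- composition with a letter -/
noncomputable def TT (δ : Q → A → Q) (c : A) : (Q → ℂ) →ₗ[ℂ] (Q → ℂ) :=
  LinearMap.funLeft ℂ ℂ (fun q => δ q c)

/-- the sum of the coordinates -/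
noncomputable def sg (Q : Type) [Fintype Q] : (Q → ℂ) →ₗ[ℂ] ℂ :=
  ∑ q : Q, LinearMap.proj q

theorem sg_apply (f : Q → ℂ) : sg Q f = ∑ q, f q := by
  simp [sg]

theorem TT_apply (δ : Q → A → Q) (c : A) (f : Q → ℂ) (q : Q) : TT δ c f q = f (δ q c) := rfl

theorem TT_pow (δ : Q → A → Q) (c : A) (j : ℕ) (f : Q → ℂ) (q : Q) :
    ((TT δ c) ^ j) f q = f (act δ q (List.replicate j c)) := by
  induction j generalizing q with
  | zero => rfl
  | succ j ih =>
    rw [pow_succ', Module.End.mul_apply, TT_apply, ih, List.replicate_succ, act_cons]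

theorem sign (δ : Q → A → Q) (a : A) (L : List A) : ∀ (m : ℕ) (f : Q → ℂ),
    (∀ v : List A, v.length ≤ L.length + m → sg Q (fun q => f (act δ q v)) ≤ 0) →
    Bs (TT δ a) (TT δ) (sg Q) L m f ≤ 0 ∧
      (Bs (TT δ a) (TT δ) (sg Q) L m f = 0 → f ∈ Zm (TT δ a) (TT δ) (sg Q) L m) := by
  induction L with
  | nil =>
    intro m f h
    exact ⟨h [] (by simp), fun h0 => h0⟩
  | cons c L ih =>
    intro m f h
    have h1 : ∀ j ≤ m, ∀ v : List A, v.length ≤ L.length + (m - j) →
        sg Q (fun q => (TT δ c (((TT δ a) ^ j) f)) (act δ q v)) ≤ 0 := by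
      intro j hj v hv
      have h2 := h (v ++ c :: List.replicate j a) (by simp; omega)
      have h3 : (fun q => (TT δ c (((TT δ a) ^ j) f)) (act δ q v)) =
          fun q => f (act δ q (v ++ c :: List.replicate j a)) := by
        ext q
        rw [TT_apply, TT_pow, act_append, act_cons]
      rw [h3]
      exact h2
    have e : Bs (TT δ a) (TT δ) (sg Q) (c :: L) m f =
        ∑ j ∈ range (m + 1), Bs (TT δ a) (TT δ) (sg Q) L (m - j) (TT δ c (((TT δ a) ^ j) f)) := by
      rw [Bs, LinearMap.sum_apply]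
      rfl
    rw [e]
    have h4 : ∀ j ∈ range (m + 1),
        Bs (TT δ a) (TT δ) (sg Q) L (m - j) (TT δ c (((TT δ a) ^ j) f)) ≤ 0 := by
      intro j hj
      rw [mem_range] at hj
      exact (ih (m - j) _ (h1 j (by omega))).1
    refine ⟨sum_nonpos h4, fun h0 => ?_⟩
    rw [mem_Zm_cons]
    intro j hj
    refine (ih (m - j) _ (h1 j hj)).2 ?_
    exact (sum_eq_zero_iff_of_nonpos h4).1 h0 j (mem_range.2 (by omega))

/-- **Extension lemma** (Dubuc). -/
theorem extension (δ : Q → A → Q) (a : A)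
    (ha : ∀ q q', ∃ k, act δ q (List.replicate k a) = q') (hsync : ∃ w, IsReset δ w)
    (S : Finset Q) (hS : S.Nonempty) (hS' : S ≠ univ) :
    ∃ u : List A, u.length ≤ Fintype.card Q ∧ S.card < (pre δ S u).card := by
  by_contra hcon
  push Not at hcon
  obtain ⟨q0, hq0⟩ := hS
  obtain ⟨m, hm0, e, hmc, he⟩ := exists_equiv δ a q0 ha
  have hn0 : (Fintype.card Q : ℂ) ≠ 0 := by
    have : Nonempty Q := ⟨q0⟩
    exact_mod_cast Fintype.card_ne_zero
  set b : Module.Basis (AddChar (ZMod m) ℂ) ℂ (Q → ℂ) :=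
    (AddChar.complexBasis (ZMod m)).map (LinearEquiv.funCongrLeft ℂ ℂ e) with hb
  have hba : ∀ ψ q, b ψ q = ψ (e q) := by
    intro ψ q
    rw [hb, Module.Basis.map_apply, AddChar.complexBasis_apply]
    rfl
  set z : AddChar (ZMod m) ℂ → ℂ := fun ψ => ψ 1 with hz
  have hR : ∀ ψ, TT δ a (b ψ) = z ψ • b ψ := by
    intro ψ
    ext q
    rw [TT_apply, Pi.smul_apply, hba, hba, he, AddChar.map_add_eq_mul, smul_eq_mul, mul_comm]
  have hsg : ∀ ψ, sg Q (b ψ) = ∑ x, ψ x := by
    intro ψ
    rw [sg_apply]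
    exact Fintype.sum_equiv e _ _ fun q => hba ψ q
  have hσ : ∀ ψ, ψ ≠ 0 → sg Q (b ψ) = 0 := by
    intro ψ hψ
    rw [hsg]
    exact AddChar.sum_eq_zero_iff_ne_zero.2 hψ
  have hσ0 : sg Q (b 0) ≠ 0 := by
    rw [hsg]
    exact AddChar.sum_ne_zero_iff_eq_zero.2 rfl
  have hz0 : z 0 = 1 := rfl
  have hpw : ∀ (ψ : AddChar (ZMod m) ℂ) (k : ℕ), ψ (k : ZMod m) = (ψ 1) ^ k := by
    intro ψ k
    rw [← AddChar.map_nsmul_eq_pow, nsmul_one]
  have hzi : Function.Injective z := by
    intro ψ χ h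
    ext x
    rw [← ZMod.natCast_zmod_val x, hpw, hpw]
    exact congrArg (· ^ x.val) h
  have hcard : Fintype.card (AddChar (ZMod m) ℂ) = Fintype.card Q := by
    rw [AddChar.card_eq, ZMod.card, hmc]
  have hzn : ∀ ψ, z ψ ^ Fintype.card (AddChar (ZMod m) ℂ) = 1 := by
    intro ψ
    rw [hcard, ← hmc, hz]
    show ψ 1 ^ m = 1
    rw [← hpw, ZMod.natCast_self, AddChar.map_zero_eq_one]
  set f : Q → ℂ := fun q => (if q ∈ S then 1 else 0) - (S.card : ℂ) / Fintype.card Q with hf
  have hfs : ∀ v : List A, sg Q (fun q => f (act δ q v)) = ((pre δ S v).card : ℂ) - S.card := by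
    intro v
    rw [sg_apply, hf, sum_sub_distrib, sum_const, card_univ, nsmul_eq_mul,
      mul_div_cancel₀ _ hn0]
    congr 1
    rw [pre, card_filter]
    push_cast
    rfl
  have hf0 : sg Q f = 0 := by
    have h1 := hfs []
    have h2 : pre δ S [] = S := by ext q; simp [pre, act_nil]
    rw [h2, sub_self] at h1
    exact h1
  have hle : ∀ v : List A, v.length ≤ Fintype.card Q → sg Q (fun q => f (act δ q v)) ≤ 0 := by
    intro v hv
    rw [hfs]
    have h1 := hcon v hv
    have h2 : ((pre δ S v).card : ℂ) ≤ (S.card : ℂ) := by exact_mod_cast h1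
    exact sub_nonpos.2 h2
  have hmain := main_abs (T := TT δ) hR hσ hσ0 hz0 hzi hzn f hf0 (by
    intro L hL h0
    refine (sign δ a L _ f ?_).2 h0
    intro v hv
    exact hle v (by omega))
  have hwords : ∀ (w : List A) (g : Q → ℂ),
      (∀ s, ∀ k ∈ RS b (TT δ) 0 s, b.repr g k = 0) →
      (∀ s, ∀ k ∈ RS b (TT δ) 0 s, b.repr (fun q => g (act δ q w)) k = 0) := by
    intro w
    induction w with
    | nil => intro g hg; exact hg
    | cons c w ih =>
      intro g hg
      exact closed (b := b) (T := TT δ) (k0 := 0) (fun q => g (act δ q w)) (ih g hg) c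
  obtain ⟨w, hw⟩ := hsync
  have h1 := hwords w f hmain 0 0 (by simp [RS])
  have h2 : sg Q (fun q => f (act δ q w)) = 0 := by
    rw [← b.sum_repr (fun q => f (act δ q w)), map_sum, Finset.sum_eq_single 0]
    · rw [h1, zero_smul, map_zero]
    · intro ψ _ hψ
      rw [map_smul, hσ ψ hψ, smul_zero]
    · simp
  rw [hfs] at h2
  have h3 : (pre δ S w).card = S.card := by
    have := sub_eq_zero.1 h2
    exact_mod_cast this
  by_cases hin : act δ q0 w ∈ S
  · have h4 : pre δ S w = univ := by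
      ext q
      simp only [pre, mem_filter, mem_univ, true_and, iff_true]
      rw [hw q q0]
      exact hin
    rw [h4, card_univ] at h3
    exact hS' ((card_eq_iff_eq_univ S).1 h3.symm)
  · have h4 : pre δ S w = ∅ := by
      ext q
      simp only [pre, mem_filter, mem_univ, true_and, notMem_empty, iff_false]
      rw [hw q q0]
      exact hin
    rw [h4, card_empty] at h3
    exact (card_pos.2 ⟨q0, hq0⟩).ne h3

end Pool.Agent.Work.MP_446a37_lc
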