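import Mathlib

/-!
Complete homogeneous symmetric polynomials evaluated on a list, and their vanishing on distinct
`n`-th roots of unity.
-/

namespace Pool.Agent.Work.MP_446a37_lc

/-- `hs l m`: the complete homogeneous symmetric polynomial of degree `m` at the entries of `l`. -/
noncomputable def hs : List ℂ → ℕ → ℂ
  | [], m => if m = 0 then 1 else 0
  | x :: l, m => ∑ j ∈ Finset.range (m + 1), x ^ j * hs l (m - j)

theorem hs_cons (x : ℂ) (l : List ℂ) (m : ℕ) :
    hs (x :: l) m = ∑ j ∈ Finset.range (m + 1), x ^ j * hs l (m - j) := rfl

theorem hs_succ (x : ℂ) (l : List ℂ) (m : ℕ) :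
    hs (x :: l) (m + 1) = x * hs (x :: l) m + hs l (m + 1) := by
  rw [hs_cons, Finset.sum_range_succ', hs_cons, Finset.mul_sum]
  congr 1
  · refine Finset.sum_congr rfl fun j _ => ?_
    rw [pow_succ', mul_assoc, Nat.add_sub_add_right]
  · simp

theorem hs_zero (l : List ℂ) : hs l 0 = 1 := by
  induction l with
  | nil => simp [hs]
  | cons x l ih => rw [hs_cons]; simp [ih]

theorem hs_sub (x y : ℂ) (l : List ℂ) (m : ℕ) :
    (x - y) * hs (x :: y :: l) m = hs (x :: l) (m + 1) - hs (y :: l) (m + 1) := by
  induction m with
  | zero =>
    rw [hs_succ, hs_succ, hs_zero, hs_zero, hs_zero]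
    ring
  | succ m ih =>
    rw [hs_succ x (y :: l) m, hs_succ x l (m + 1), hs_succ y l (m + 1)]
    linear_combination x * ih

theorem hs_single (x : ℂ) (m : ℕ) : hs [x] m = x ^ m := by
  induction m with
  | zero => simp [hs_zero]
  | succ m ih => rw [hs_succ, ih]; simp [hs, pow_succ']

theorem hs_roots {n : ℕ} (P : List ℂ) (hnd : P.Nodup) (hr : ∀ x ∈ P, x ^ n = 1)
    (h2 : 2 ≤ P.length) (hn : P.length ≤ n) : hs P (n + 1 - P.length) = 0 := by
  induction hN : P.length generalizing P with
  | zero => omega
  | succ N ih =>
    match P, hN with
    | [], h => simp at h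
    | [x], h => simp at h2
    | x :: y :: l, h =>
      have hxy : x ≠ y := by
        intro h
        subst h
        simp at hnd
      have h1 := hs_sub x y l (n + 1 - (N + 1))
      have hlen : l.length + 1 = N := by simpa using h
      simp only [List.length_cons] at hn
      rw [show n + 1 - (N + 1) + 1 = n + 1 - N by omega] at h1
      have h3 : hs (x :: l) (n + 1 - N) = hs (y :: l) (n + 1 - N) := by
        rcases l with _ | ⟨w, l⟩
        · have : N = 1 := by simpa using hlen.symm
          subst this
          rw [hs_single, hs_single, Nat.add_sub_cancel, hr x (by simp), hr y (by simp)]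
        · have hx := ih (x :: w :: l) (by
              simp only [List.nodup_cons, List.mem_cons, not_or] at hnd ⊢
              tauto) (fun u hu => hr u (by
                simp only [List.mem_cons] at hu ⊢; tauto)) (by simp) (by simp at hn ⊢; omega)
              (by simpa using hlen)
          have hy := ih (y :: w :: l) (by
              simp only [List.nodup_cons, List.mem_cons, not_or] at hnd ⊢
              tauto) (fun u hu => hr u (by
                simp only [List.mem_cons] at hu ⊢; tauto)) (by simp) (by simp at hn ⊢; omega)
              (by simpa using hlen)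
          rw [hx, hy]
      rw [h3, sub_self] at h1
      rcases mul_eq_zero.1 h1 with h4 | h4
      · exact absurd (sub_eq_zero.1 h4) hxy
      · exact h4

end Pool.Agent.Work.MP_446a37_lc
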