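import Pool.Agent.Work.MP_446a37_lc.Arc

/-!
Extremal orientable automata: the preimages of a state along a shortest reset word run through all
arcs of size at least two exactly once.
-/

namespace Pool.Agent.Work.MP_446a37_lc

open Finset

variable {n : ℕ} [NeZero n] {A : Type}

/-- the data extracted from a shortest reset word -/
structure Levels (n : ℕ) [NeZero n] {A : Type} (δ : ZMod n → A → ZMod n)
    (I : ℕ → Finset (ZMod n)) (M : ℕ) : Prop where
  step : ∀ j, j < M → ∃ c, I (j + 1) = pre δ (I j) [c]
  isArc : ∀ j, 1 ≤ j → j < M → ∃ a k, 2 ≤ k ∧ k < n ∧ I j = arc a k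
  surj : ∀ a k, 2 ≤ k → k < n → ∃ j, 1 ≤ j ∧ j < M ∧ I j = arc a k
  next : ∀ i j c, j ≤ M → pre δ (I i) [c] = I j → j ≤ i + 1
  mono : ∀ i j, i ≤ M → I i ⊆ I j → i ≤ j
  single : ∀ q c j, j ≤ M → pre δ {q} [c] = I j → j ≤ 1
  last : ∀ j c, pre δ (I j) [c] = univ → M ≤ j + 1
  top : I M = univ
  one : 1 < M

theorem Levels.inj {δ : ZMod n → A → ZMod n} {I : ℕ → Finset (ZMod n)} {M : ℕ}
    (L : Levels n δ I M) {i j : ℕ} (hi : i ≤ M) (hj : j ≤ M) (h : I i = I j) : i = j :=
  le_antisymm (L.mono i j hi h.subset) (L.mono j i hj h.symm.subset)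

theorem pre_univ {Q A : Type} [Fintype Q] [DecidableEq Q] (δ : Q → A → Q) (S : Finset Q)
    (u : List A) : pre δ S u = univ ↔ ∀ q, act δ q u ∈ S := by
  rw [eq_univ_iff_forall]
  simp [pre]

theorem pre_single {Q A : Type} [Fintype Q] [DecidableEq Q] (δ : Q → A → Q) (S : Finset Q)
    (c : A) : pre δ S [c] = univ.filter fun q => δ q c ∈ S := by
  ext q
  simp [pre, act_cons, act_nil]

theorem exists_levels (hn : 3 ≤ n) (δ : ZMod n → A → ZMod n) (hx : Extremal δ)
    (hl : ∀ c, ∃ g, IsLift n g fun x => δ x c) :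
    ∃ I, Levels n δ I ((n - 1) ^ 2) := by
  set M := (n - 1) ^ 2 with hM
  have hcard : Fintype.card (ZMod n) = n := ZMod.card n
  obtain ⟨⟨w, hw, hwl⟩, hmin⟩ := hx
  rw [hcard] at hwl hmin
  have hM0 : 1 < M := by
    obtain ⟨k, hk⟩ : ∃ k, n = k + 3 := ⟨n - 3, by omega⟩
    rw [hM, hk, show k + 3 - 1 = k + 2 by omega]
    nlinarith
  set q0 := act δ 0 w with hq0
  have hq : ∀ x, act δ x w = q0 := fun x => hw x 0
  set I : ℕ → Finset (ZMod n) := fun j => pre δ {q0} (w.drop (M - j)) with hI
  have hdl : ∀ j, j ≤ M → (w.drop (M - j)).length = j := by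
    intro j hj
    rw [List.length_drop, hwl]
    omega
  have htl : ∀ j, (w.take (M - j)).length = M - j := by
    intro j
    rw [List.length_take, hwl]
    omega
  have htake : ∀ j, pre δ (I j) (w.take (M - j)) = univ := by
    intro j
    rw [hI]
    simp only
    rw [← pre_append, List.take_append_drop, pre_univ]
    intro x
    rw [hq]
    exact mem_singleton_self _
  have hreset : ∀ (q : ZMod n) (u : List A), pre δ {q} u = univ → M ≤ u.length := by
    intro q u hu
    rw [pre_univ] at hu
    apply hmin u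
    intro x y
    have h1 := hu x
    have h2 := hu y
    rw [mem_singleton] at h1 h2
    rw [h1, h2]
  have hlow : ∀ j ≤ M, ∀ u, pre δ (I j) u = univ → M ≤ u.length + j := by
    intro j hj u hu
    rw [hI] at hu
    simp only at hu
    rw [← pre_append] at hu
    have h1 := hreset q0 _ hu
    rw [List.length_append, hdl j hj] at h1
    exact h1
  -- for j > M the set is the same as for M
  have hbig : ∀ j, M ≤ j → I j = univ := by
    intro j hj
    rw [hI]
    simp only
    rw [Nat.sub_eq_zero_of_le hj, List.drop_zero, pre_univ]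
    intro x
    rw [hq]
    exact mem_singleton_self _
  have hstep : ∀ j, j < M → ∃ c, I (j + 1) = pre δ (I j) [c] := by
    intro j hj
    have h1 : M - (j + 1) < w.length := by rw [hwl]; omega
    refine ⟨w[M - (j + 1)], ?_⟩
    rw [hI]
    simp only
    rw [← pre_append]
    have h2 := List.drop_eq_getElem_cons h1
    rw [h2, List.singleton_append]
    congr 2
    congr 1
    omega
  have harc0 : ∀ j, j ≤ M → ∃ a k, k ≤ n ∧ I j = arc a k := by
    intro j
    induction j with
    | zero =>
      intro _
      refine ⟨q0, 1, by omega, ?_⟩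
      rw [hI]
      simp only
      rw [Nat.sub_zero, List.drop_of_length_le (by rw [hwl])]
      ext x
      simp [pre, act_nil, mem_arc']
    | succ j ih =>
      intro hj
      obtain ⟨a, k, hk, hak⟩ := ih (by omega)
      obtain ⟨c, hc⟩ := hstep j (by omega)
      obtain ⟨g, hg⟩ := hl c
      obtain ⟨b, l, hl1, hl2⟩ := preimage_arc hg a hk
      refine ⟨b, l, hl1, ?_⟩
      rw [hc, hak, pre_single, hl2]
  have hmono : ∀ i j, i ≤ M → I i ⊆ I j → i ≤ j := by
    intro i j hi hij
    by_cases hj : M ≤ j
    · omega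
    have h1 : pre δ (I j) (w.take (M - i)) = univ := by
      have h2 := htake i
      rw [pre_univ] at h2 ⊢
      exact fun x => hij (h2 x)
    have h3 := hlow j (by omega) _ h1
    rw [htl] at h3
    omega
  have harc : ∀ j, 1 ≤ j → j < M → ∃ a k, 2 ≤ k ∧ k < n ∧ I j = arc a k := by
    intro j hj hjM
    obtain ⟨a, k, hk, hak⟩ := harc0 j hjM.le
    refine ⟨a, k, ?_, ?_, hak⟩
    · by_contra hlt
      have h1 := htake j
      rcases Nat.eq_zero_or_pos k with h0 | h0
      · have h2 : I j = ∅ := by
          rw [hak, h0]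
          simp [arc]
        rw [h2, pre_univ] at h1
        exact notMem_empty _ (h1 0)
      · have h2 : I j = {a} := by
          rw [hak, show k = 1 by omega]
          ext x
          simp [mem_arc']
        rw [h2] at h1
        have h3 := hreset a _ h1
        rw [htl] at h3
        omega
    · by_contra hlt
      have hkn : k = n := by omega
      have h2 : I j = univ := by rw [hak, hkn, arc_univ]
      have h3 : pre δ {q0} (w.drop (M - j)) = univ := h2
      have h4 := hreset q0 _ h3
      rw [hdl j hjM.le] at h4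
      omega
  have hinj : ∀ i j, i ≤ M → j ≤ M → I i = I j → i = j := by
    intro i j hi hj hij
    exact le_antisymm (hmono i j hi hij.subset) (hmono j i hj hij.symm.subset)
  refine ⟨I, ⟨hstep, harc, ?_, ?_, hmono, ?_, ?_, hbig M le_rfl, hM0⟩⟩
  · -- counting
    choose! fa fk hf2 hfn hfe using harc
    intro a k hk2 hkn
    have hsurj := Finset.surjOn_of_injOn_of_card_le
      (s := Finset.Ico 1 M) (t := (univ : Finset (ZMod n)) ×ˢ Finset.Ico 2 n)
      (fun j => (fa j, fk j)) (by
        intro j hj
        simp only [coe_Ico, Set.mem_Ico] at hj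
        simp only [coe_product, coe_univ, coe_Ico, Set.mem_prod, Set.mem_univ, Set.mem_Ico,
          true_and]
        exact ⟨hf2 j hj.1 hj.2, hfn j hj.1 hj.2⟩) (by
        intro i hi j hj hij
        simp only [coe_Ico, Set.mem_Ico] at hi hj
        simp only [Prod.mk.injEq] at hij
        apply hinj i j hi.2.le hj.2.le
        rw [hfe i hi.1 hi.2, hfe j hj.1 hj.2, hij.1, hij.2]) (by
        rw [card_product, card_univ, ZMod.card, Nat.card_Ico, Nat.card_Ico]
        obtain ⟨m, hm⟩ : ∃ m, n = m + 3 := ⟨n - 3, by omega⟩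
        rw [hM, hm, show m + 3 - 1 = m + 2 by omega, show m + 3 - 2 = m + 1 by omega]
        have : (m + 2) ^ 2 - 1 = m ^ 2 + 4 * m + 3 := by
          have h5 : (m + 2) ^ 2 = m ^ 2 + 4 * m + 3 + 1 := by ring
          omega
        rw [this]
        nlinarith)
    have hmem : (a, k) ∈ (((univ : Finset (ZMod n)) ×ˢ Finset.Ico 2 n : Finset _) : Set _) := by
      simp only [coe_product, coe_univ, coe_Ico, Set.mem_prod, Set.mem_univ, Set.mem_Ico,
        true_and]
      exact ⟨hk2, hkn⟩
    obtain ⟨j, hj, hje⟩ := hsurj hmem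
    simp only [coe_Ico, Set.mem_Ico] at hj
    simp only [Prod.mk.injEq] at hje
    refine ⟨j, hj.1, hj.2, ?_⟩
    rw [hfe j hj.1 hj.2, hje.1, hje.2]
  · -- next
    intro i j c hj hij
    by_cases hi : M ≤ i
    · omega
    have h1 : pre δ (I i) (w.take (M - j) ++ [c]) = univ := by
      rw [pre_append, hij]
      exact htake j
    have h2 := hlow i (by omega) _ h1
    rw [List.length_append, htl, List.length_singleton] at h2
    omega
  · -- single
    intro q c j hj hqj
    have h1 : pre δ {q} (w.take (M - j) ++ [c]) = univ := by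
      rw [pre_append, hqj]
      exact htake j
    have h2 := hreset q _ h1
    rw [List.length_append, htl, List.length_singleton] at h2
    omega
  · -- last
    intro j c hjc
    by_cases hj : M ≤ j
    · omega
    have h2 := hlow j (by omega) _ hjc
    rw [List.length_singleton] at h2
    omega

end Pool.Agent.Work.MP_446a37_lc
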