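import Pool.Agent.Work.MP_446a37_lc.Shape

/-!
Extremal orientable automata have a letter acting as a full rotation.
-/

namespace Pool.Agent.Work.MP_446a37_lc

open Finset

variable {n : ℕ} [NeZero n] {A : Type}

theorem mem_arc_two {a x : ZMod n} : x ∈ arc a 2 ↔ x = a ∨ x = a + 1 := by
  rw [mem_arc']
  constructor
  · rintro ⟨i, hi, rfl⟩
    interval_cases i
    · left; simp
    · right; simp
  · rintro (rfl | rfl)
    · exact ⟨0, by omega, by simp⟩
    · exact ⟨1, by omega, by simp⟩

theorem arc_one_eq (a : ZMod n) : arc a 1 = {a} := by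
  ext x
  simp [mem_arc']

theorem pre_rot (δ : ZMod n → A → ZMod n) (c : A) (s : ZMod n) (hc : ∀ x, δ x c = x + s)
    (a : ZMod n) (k : ℕ) : pre δ (arc a k) [c] = arc (a - s) k := by
  rw [pre_single]
  ext x
  simp only [mem_filter, mem_univ, true_and, hc, mem_arc']
  constructor
  · rintro ⟨i, hi, h⟩
    exact ⟨i, hi, by linear_combination h⟩
  · rintro ⟨i, hi, h⟩
    exact ⟨i, hi, by linear_combination h⟩

section general

variable {δ : ZMod n → A → ZMod n} {I : ℕ → Finset (ZMod n)} {M : ℕ}

theorem one_arc (hn : 3 ≤ n) (L : Levels n δ I M) : ∃ x0, I 1 = arc x0 2 := by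
  obtain ⟨a, k, hk, hkn, h⟩ := L.isArc 1 le_rfl L.one
  obtain ⟨j, hj1, hjM, hj⟩ := L.surj a 2 le_rfl (by omega)
  have h1 : I j ⊆ I 1 := by rw [hj, h]; exact arc_subset a hk
  have h2 := L.mono j 1 hjM.le h1
  have h3 : j = 1 := by omega
  exact ⟨a, by rw [← hj, h3]⟩

theorem merge_mem (hn : 3 ≤ n) (L : Levels n δ I M)
    (lifts : ∀ c, ∃ g, IsLift n g fun x => δ x c) (c : A) (x y : ZMod n) (hxy : x ≠ y)
    (h : δ x c = δ y c) : x ∈ I 1 ∧ y ∈ I 1 := by
  obtain ⟨g, hg⟩ := lifts c
  obtain ⟨b, l, hl, hbl⟩ := preimage_arc hg (δ x c) (k := 1) (by omega)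
  have hF : pre δ {δ x c} [c] = arc b l := by
    rw [pre_single, ← arc_one_eq]
    exact hbl
  have hx : x ∈ arc b l := by rw [← hF]; simp [pre, act_cons, act_nil]
  have hy : y ∈ arc b l := by rw [← hF]; simp [pre, act_cons, act_nil, h]
  have h2 : 2 ≤ l := by
    have h3 : ({x, y} : Finset (ZMod n)) ⊆ arc b l := by
      intro z hz
      rw [mem_insert, mem_singleton] at hz
      rcases hz with rfl | rfl
      exacts [hx, hy]
    have h4 := card_le_card h3
    rwa [card_pair hxy, card_arc b hl] at h4
  rcases Nat.lt_or_ge l n with hln | hln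
  · obtain ⟨j, hj1, hjM, hj⟩ := L.surj b l h2 hln
    have h5 := L.single _ c j hjM.le (by rw [hF, hj])
    have h6 : j = 1 := by omega
    rw [← h6, hj]
    exact ⟨hx, hy⟩
  · exfalso
    have h5 : l = n := by omega
    have h6 := L.single _ c M le_rfl (by rw [hF, h5, arc_univ, L.top])
    have := L.one
    omega

end general

/-- the normalised situation -/
structure Setup (n : ℕ) [NeZero n] {A : Type} (δ : ZMod n → A → ZMod n)
    (I : ℕ → Finset (ZMod n)) (M : ℕ) : Prop where
  hn : 3 ≤ n
  L : Levels n δ I M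
  lifts : ∀ c, ∃ g, IsLift n g fun x => δ x c
  one : I 1 = arc 0 2

variable {δ : ZMod n → A → ZMod n} {I : ℕ → Finset (ZMod n)} {M : ℕ}

theorem one_ne_zero' (hn : 3 ≤ n) : (1 : ZMod n) ≠ 0 := by
  intro h
  have h1 : ((1 : ℤ) : ZMod n) = 0 := by simpa using h
  have := intCast_eq_zero_lt h1 (by omega) (by omega)
  omega

theorem two_ne_zero' (hn : 3 ≤ n) : (2 : ZMod n) ≠ 0 := by
  intro h
  have h1 : ((2 : ℤ) : ZMod n) = 0 := by simpa using h
  have := intCast_eq_zero_lt h1 (by omega) (by omega)
  omega

theorem three_ne_zero' (hn : 4 ≤ n) : (3 : ZMod n) ≠ 0 := by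
  intro h
  have h1 : ((3 : ℤ) : ZMod n) = 0 := by simpa using h
  have := intCast_eq_zero_lt h1 (by omega) (by omega)
  omega

theorem Setup.merge (S : Setup n δ I M) (c : A) (x y : ZMod n) (hxy : x ≠ y)
    (h : δ x c = δ y c) : (x = 0 ∧ y = 1) ∨ (x = 1 ∧ y = 0) := by
  obtain ⟨hx, hy⟩ := merge_mem S.hn S.L S.lifts c x y hxy h
  rw [S.one, mem_arc_two, zero_add] at hx hy
  rcases hx with rfl | rfl <;> rcases hy with rfl | rfl
  · exact absurd rfl hxy
  · exact Or.inl ⟨rfl, rfl⟩
  · exact Or.inr ⟨rfl, rfl⟩
  · exact absurd rfl hxy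

theorem Setup.inj_or (S : Setup n δ I M) (c : A) :
    (∃ s, ∀ x, δ x c = x + s) ∨ δ 0 c = δ 1 c := by
  by_cases hinj : Function.Injective fun x => δ x c
  · left
    obtain ⟨g, hg⟩ := S.lifts c
    exact rotation_of_injective S.hn _ g hg hinj
  · right
    by_contra hne
    apply hinj
    intro x y hxy
    by_contra hcon
    rcases S.merge c x y hcon hxy with ⟨rfl, rfl⟩ | ⟨rfl, rfl⟩
    · exact hne hxy
    · exact hne hxy.symm

theorem Setup.missing_eq (S : Setup n δ I M) (c : A) (m : ZMod n) (hm : ∀ x, δ x c ≠ m) :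
    I (M - 1) = arc (m + 1) (n - 1) := by
  have hn := S.hn
  obtain ⟨j, hj1, hjM, hj⟩ := S.L.surj (m + 1) (n - 1) (by omega) (by omega)
  have h1 : pre δ (I j) [c] = univ := by
    rw [pre_univ]
    intro x
    rw [act_cons, act_nil, hj, mem_arc]
    left
    have h2 : (δ x c - (m + 1)).val ≠ n - 1 := by
      intro h3
      apply hm x
      have h4 : δ x c - (m + 1) = ((n - 1 : ℕ) : ZMod n) := by
        rw [← h3, ZMod.natCast_zmod_val]
      rw [Nat.cast_sub (by omega)] at h4
      simp only [CharP.cast_eq_zero, Nat.cast_one] at h4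
      linear_combination h4
    have h5 := ZMod.val_lt (δ x c - (m + 1))
    omega
  have h2 := S.L.last j c h1
  have h3 : j = M - 1 := by omega
  rw [← h3, hj]

theorem Setup.missing_unique (S : Setup n δ I M) (c c' : A) (m m' : ZMod n)
    (hm : ∀ x, δ x c ≠ m) (hm' : ∀ x, δ x c' ≠ m') : m = m' := by
  have hn := S.hn
  have h1 := S.missing_eq c m hm
  rw [S.missing_eq c' m' hm'] at h1
  have h2 := (arc_inj (by omega) (by omega) (by omega) h1).1
  exact (add_right_cancel h2).symm

theorem Setup.exists_missing (S : Setup n δ I M) (c : A) (h01 : δ 0 c = δ 1 c) :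
    ∃ m, (∀ x, δ x c ≠ m) ∧ ∀ q, q ≠ m → ∃ x, δ x c = q := by
  have hns : ¬ Function.Surjective fun x => δ x c := by
    intro hs
    exact one_ne_zero' S.hn (Finite.injective_iff_surjective.2 hs h01).symm
  rw [Function.Surjective] at hns
  push Not at hns
  obtain ⟨m, hm⟩ := hns
  refine ⟨m, hm, fun q hq => ?_⟩
  by_contra hcon
  push Not at hcon
  exact hq (S.missing_unique c c q m hcon hm)

theorem Setup.shape' (S : Setup n δ I M) (c : A) (h01 : δ 0 c = δ 1 c) :
    ∃ g : ℤ → ℤ, IsLift n g (fun x => δ x c) ∧ g 0 = g 1 ∧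
      (∀ z : ℤ, 1 ≤ z → z < n → g z < g (z + 1)) ∧
      ∀ z : ℤ, 1 ≤ z → z ≤ n → g z = g 1 + z - 1 ∨ g z = g 1 + z := by
  obtain ⟨g, hg⟩ := S.lifts c
  exact ⟨g, hg, shape S.hn _ g hg h01 (fun x y hxy h => S.merge c x y hxy h)⟩

/-- the preimage of an arc of size two avoiding the missing state has size three or two -/
theorem Setup.card_pre (S : Setup n δ I M) (c : A) (h01 : δ 0 c = δ 1 c) (m a : ZMod n)
    (hatt : ∀ q, q ≠ m → ∃ x, δ x c = q) (hma : m ∉ arc a 2) :
    (pre δ (arc a 2) [c]).card = if δ 0 c ∈ arc a 2 then 3 else 2 := by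
  rw [mem_arc_two] at hma
  push Not at hma
  obtain ⟨x, hx⟩ := hatt a hma.1.symm
  obtain ⟨y, hy⟩ := hatt (a + 1) hma.2.symm
  have hne1 := one_ne_zero' S.hn
  have hxy : x ≠ y := by
    rintro rfl
    rw [hx] at hy
    exact hne1 (by linear_combination -hy)
  by_cases h : δ 0 c ∈ arc a 2
  · rw [if_pos h]
    rw [mem_arc_two] at h
    -- the element not equal to `δ 0 c`
    obtain ⟨w, hw1, hw⟩ : ∃ w, (w ≠ 0 ∧ w ≠ 1) ∧ pre δ (arc a 2) [c] = {0, 1, w} := by
      rcases h with h | h
      · refine ⟨y, ?_, ?_⟩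
        · constructor
          · rintro rfl
            rw [h] at hy
            exact hne1 (by linear_combination -hy)
          · rintro rfl
            rw [← h01, h] at hy
            exact hne1 (by linear_combination -hy)
        · rw [pre_single]
          ext z
          simp only [mem_filter, mem_univ, true_and, mem_arc_two, mem_insert, mem_singleton]
          constructor
          · rintro (hz | hz)
            · by_contra hcon
              push Not at hcon
              rcases S.merge c z 0 hcon.1 (hz.trans h.symm) with ⟨h1, -⟩ | ⟨h1, -⟩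
              · exact hcon.1 h1
              · exact hcon.2.1 h1
            · by_contra hcon
              push Not at hcon
              rcases S.merge c z y hcon.2.2 (hz.trans hy.symm) with ⟨h1, -⟩ | ⟨h1, -⟩
              · exact hcon.1 h1
              · exact hcon.2.1 h1
          · rintro (rfl | rfl | rfl)
            · exact Or.inl h
            · exact Or.inl (h01 ▸ h)
            · exact Or.inr hy
      · refine ⟨x, ?_, ?_⟩
        · constructor
          · rintro rfl
            rw [h] at hx
            exact hne1 (by linear_combination hx)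
          · rintro rfl
            rw [← h01, h] at hx
            exact hne1 (by linear_combination hx)
        · rw [pre_single]
          ext z
          simp only [mem_filter, mem_univ, true_and, mem_arc_two, mem_insert, mem_singleton]
          constructor
          · rintro (hz | hz)
            · by_contra hcon
              push Not at hcon
              rcases S.merge c z x hcon.2.2 (hz.trans hx.symm) with ⟨h1, -⟩ | ⟨h1, -⟩
              · exact hcon.1 h1
              · exact hcon.2.1 h1
            · by_contra hcon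
              push Not at hcon
              rcases S.merge c z 0 hcon.1 (hz.trans h.symm) with ⟨h1, -⟩ | ⟨h1, -⟩
              · exact hcon.1 h1
              · exact hcon.2.1 h1
          · rintro (rfl | rfl | rfl)
            · exact Or.inr h
            · exact Or.inr (h01 ▸ h)
            · exact Or.inl hx
    rw [hw, card_insert_of_notMem, card_pair hw1.2.symm]
    rw [mem_insert, mem_singleton]
    push Not
    exact ⟨hne1.symm, hw1.1.symm⟩
  · rw [if_neg h]
    rw [mem_arc_two] at h
    push Not at h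
    have hset : pre δ (arc a 2) [c] = {x, y} := by
      rw [pre_single]
      ext z
      simp only [mem_filter, mem_univ, true_and, mem_arc_two, mem_insert, mem_singleton]
      have key : ∀ w, δ z c = δ w c → δ w c ≠ δ 0 c → z = w := by
        intro w hzw hw0
        by_contra hcon
        rcases S.merge c z w hcon hzw with ⟨-, h2⟩ | ⟨-, h2⟩
        · rw [h2] at hw0
          exact hw0 h01.symm
        · rw [h2] at hw0
          exact hw0 rfl
      constructor
      · rintro (hz | hz)
        · exact Or.inl (key x (hz.trans hx.symm) (by rw [hx]; exact h.1.symm))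
        · exact Or.inr (key y (hz.trans hy.symm) (by rw [hy]; exact h.2.symm))
      · rintro (rfl | rfl)
        · exact Or.inl hx
        · exact Or.inr hy
    rw [hset, card_pair hxy]

/-- an arc that contains exactly one of `0`, `1` is reached by a nontrivial rotation -/
theorem Setup.pred (S : Setup n δ I M) (j : ℕ) (hj : 2 ≤ j) (hjM : j < M)
    (h : ¬ (0 ∈ I j ↔ 1 ∈ I j)) :
    ∃ c s, (∀ x, δ x c = x + s) ∧ s ≠ 0 ∧ I j = pre δ (I (j - 1)) [c] := by
  obtain ⟨c, hc⟩ := S.L.step (j - 1) (by omega)
  rw [Nat.sub_add_cancel (by omega)] at hc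
  rcases S.inj_or c with ⟨s, hs⟩ | h01
  · refine ⟨c, s, hs, ?_, hc⟩
    rintro rfl
    have h1 : pre δ (I (j - 1)) [c] = I (j - 1) := by
      rw [pre_single]
      ext x
      simp [hs]
    rw [h1] at hc
    have := S.L.inj hjM.le (by omega) hc
    omega
  · exfalso
    apply h
    rw [hc, pre_single]
    simp only [mem_filter, mem_univ, true_and, h01]

theorem Setup.exists_rot (S : Setup n δ I M) : ∃ c s, (∀ x, δ x c = x + s) ∧ s ≠ 0 := by
  have hn := S.hn
  obtain ⟨j, hj1, hjM, hj⟩ := S.L.surj 1 2 le_rfl (by omega)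
  have hne : j ≠ 1 := by
    rintro rfl
    rw [S.one] at hj
    exact one_ne_zero' hn (arc_inj (by omega) (by omega) (by omega) hj).1.symm
  obtain ⟨c, s, hs, hs0, -⟩ := S.pred j (by omega) hjM (by
    rw [hj, mem_arc_two, mem_arc_two]
    intro h
    have h1 := h.2 (Or.inl rfl)
    rcases h1 with h1 | h1
    · exact one_ne_zero' hn h1.symm
    · apply two_ne_zero' hn
      linear_combination -h1)
  exact ⟨c, s, hs, hs0⟩

theorem Setup.rot_unique (S : Setup n δ I M) (c c' : A) (s s' : ZMod n)
    (hs : ∀ x, δ x c = x + s) (hs' : ∀ x, δ x c' = x + s') (h0 : s ≠ 0) (h0' : s' ≠ 0) :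
    s = s' := by
  have hn := S.hn
  have key : ∀ (c : A) (s : ZMod n), (∀ x, δ x c = x + s) → s ≠ 0 → I 2 = arc (-s) 2 := by
    intro c s hs h0
    obtain ⟨j, hj1, hjM, hj⟩ := S.L.surj (-s) 2 le_rfl (by omega)
    have h1 : pre δ (I 1) [c] = I j := by
      rw [S.one, pre_rot δ c s hs, hj, zero_sub]
    have h2 := S.L.next 1 j c hjM.le h1
    have h3 : j ≠ 1 := by
      rintro rfl
      rw [S.one] at hj
      have h4 := (arc_inj (by omega) (by omega) (by omega) hj).1
      exact h0 (by linear_combination h4)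
    have h4 : j = 2 := by omega
    rw [h4] at hj
    exact hj
  have h1 := key c s hs h0
  rw [key c' s' hs' h0'] at h1
  have h2 := (arc_inj (by omega) (by omega) (by omega) h1).1
  exact (neg_injective h2).symm

theorem Setup.block (S : Setup n δ I M) (c : A) (s : ZMod n) (hs : ∀ x, δ x c = x + s) :
    ∀ i, i < addOrderOf s → I (i + 1) = arc (-(i • s)) 2 ∧ i + 1 < M := by
  have hn := S.hn
  intro i
  induction i using Nat.strong_induction_on with
  | _ i ih =>
    intro hi
    rcases Nat.eq_zero_or_pos i with rfl | hpos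
    · refine ⟨?_, by have := S.L.one; omega⟩
      rw [zero_smul, neg_zero, zero_add, S.one]
    obtain ⟨j, hj1, hjM, hj⟩ := S.L.surj (-(i • s)) 2 le_rfl (by omega)
    have hprev := (ih (i - 1) (by omega) (by omega)).1
    rw [Nat.sub_add_cancel hpos] at hprev
    have h1 : pre δ (I i) [c] = I j := by
      rw [hprev, pre_rot δ c s hs, hj]
      congr 1
      have h2 : i • s = (i - 1) • s + s := by
        rw [← succ_nsmul, Nat.sub_add_cancel hpos]
      rw [h2]
      ring
    have h2 := S.L.next i j c hjM.le h1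
    have h3 : ¬ j ≤ i := by
      intro hle
      have h4 := (ih (j - 1) (by omega) (by omega)).1
      rw [Nat.sub_add_cancel hj1, hj] at h4
      have h5 := (arc_inj (by omega) (by omega) (by omega) h4).1
      have h6 : i • s = (j - 1) • s := neg_injective h5
      have h7 := nsmul_injOn_Iio_addOrderOf (Set.mem_Iio.2 hi)
        (Set.mem_Iio.2 (show j - 1 < addOrderOf s by omega)) h6
      omega
    have h4 : j = i + 1 := by omega
    rw [h4] at hj hjM
    exact ⟨hj, hjM⟩

end Pool.Agent.Work.MP_446a37_lc
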