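import Pool.Agent.Work.MP_446a37_lc.Orient

/-!
The rotation found in `Orient` generates all rotations.
-/

namespace Pool.Agent.Work.MP_446a37_lc

open Finset

variable {n : ℕ} [NeZero n] {A : Type}
variable {δ : ZMod n → A → ZMod n} {I : ℕ → Finset (ZMod n)} {M : ℕ}

/-- arcs of size two starting in the subgroup generated by `s` are the first ones -/
theorem Setup.index_of_mem (S : Setup n δ I M) (c : A) (s : ZMod n) (hs : ∀ x, δ x c = x + s)
    (a : ZMod n) (ha : a ∈ AddSubgroup.zmultiples s) :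
    ∃ i, i < addOrderOf s ∧ a = -(i • s) ∧ I (i + 1) = arc a 2 ∧ i + 1 < M := by
  have h1 : -a ∈ AddSubgroup.zmultiples s := neg_mem ha
  have h2 : ∃ i < addOrderOf s, i • s = -a := by
    rw [AddSubgroup.mem_zmultiples_iff] at h1
    obtain ⟨k, hk⟩ := h1
    have hpos : 0 < addOrderOf s := addOrderOf_pos s
    refine ⟨(k % addOrderOf s).toNat, ?_, ?_⟩
    · have h3 := Int.emod_lt_of_pos k (by exact_mod_cast hpos : (0 : ℤ) < addOrderOf s)
      have h4 := Int.emod_nonneg k (by exact_mod_cast hpos.ne' : (addOrderOf s : ℤ) ≠ 0)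
      omega
    · have h4 := Int.emod_nonneg k (by exact_mod_cast hpos.ne' : (addOrderOf s : ℤ) ≠ 0)
      rw [← natCast_zsmul, Int.toNat_of_nonneg h4, mod_addOrderOf_zsmul, hk]
  obtain ⟨i, hi, his⟩ := h2
  obtain ⟨h3, h4⟩ := S.block c s hs i hi
  have h5 : a = -(i • s) := by rw [his, neg_neg]
  refine ⟨i, hi, h5, ?_, h4⟩
  rw [h3, ← h5]

theorem Setup.mem_of_index (S : Setup n δ I M) (c : A) (s : ZMod n) (hs : ∀ x, δ x c = x + s)
    (j : ℕ) (hj1 : 1 ≤ j) (hj : j ≤ addOrderOf s) (b : ZMod n) (k : ℕ) (hk : 1 ≤ k) (hkn : k < n)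
    (h : I j = arc b k) : b ∈ AddSubgroup.zmultiples s ∧ k = 2 := by
  have hn := S.hn
  obtain ⟨h1, h2⟩ := S.block c s hs (j - 1) (by omega)
  rw [Nat.sub_add_cancel hj1, h] at h1
  obtain ⟨h3, h4⟩ := arc_inj hk hkn (by omega) h1
  refine ⟨?_, h4⟩
  rw [h3]
  exact neg_mem (AddSubgroup.nsmul_mem_zmultiples s _)

/-- the order of the rotation is not two -/
theorem Setup.order_ne_two (S : Setup n δ I M) (c : A) (s : ZMod n) (hs : ∀ x, δ x c = x + s)
    (h0 : s ≠ 0) : s + s ≠ 0 := by
  intro h2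
  have hn := S.hn
  set d := s.val with hd
  have hdn : d < n := ZMod.val_lt s
  have hd0 : d ≠ 0 := by rw [hd, Ne, ZMod.val_eq_zero]; exact h0
  have h2d : n = 2 * d := by
    have h3 : ((2 * d : ℕ) : ZMod n) = 0 := by
      push_cast
      rw [hd, ZMod.natCast_zmod_val]
      linear_combination h2
    rw [ZMod.natCast_eq_zero_iff] at h3
    obtain ⟨t, ht⟩ := h3
    have h4 : t = 1 := by
      rcases Nat.lt_trichotomy t 1 with h | h | h
      · have : t = 0 := by omega
        rw [this] at ht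
        omega
      · exact h
      · exfalso
        nlinarith
    rw [h4] at ht
    omega
  have hneg : -s = s := by linear_combination -h2
  have hval1 : ((0 : ZMod n) - 1).val = n - 1 := by
    have h3 : ((0 : ZMod n) - 1) = ((n - 1 : ℕ) : ZMod n) := by
      rw [Nat.cast_sub (by omega)]
      simp
    rw [h3, ZMod.val_natCast, Nat.mod_eq_of_lt (by omega)]
  obtain ⟨j, hj1, hjM, hj⟩ := S.L.surj 1 d (by omega) hdn
  obtain ⟨j', hj1', hjM', hj'⟩ := S.L.surj (1 + s) d (by omega) hdn
  -- membership of 0 and 1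
  have h0A : (0 : ZMod n) ∉ arc 1 d := by
    rw [mem_arc, hval1]
    omega
  have h1A : (1 : ZMod n) ∈ arc 1 d := by
    rw [mem_arc, sub_self, ZMod.val_zero]
    left; omega
  have h0B : (0 : ZMod n) ∈ arc (1 + s) d := by
    rw [mem_arc]
    left
    have h3 : (0 - (1 + s) : ZMod n) = ((d - 1 : ℕ) : ZMod n) := by
      rw [Nat.cast_sub (by omega), hd, ZMod.natCast_zmod_val]
      push_cast
      linear_combination -h2
    rw [h3, ZMod.val_natCast, Nat.mod_eq_of_lt (by omega)]
    omega
  have h1B : (1 : ZMod n) ∉ arc (1 + s) d := by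
    rw [mem_arc]
    have h3 : (1 - (1 + s) : ZMod n) = s := by linear_combination hneg
    rw [h3]
    omega
  have hj2 : j ≠ 1 := by
    rintro rfl
    rw [S.one] at hj
    rw [← hj, mem_arc_two] at h0A
    exact h0A (Or.inl rfl)
  have hj2' : j' ≠ 1 := by
    rintro rfl
    rw [S.one] at hj'
    rw [← hj', mem_arc_two] at h1B
    exact h1B (Or.inr (by simp))
  obtain ⟨c1, s1, hs1, hs10, hp1⟩ := S.pred j (by omega) hjM (by
    rw [hj]
    intro h
    exact h0A (h.2 h1A))
  obtain ⟨c2, s2, hs2, hs20, hp2⟩ := S.pred j' (by omega) hjM' (by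
    rw [hj']
    intro h
    exact h1B (h.1 h0B))
  have e1 : s1 = s := S.rot_unique c1 c s1 s hs1 hs hs10 h0
  have e2 : s2 = s := S.rot_unique c2 c s2 s hs2 hs hs20 h0
  rw [e1] at hs1
  rw [e2] at hs2
  -- the predecessor of `arc 1 d` is `arc (1 + s) d` and conversely
  obtain ⟨a, k, hk2, hkn, hak⟩ := S.L.isArc (j - 1) (by omega) (by omega)
  rw [hak, pre_rot δ c1 s hs1, hj] at hp1
  obtain ⟨h3, h4⟩ := arc_inj (by omega) hdn hkn hp1
  have h5 : I (j - 1) = I j' := by
    rw [hak, hj', ← h4]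
    congr 1
    linear_combination -h3
  have h6 := S.L.inj (by omega) hjM'.le h5
  obtain ⟨a', k', hk2', hkn', hak'⟩ := S.L.isArc (j' - 1) (by omega) (by omega)
  rw [hak', pre_rot δ c2 s hs2, hj'] at hp2
  obtain ⟨h3', h4'⟩ := arc_inj (by omega) hdn hkn' hp2
  have h5' : I (j' - 1) = I j := by
    rw [hak', hj, ← h4']
    congr 1
    linear_combination -h3' + h2
  have h6' := S.L.inj (by omega) hjM.le h5'
  omega

theorem Setup.F1 (S : Setup n δ I M) (c : A) (s : ZMod n) (hs : ∀ x, δ x c = x + s)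
    (hH : (1 : ZMod n) ∉ AddSubgroup.zmultiples s) (h4 : 4 ≤ n) (e : A) (h01 : δ 0 e = δ 1 e)
    (m : ZMod n) (hatt : ∀ q, q ≠ m → ∃ x, δ x e = q) (a : ZMod n)
    (ha : a ∈ AddSubgroup.zmultiples s) (hy : δ 0 e ∈ arc a 2) : m ∈ arc a 2 := by
  by_contra hma
  have hcard := S.card_pre e h01 m a hatt hma
  rw [if_pos hy] at hcard
  obtain ⟨g, hg⟩ := S.lifts e
  obtain ⟨b, l, hl, hbl⟩ := preimage_arc hg a (k := 2) (by omega)
  have hF : pre δ (arc a 2) [e] = arc b l := by rw [pre_single]; exact hbl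
  rw [hF, card_arc b hl] at hcard
  subst hcard
  obtain ⟨i, hi, -, hIi, hiM⟩ := S.index_of_mem c s hs a ha
  obtain ⟨j, hj1, hjM, hj⟩ := S.L.surj b 3 (by omega) (by omega)
  have h5 := S.L.next (i + 1) j e hjM.le (by rw [hIi, hF, hj])
  have sub : ∀ b', arc b' 2 ⊆ arc b 3 → b' ∈ AddSubgroup.zmultiples s := by
    intro b' hb'
    obtain ⟨j1, hj11, hj1M, hj1e⟩ := S.L.surj b' 2 le_rfl (by omega)
    have h6 := S.L.mono j1 j hj1M.le (by rw [hj1e, hj]; exact hb')
    have h7 : j1 ≠ j := by
      rintro rfl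
      rw [hj] at hj1e
      have := (arc_inj (by omega) (by omega) (by omega) hj1e).2
      omega
    exact (S.mem_of_index c s hs j1 hj11 (by omega) b' 2 (by omega) (by omega) hj1e).1
  have h8 := sub b (arc_subset b (by omega))
  have h9 := sub (b + 1) (arc_subset_succ b 2)
  apply hH
  have h10 := sub_mem h9 h8
  rwa [add_sub_cancel_left] at h10

/-- the two types of letters -/
theorem Setup.types (S : Setup n δ I M) (c : A) (s : ZMod n) (hs : ∀ x, δ x c = x + s)
    (h0 : s ≠ 0) (hH : (1 : ZMod n) ∉ AddSubgroup.zmultiples s) (h4 : 4 ≤ n) (e : A)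
    (h01 : δ 0 e = δ 1 e) (m : ZMod n) (hmis : ∀ x, δ x e ≠ m)
    (hatt : ∀ q, q ≠ m → ∃ x, δ x e = q) :
    (δ 0 e ∈ AddSubgroup.zmultiples s ∧ m = δ 0 e + 1) ∨
      (δ 0 e - 1 ∈ AddSubgroup.zmultiples s ∧ m = δ 0 e - 1) := by
  set H := AddSubgroup.zmultiples s with hHdef
  have hsH : s ∈ H := AddSubgroup.mem_zmultiples s
  have hn := S.hn
  have hord : 3 ≤ addOrderOf s := by
    have h1 : addOrderOf s ≠ 1 := by
      rw [Ne, AddMonoid.addOrderOf_eq_one_iff]
      exact h0
    have h2 : addOrderOf s ≠ 2 := by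
      intro h
      have h3 := addOrderOf_nsmul_eq_zero s
      rw [h, two_nsmul] at h3
      exact S.order_ne_two c s hs h0 h3
    have h3 := addOrderOf_pos s
    omega
  -- an arc of size two, of index at most two, avoiding `m`
  obtain ⟨a, i, haH, hi, hIi, hma⟩ : ∃ (a : ZMod n) (i : ℕ), a ∈ H ∧ i ≤ 2 ∧ I i = arc a 2 ∧
      m ∉ arc a 2 := by
    have hI2 := (S.block c s hs 1 (by omega)).1
    rw [one_smul] at hI2
    by_cases hm : m ∈ arc (0 : ZMod n) 2
    · refine ⟨-s, 2, neg_mem hsH, le_rfl, hI2, ?_⟩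
      rw [mem_arc_two] at hm ⊢
      rintro (h | h)
      · rcases hm with h' | h'
        · exact h0 (by linear_combination h - h')
        · apply hH
          have : (1 : ZMod n) = -s := by linear_combination h - h'
          rw [this]
          exact neg_mem hsH
      · rcases hm with h' | h'
        · apply hH
          have : (1 : ZMod n) = s := by linear_combination h' - h
          rw [this]
          exact hsH
        · exact h0 (by linear_combination h - h')
    · exact ⟨0, 1, H.zero_mem, by omega, S.one, hm⟩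
  have hya : δ 0 e ∉ arc a 2 := fun hy => hma (S.F1 c s hs hH h4 e h01 m hatt a haH hy)
  have hcard := S.card_pre e h01 m a hatt hma
  rw [if_neg hya] at hcard
  obtain ⟨g', hg'⟩ := S.lifts e
  obtain ⟨b, l, hl, hbl⟩ := preimage_arc hg' a (k := 2) (by omega)
  have hF : pre δ (arc a 2) [e] = arc b l := by rw [pre_single]; exact hbl
  rw [hF, card_arc b hl] at hcard
  subst hcard
  obtain ⟨j, hj1, hjM, hj⟩ := S.L.surj b 2 le_rfl (by omega)
  have h5 := S.L.next i j e hjM.le (by rw [hIi, hF, hj])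
  have hbH : b ∈ H := (S.mem_of_index c s hs j hj1 (by omega) b 2 (by omega) (by omega) hj).1
  have hb1 : δ b e ∈ arc a 2 := by
    have : b ∈ pre δ (arc a 2) [e] := by rw [hF, mem_arc_two]; exact Or.inl rfl
    simpa [pre, act_cons, act_nil] using this
  have hb2 : δ (b + 1) e ∈ arc a 2 := by
    have : b + 1 ∈ pre δ (arc a 2) [e] := by rw [hF, mem_arc_two]; exact Or.inr rfl
    simpa [pre, act_cons, act_nil] using this
  have hb0 : b ≠ 0 := by
    rintro rfl
    exact hya hb1
  -- use the lift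
  obtain ⟨g, hg, hg01, hgs, hgv⟩ := S.shape' e h01
  have hzb : ((b.val : ℤ) : ZMod n) = b := by rw [Int.cast_natCast, ZMod.natCast_zmod_val]
  have hv1 : b.val ≠ 0 := by rw [Ne, ZMod.val_eq_zero]; exact hb0
  have hv2 := ZMod.val_lt b
  have hgb : δ b e = (g b.val : ZMod n) := by
    have := hg.ind (b.val : ℤ)
    rwa [hzb] at this
  have hgb1 : δ (b + 1) e = (g (b.val + 1) : ZMod n) := by
    have := hg.ind ((b.val : ℤ) + 1)
    push_cast at this
    rw [ZMod.natCast_zmod_val] at this
    exact this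
  have hy : δ 0 e = (g 1 : ZMod n) := by
    have := hg.ind 1
    simp only [Int.cast_one] at this
    rw [h01, this]
  have hlt := hgs b.val (by omega) (by omega)
  have hvb := hgv b.val (by omega) (by omega)
  have hvb1 := hgv (b.val + 1) (by omega) (by omega)
  have hdiff : g (b.val + 1) = g b.val + 1 ∨ g (b.val + 1) = g b.val + 2 := by omega
  have hba : δ b e = a := by
    rw [mem_arc_two] at hb1 hb2
    rcases hb1 with h | h
    · exact h
    · exfalso
      have h6 : δ (b + 1) e - δ b e = 1 ∨ δ (b + 1) e - δ b e = 2 := by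
        rw [hgb, hgb1]
        rcases hdiff with h | h
        · left; rw [h]; push_cast; ring
        · right; rw [h]; push_cast; ring
      have h7 : δ (b + 1) e - δ b e = 0 ∨ δ (b + 1) e - δ b e = -1 := by
        rcases hb2 with h' | h'
        · right; rw [h', h]; ring
        · left; rw [h', h]; ring
      have o1 := one_ne_zero' hn
      have o2 := two_ne_zero' hn
      have o3 := three_ne_zero' h4
      rcases h6 with h6 | h6 <;> rcases h7 with h7 | h7
      · exact o1 (by rw [← h6, h7])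
      · exact o2 (by linear_combination h7 - h6)
      · exact o2 (by rw [← h6, h7])
      · exact o3 (by linear_combination h7 - h6)
  have hyH : δ 0 e ∈ H ∨ δ 0 e - 1 ∈ H := by
    have hab : a - b ∈ H := sub_mem haH hbH
    rcases hvb with h | h
    · right
      have h6 : δ 0 e - 1 = a - b := by
        rw [← hba, hgb, hy, h]
        push_cast
        rw [ZMod.natCast_zmod_val]
        ring
      rw [h6]; exact hab
    · left
      have h6 : δ 0 e = a - b := by
        rw [← hba, hgb, hy, h]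
        push_cast
        rw [ZMod.natCast_zmod_val]
        ring
      rw [h6]; exact hab
  rcases hyH with h | h
  · left
    refine ⟨h, ?_⟩
    have h6 := S.F1 c s hs hH h4 e h01 m hatt _ h (by rw [mem_arc_two]; exact Or.inl rfl)
    rw [mem_arc_two] at h6
    exact h6.resolve_left fun h7 => hmis 0 h7.symm
  · right
    refine ⟨h, ?_⟩
    have h6 := S.F1 c s hs hH h4 e h01 m hatt _ h (by rw [mem_arc_two]; right; ring)
    rw [mem_arc_two, sub_add_cancel] at h6
    exact h6.resolve_right fun h7 => hmis 0 h7.symm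

end Pool.Agent.Work.MP_446a37_lc
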