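import Pool.Agent.Work.MP_446a37_lc.Orient2
import Pool.Agent.Work.MP_446a37_lc.Rank

/-!
Extremal orientable automata: a letter acts as a full cycle.
-/

namespace Pool.Agent.Work.MP_446a37_lc

open Finset

variable {n : ℕ} [NeZero n] {A : Type}
variable {δ : ZMod n → A → ZMod n} {I : ℕ → Finset (ZMod n)} {M : ℕ}

theorem Setup.typeA (S : Setup n δ I M) (e : A) (h01 : δ 0 e = δ 1 e)
    (hmis : ∀ x, δ x e ≠ δ 0 e + 1) : ∀ x, x ≠ 1 → δ x e = x + δ 0 e := by
  have hn := S.hn
  obtain ⟨g, hg, hg01, hgs, hgv⟩ := S.shape' e h01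
  have hy : δ 0 e = (g 1 : ZMod n) := by
    have := hg.ind 1
    simp only [Int.cast_one] at this
    rw [h01, this]
  have h2 : g 2 = g 1 + 2 := by
    rcases hgv 2 (by omega) (by omega) with h | h
    · exfalso
      have h3 := hg.ind 2
      rw [h] at h3
      apply hmis 2
      push_cast at h3
      rw [h3, hy]
      ring
    · exact h
  have hall : ∀ k : ℕ, (k : ℤ) + 2 ≤ n → g (k + 2) = g 1 + (k + 2) := by
    intro k
    induction k with
    | zero => intro _; simpa using h2
    | succ k ih =>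
      intro hk
      push_cast at hk ⊢
      have h3 := ih (by omega)
      have h4 := hgs (k + 2) (by omega) (by omega)
      have e1 : (k : ℤ) + 2 + 1 = k + 1 + 2 := by ring
      rw [e1] at h4
      rcases hgv (k + 1 + 2) (by omega) (by omega) with h5 | h5 <;> omega
  intro x hx
  obtain ⟨z, hz, hz2, hzn⟩ : ∃ z : ℕ, (z : ZMod n) = x ∧ 2 ≤ z ∧ z ≤ n := by
    by_cases h0 : x = 0
    · exact ⟨n, by rw [h0]; simp, by omega, le_rfl⟩
    · refine ⟨x.val, ZMod.natCast_zmod_val x, ?_, (ZMod.val_lt x).le⟩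
      have h3 : x.val ≠ 0 := by rw [Ne, ZMod.val_eq_zero]; exact h0
      have h4 : x.val ≠ 1 := by
        intro h
        apply hx
        rw [← ZMod.natCast_zmod_val x, h, Nat.cast_one]
      omega
  have h3 := hall (z - 2) (by omega)
  have e1 : ((z - 2 : ℕ) : ℤ) + 2 = z := by omega
  rw [e1] at h3
  have h4 := hg.ind z
  rw [h3] at h4
  push_cast at h4
  rw [hz] at h4
  rw [h4, hy]
  ring

theorem Setup.typeB (S : Setup n δ I M) (e : A) (h01 : δ 0 e = δ 1 e)
    (hmis : ∀ x, δ x e ≠ δ 0 e - 1) : ∀ x, x ≠ 0 → δ x e = x + (δ 0 e - 1) := by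
  have hn := S.hn
  obtain ⟨g, hg, hg01, hgs, hgv⟩ := S.shape' e h01
  have hy : δ 0 e = (g 1 : ZMod n) := by
    have := hg.ind 1
    simp only [Int.cast_one] at this
    rw [h01, this]
  have h2 : g (n - 1) = g 1 + n - 2 := by
    rcases hgv (n - 1) (by omega) (by omega) with h | h
    · rw [h]; ring
    · exfalso
      have h3 := hg.ind (n - 1)
      rw [h] at h3
      apply hmis ((n - 1 : ℤ) : ZMod n)
      rw [h3, hy]
      push_cast
      simp
      ring
  have hall : ∀ k : ℕ, (k : ℤ) + 2 ≤ n → g (n - 1 - k) = g 1 + n - 2 - k := by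
    intro k
    induction k with
    | zero => intro _; simpa using h2
    | succ k ih =>
      intro hk
      push_cast at hk ⊢
      have h3 := ih (by omega)
      have h4 := hgs (n - 1 - (k + 1)) (by omega) (by omega)
      have e1 : (n : ℤ) - 1 - (k + 1) + 1 = n - 1 - k := by ring
      rw [e1] at h4
      rcases hgv (n - 1 - (k + 1)) (by omega) (by omega) with h5 | h5 <;> omega
  intro x hx
  have h3 : x.val ≠ 0 := by rw [Ne, ZMod.val_eq_zero]; exact hx
  have h4 := ZMod.val_lt x
  have h5 := hall (n - 1 - x.val) (by omega)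
  have e1 : (n : ℤ) - 1 - ((n - 1 - x.val : ℕ) : ℤ) = x.val := by omega
  rw [e1] at h5
  have h6 := hg.ind x.val
  rw [h5] at h6
  rw [Int.cast_natCast, ZMod.natCast_zmod_val] at h6
  rw [h6, hy]
  have e2 : ((n - 1 - x.val : ℕ) : ℤ) = n - 1 - x.val := by omega
  rw [e2]
  push_cast
  rw [ZMod.natCast_zmod_val]
  ring

theorem Setup.exists_merge (S : Setup n δ I M) (hsync : ∃ u, IsReset δ u) :
    ∃ e, δ 0 e = δ 1 e := by
  by_contra hcon
  push Not at hcon
  obtain ⟨u, hu⟩ := hsync
  have hinj : ∀ (u : List A), Function.Injective fun x => act δ x u := by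
    intro u
    induction u with
    | nil => intro x y h; exact h
    | cons c u ih =>
      intro x y h
      rcases S.inj_or c with ⟨s, hs⟩ | h01
      · have h1 := ih h
        rw [hs, hs] at h1
        exact add_right_cancel h1
      · exact absurd h01 (hcon c)
  exact one_ne_zero' S.hn (hinj u (hu 1 0))

/-- the rotation generates -/
theorem Setup.generates (S : Setup n δ I M) (hsync : ∃ u, IsReset δ u) (c : A) (s : ZMod n)
    (hs : ∀ x, δ x c = x + s) (h0 : s ≠ 0) : (1 : ZMod n) ∈ AddSubgroup.zmultiples s := by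
  by_contra hH
  have hn := S.hn
  set H := AddSubgroup.zmultiples s with hHdef
  have hsH : s ∈ H := AddSubgroup.mem_zmultiples s
  have h4 : 4 ≤ n := by
    by_contra hlt
    have h3 : n = 3 := by omega
    have h5 : s = 1 ∨ s = 2 := by
      have h6 := ZMod.val_lt s
      have h7 : s.val ≠ 0 := by rw [Ne, ZMod.val_eq_zero]; exact h0
      have h8 : s.val = 1 ∨ s.val = 2 := by omega
      rcases h8 with h | h
      · left; rw [← ZMod.natCast_zmod_val s, h, Nat.cast_one]
      · right; rw [← ZMod.natCast_zmod_val s, h]; norm_num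
    apply hH
    rcases h5 with h | h
    · rw [← h]; exact hsH
    · have h6 : s + s = 1 := by
        have h7 : (3 : ZMod n) = 0 := by
          have := ZMod.natCast_self n
          rw [h3] at this ⊢
          simpa using this
        rw [h]
        linear_combination h7
      rw [← h6]
      exact add_mem hsH hsH
  have hrot : ∀ e : A, (∃ s', ∀ x, δ x e = x + s') → ∃ t ∈ H, ∀ x, δ x e = x + t := by
    rintro e ⟨s', hs'⟩
    refine ⟨s', ?_, hs'⟩
    by_cases h : s' = 0
    · rw [h]; exact H.zero_mem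
    · rw [S.rot_unique e c s' s hs' hs h h0]; exact hsH
  -- a common type
  have htypes : ∀ e : A, δ 0 e = δ 1 e →
      ∃ m, (∀ x, δ x e ≠ m) ∧ ((δ 0 e ∈ H ∧ m = δ 0 e + 1) ∨
        (δ 0 e - 1 ∈ H ∧ m = δ 0 e - 1)) := by
    intro e h01
    obtain ⟨m, hmis, hatt⟩ := S.exists_missing e h01
    exact ⟨m, hmis, S.types c s hs h0 hH h4 e h01 m hmis hatt⟩
  obtain ⟨e0, he0⟩ := S.exists_merge hsync
  obtain ⟨m, hm0, hm1⟩ := htypes e0 he0
  obtain ⟨u, hu⟩ := hsync
  rcases hm1 with ⟨hyH, hmy⟩ | ⟨hyH, hmy⟩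
  · -- type A: `m - 1 ∈ H`
    have hmH : m - 1 ∈ H := by rw [hmy, add_sub_cancel_right]; exact hyH
    have hlet : ∀ e : A, ∃ t ∈ H, ∀ x ∈ H, δ x e = x + t := by
      intro e
      rcases S.inj_or e with h | h01
      · obtain ⟨t, ht, h1⟩ := hrot e h
        exact ⟨t, ht, fun x _ => h1 x⟩
      · obtain ⟨m', hm', h2⟩ := htypes e h01
        have hmm : m' = m := S.missing_unique e e0 m' m hm' hm0
        rcases h2 with ⟨h3, h5⟩ | ⟨h3, h5⟩
        · refine ⟨δ 0 e, h3, fun x hx => S.typeA e h01 ?_ x ?_⟩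
          · rw [← h5]; exact hm'
          · rintro rfl; exact hH hx
        · exfalso
          apply hH
          have h6 : m ∈ H := by rw [← hmm, h5]; exact h3
          have h7 := sub_mem h6 hmH
          rwa [sub_sub_cancel] at h7
    have hword : ∀ u : List A, ∃ t ∈ H, ∀ x ∈ H, act δ x u = x + t := by
      intro u
      induction u with
      | nil => exact ⟨0, H.zero_mem, fun x _ => by rw [act_nil, add_zero]⟩
      | cons e u ih =>
        obtain ⟨t, ht, h1⟩ := ih
        obtain ⟨t', ht', h2⟩ := hlet e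
        refine ⟨t' + t, add_mem ht' ht, fun x hx => ?_⟩
        rw [act_cons, h2 x hx, h1 _ (add_mem hx ht')]
        ring
    obtain ⟨t, ht, h1⟩ := hword u
    have h2 := hu 0 s
    rw [h1 0 H.zero_mem, h1 s hsH] at h2
    exact h0 (add_right_cancel h2).symm
  · -- type B: `m ∈ H`
    have hmH : m ∈ H := by rw [hmy]; exact hyH
    have hlet : ∀ e : A, ∃ t ∈ H, ∀ x, x - 1 ∈ H → δ x e = x + t := by
      intro e
      rcases S.inj_or e with h | h01
      · obtain ⟨t, ht, h1⟩ := hrot e h
        exact ⟨t, ht, fun x _ => h1 x⟩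
      · obtain ⟨m', hm', h2⟩ := htypes e h01
        have hmm : m' = m := S.missing_unique e e0 m' m hm' hm0
        rcases h2 with ⟨h3, h5⟩ | ⟨h3, h5⟩
        · exfalso
          apply hH
          have h6 : m - 1 ∈ H := by rw [← hmm, h5, add_sub_cancel_right]; exact h3
          have h7 := sub_mem hmH h6
          rwa [sub_sub_cancel] at h7
        · refine ⟨δ 0 e - 1, h3, fun x hx => S.typeB e h01 ?_ x ?_⟩
          · rw [← h5]; exact hm'
          · rintro rfl
            apply hH
            have := neg_mem hx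
            simpa using this
    have hword : ∀ u : List A, ∃ t ∈ H, ∀ x, x - 1 ∈ H → act δ x u = x + t := by
      intro u
      induction u with
      | nil => exact ⟨0, H.zero_mem, fun x _ => by rw [act_nil, add_zero]⟩
      | cons e u ih =>
        obtain ⟨t, ht, h1⟩ := ih
        obtain ⟨t', ht', h2⟩ := hlet e
        refine ⟨t' + t, add_mem ht' ht, fun x hx => ?_⟩
        rw [act_cons, h2 x hx, h1 _ (by
          have := add_mem hx ht'
          rwa [show x - 1 + t' = x + t' - 1 by ring] at this)]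
        ring
    obtain ⟨t, ht, h1⟩ := hword u
    have h2 := hu 1 (1 + s)
    rw [h1 1 (by rw [sub_self]; exact H.zero_mem),
      h1 (1 + s) (by rw [add_sub_cancel_left]; exact hsH)] at h2
    exact h0 (by linear_combination -h2)

/-! ### Transport -/

theorem act_equiv {Q Q' : Type} (e : Q ≃ Q') (δ : Q → A → Q) (δ' : Q' → A → Q')
    (h : ∀ q c, e (δ q c) = δ' (e q) c) (u : List A) : ∀ q, e (act δ q u) = act δ' (e q) u := by
  induction u with
  | nil => intro q; rfl
  | cons c u ih =>
    intro q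
    rw [act_cons, act_cons, ih, h]

theorem reset_equiv {Q Q' : Type} (e : Q ≃ Q') (δ : Q → A → Q) (δ' : Q' → A → Q')
    (h : ∀ q c, e (δ q c) = δ' (e q) c) (u : List A) : IsReset δ u ↔ IsReset δ' u := by
  constructor
  · intro hu p q
    obtain ⟨p, rfl⟩ := e.surjective p
    obtain ⟨q, rfl⟩ := e.surjective q
    rw [← act_equiv e δ δ' h, ← act_equiv e δ δ' h, hu p q]
  · intro hu p q
    apply e.injective
    rw [act_equiv e δ δ' h, act_equiv e δ δ' h, hu (e p) (e q)]

theorem extremal_equiv {Q Q' : Type} [Fintype Q] [Fintype Q'] (e : Q ≃ Q') (δ : Q → A → Q)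
    (δ' : Q' → A → Q') (h : ∀ q c, e (δ q c) = δ' (e q) c) (hx : Extremal δ) : Extremal δ' := by
  have hc := Fintype.card_congr e
  obtain ⟨⟨u, hu, hul⟩, hmin⟩ := hx
  refine ⟨⟨u, (reset_equiv e δ δ' h u).1 hu, by rw [hul, hc]⟩, ?_⟩
  intro u hu
  rw [← hc]
  exact hmin u ((reset_equiv e δ δ' h u).2 hu)

/-- an extremal orientable automaton, after a translation, is in the normalised situation -/
theorem exists_setup (hn : 3 ≤ n) (δ : ZMod n → A → ZMod n) (hx : Extremal δ)
    (hl : ∀ c, ∃ g, IsLift n g fun x => δ x c) :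
    ∃ (x0 : ZMod n) (I : ℕ → Finset (ZMod n)),
      Setup n (fun x c => δ (x + x0) c - x0) I ((n - 1) ^ 2) := by
  obtain ⟨I, L⟩ := exists_levels hn δ hx hl
  obtain ⟨x0, hx0⟩ := one_arc hn L
  refine ⟨x0, ?_⟩
  set δ' : ZMod n → A → ZMod n := fun x c => δ (x + x0) c - x0 with hδ'
  have heq : ∀ q c, (Equiv.subRight x0) (δ q c) = δ' ((Equiv.subRight x0) q) c := by
    intro q c
    simp [hδ']
  have hx' : Extremal δ' := extremal_equiv (Equiv.subRight x0) δ δ' heq hx
  have hl' : ∀ c, ∃ g, IsLift n g fun x => δ' x c := by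
    intro c
    obtain ⟨g, hg⟩ := hl c
    obtain ⟨X, hX⟩ : ∃ X : ℤ, (X : ZMod n) = x0 := ⟨x0.val, by
      rw [Int.cast_natCast, ZMod.natCast_zmod_val]⟩
    refine ⟨fun z => g (z + X) - X, ?_, ?_, ?_⟩
    · intro a b hab
      have := hg.mono (show a + X ≤ b + X by omega)
      show g (a + X) - X ≤ g (b + X) - X
      omega
    · intro z
      have := hg.per (z + X)
      have e1 : z + n + X = z + X + n := by ring
      show g (z + n + X) - X = g (z + X) - X + n
      rw [e1, this]
      ring
    · intro z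
      have := hg.ind (z + X)
      push_cast at this
      rw [hX] at this
      show δ ((z : ZMod n) + x0) c - x0 = ((g (z + X) - X : ℤ) : ZMod n)
      rw [this]
      push_cast
      rw [hX]
  obtain ⟨I', L'⟩ := exists_levels hn δ' hx' hl'
  obtain ⟨x1, hx1⟩ := one_arc hn L'
  have hx10 : x1 = 0 := by
    -- a letter of δ that is not injective
    obtain ⟨c, x, y, hxy, hcxy⟩ : ∃ (c : A) (x y : ZMod n), x ≠ y ∧ δ x c = δ y c := by
      by_contra hcon
      push Not at hcon
      obtain ⟨u, hu, -⟩ := hx.1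
      have hinj : ∀ (u : List A), Function.Injective fun x => act δ x u := by
        intro u
        induction u with
        | nil => intro x y h; exact h
        | cons c u ih =>
          intro x y h
          by_contra hne
          exact hcon c x y hne (ih h)
      exact one_ne_zero' hn (hinj u (hu 1 0))
    obtain ⟨h1, h2⟩ := merge_mem hn L hl c x y hxy hcxy
    rw [hx0, mem_arc_two] at h1 h2
    have h3 : δ x0 c = δ (x0 + 1) c := by
      rcases h1 with h1 | h1 <;> rcases h2 with h2 | h2
      · exact absurd (h1.trans h2.symm) hxy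
      · rw [h1, h2] at hcxy; exact hcxy
      · rw [h1, h2] at hcxy; exact hcxy.symm
      · exact absurd (h1.trans h2.symm) hxy
    have h4 : δ' 0 c = δ' 1 c := by
      simp only [hδ', zero_add]
      rw [h3, add_comm 1 x0]
    obtain ⟨h5, h6⟩ := merge_mem hn L' hl' c 0 1 (one_ne_zero' hn).symm h4
    rw [hx1, mem_arc_two] at h5 h6
    rcases h5 with h5 | h5
    · exact h5.symm
    · exfalso
      rcases h6 with h6 | h6
      · apply two_ne_zero' hn
        linear_combination h6 - h5
      · apply one_ne_zero' hn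
        linear_combination h6 - h5
  refine ⟨I', hn, L', hl', ?_⟩
  rw [hx1, hx10]

/-- **Orientable automata.** Arrange the states on a cycle; every letter is induced by a
nondecreasing map of the integers commuting with the translation by `n`. -/
def Orientable {Q : Type} [Fintype Q] (δ : Q → A → Q) : Prop :=
  ∃ e : Q ≃ ZMod (Fintype.card Q), ∀ c, ∃ g : ℤ → ℤ, Monotone g ∧
    (∀ x, g (x + Fintype.card Q) = g x + Fintype.card Q) ∧
    ∀ x : ℤ, e (δ (e.symm (x : ZMod (Fintype.card Q))) c) = (g x : ZMod (Fintype.card Q))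

theorem orientable_cyclic {Q : Type} [Fintype Q] [DecidableEq Q] (δ : Q → A → Q)
    (hn : 3 ≤ Fintype.card Q) (hx : Extremal δ) (ho : Orientable δ) :
    ∃ a, ∀ q q', ∃ k, act δ q (List.replicate k a) = q' := by
  obtain ⟨e, he⟩ := ho
  have hne : NeZero (Fintype.card Q) := ⟨by omega⟩
  set δ0 : ZMod (Fintype.card Q) → A → ZMod (Fintype.card Q) :=
    fun x c => e (δ (e.symm x) c) with hδ0
  have h0 : ∀ q c, e (δ q c) = δ0 (e q) c := by
    intro q c
    simp [hδ0]
  have hx0 : Extremal δ0 := extremal_equiv e δ δ0 h0 hx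
  have hl : ∀ c, ∃ g, IsLift (Fintype.card Q) g fun x => δ0 x c := by
    intro c
    obtain ⟨g, hg1, hg2, hg3⟩ := he c
    exact ⟨g, hg1, hg2, hg3⟩
  obtain ⟨x0, I, S⟩ := exists_setup hn δ0 hx0 hl
  set δ' : ZMod (Fintype.card Q) → A → ZMod (Fintype.card Q) :=
    fun x c => δ0 (x + x0) c - x0 with hδ'
  have h1 : ∀ q c, (Equiv.subRight x0) (δ0 q c) = δ' ((Equiv.subRight x0) q) c := by
    intro q c
    simp [hδ']
  have hx' : Extremal δ' := extremal_equiv (Equiv.subRight x0) δ0 δ' h1 hx0
  have hsync : ∃ u, IsReset δ' u := ⟨hx'.1.choose, hx'.1.choose_spec.1⟩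
  obtain ⟨a, s, hs, hs0⟩ := S.exists_rot
  have hgen := S.generates hsync a s hs hs0
  refine ⟨a, ?_⟩
  have hpow : ∀ (k : ℕ) (x : ZMod (Fintype.card Q)), act δ' x (List.replicate k a) = x + k • s := by
    intro k
    induction k with
    | zero => intro x; simp [act_nil]
    | succ k ih =>
      intro x
      rw [act_replicate_succ, ih, hs, succ_nsmul, add_assoc]
  have hcyc : ∀ x y : ZMod (Fintype.card Q), ∃ k, act δ' x (List.replicate k a) = y := by
    intro x y
    have h2 : y - x ∈ AddSubgroup.zmultiples s := by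
      have h3 : (y - x) = (y - x).val • (1 : ZMod (Fintype.card Q)) := by
        rw [nsmul_one, ZMod.natCast_zmod_val]
      rw [h3]
      exact nsmul_mem hgen _
    obtain ⟨i, hi⟩ := AddSubgroup.mem_zmultiples_iff.1 h2
    have hpos : 0 < addOrderOf s := addOrderOf_pos s
    have h4 := Int.emod_nonneg i (by exact_mod_cast hpos.ne' : (addOrderOf s : ℤ) ≠ 0)
    refine ⟨(i % addOrderOf s).toNat, ?_⟩
    rw [hpow, ← natCast_zsmul, Int.toNat_of_nonneg h4, mod_addOrderOf_zsmul, hi]
    ring
  intro q q'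
  obtain ⟨k, hk⟩ := hcyc (e q - x0) (e q' - x0)
  refine ⟨k, ?_⟩
  apply e.injective
  have h2 := act_equiv e δ δ0 h0 (List.replicate k a) q
  have h3 := act_equiv (Equiv.subRight x0) δ0 δ' h1 (List.replicate k a) (e q)
  simp only [Equiv.subRight_apply] at h3
  rw [hk, ← h2] at h3
  exact sub_left_injective h3

theorem orientable_irreducible {Q : Type} [Fintype Q] [DecidableEq Q] (δ : Q → A → Q)
    (hn : 3 ≤ Fintype.card Q) (hx : Extremal δ) (ho : Orientable δ) : Irreducible δ := by
  obtain ⟨a, ha⟩ := orientable_cyclic δ hn hx ho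
  exact circular δ hx a ha

end Pool.Agent.Work.MP_446a37_lc
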