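import Mathlib

/-!
A function on `ZMod p` such that `F y - t y` is a permutation for at least `(p - 1) / 2` values of
`t` is affine (Redei; Lovasz and Schrijver).
-/

namespace Pool.Agent.Work.MP_446a37_lc

open Finset Polynomial

variable {p : ℕ} [hp : Fact p.Prime]

theorem sum_pow_zero {k : ℕ} (hk : k < p - 1) : ∑ y : ZMod p, y ^ k = 0 := by
  apply FiniteField.sum_pow_lt_card_sub_one
  rwa [ZMod.card]

theorem sum_pow_top (h2 : 2 < p) : ∑ y : ZMod p, y ^ (p - 1) = -1 := by
  rw [← Finset.add_sum_erase univ _ (mem_univ (0 : ZMod p)), zero_pow (by omega), zero_add]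
  have h1 : ∀ y ∈ univ.erase (0 : ZMod p), y ^ (p - 1) = 1 := by
    intro y hy
    exact ZMod.pow_card_sub_one_eq_one (ne_of_mem_erase hy)
  rw [sum_congr rfl h1, sum_const, card_erase_of_mem (mem_univ _), card_univ, ZMod.card,
    nsmul_eq_mul, mul_one, Nat.cast_sub hp.out.one_lt.le]
  simp

theorem sum_eval (h2 : 2 < p) (g : (ZMod p)[X]) (hg : g.natDegree ≤ p - 1) :
    ∑ y : ZMod p, g.eval y = - g.coeff (p - 1) := by
  have h1 : ∀ y : ZMod p, g.eval y = ∑ i ∈ range p, g.coeff i * y ^ i := by
    intro y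
    rw [eval_eq_sum_range' (n := p) (by have := hp.out.pos; omega)]
  rw [sum_congr rfl fun y _ => h1 y, sum_comm]
  have h3 : range p = insert (p - 1) (range (p - 1)) := by
    ext i
    simp only [mem_range, mem_insert]
    have := hp.out.pos
    omega
  rw [h3, sum_insert (by simp), ← mul_sum, sum_pow_top h2]
  rw [sum_eq_zero]
  · ring
  · intro i hi
    rw [mem_range] at hi
    rw [← mul_sum, sum_pow_zero hi, mul_zero]

/-- power sums vanish -/
theorem moments (h2 : 2 < p) (F : ZMod p → ZMod p) (D : Finset (ZMod p))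
    (hD : (p - 1) / 2 ≤ D.card) (hperm : ∀ t ∈ D, Function.Bijective fun y => F y - t * y)
    (k m : ℕ) (hk : k ≤ (p - 1) / 2) (hm : m ≤ k) : ∑ y, F y ^ (k - m) * y ^ m = 0 := by
  have hodd : p - 1 = 2 * ((p - 1) / 2) := by
    have h3 : Odd p := hp.out.odd_of_ne_two (by omega)
    obtain ⟨j, hj⟩ := h3
    omega
  rcases Nat.eq_zero_or_pos k with rfl | hk0
  · have : m = 0 := by omega
    subst this
    simp
  -- the polynomial in t
  set P : (ZMod p)[X] := ∑ j ∈ range (k + 1),
    C ((-1) ^ j * (k.choose j : ZMod p) * ∑ y, F y ^ (k - j) * y ^ j) * X ^ j with hP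
  have hev : ∀ t, P.eval t = ∑ y, (F y - t * y) ^ k := by
    intro t
    rw [hP, eval_finsetSum]
    simp only [eval_mul, eval_C, eval_pow, eval_X]
    have h3 : ∀ y, (F y - t * y) ^ k =
        ∑ j ∈ range (k + 1), (-1) ^ j * (k.choose j : ZMod p) * (F y ^ (k - j) * y ^ j) * t ^ j := by
      intro y
      rw [sub_eq_add_neg, add_comm, add_pow]
      refine sum_congr rfl fun j _ => ?_
      rw [neg_pow, mul_pow]
      ring
    rw [sum_congr rfl fun y _ => h3 y, sum_comm]
    refine sum_congr rfl fun j _ => ?_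
    rw [mul_sum, sum_mul]
  have hroot : ∀ t ∈ D, P.IsRoot t := by
    intro t ht
    rw [IsRoot, hev]
    have h3 := (Fintype.sum_bijective (fun y => F y - t * y) (hperm t ht)
      (fun y => (F y - t * y) ^ k) (fun z => z ^ k) (fun y => rfl))
    rw [h3]
    exact sum_pow_zero (by omega)
  have hcoef : ∀ j, P.coeff j = if j < k + 1 then
      ((-1) ^ j * (k.choose j : ZMod p) * ∑ y, F y ^ (k - j) * y ^ j) else 0 := by
    intro j
    rw [hP, finsetSum_coeff]
    simp only [coeff_C_mul, coeff_X_pow, mul_ite, mul_one, mul_zero]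
    rw [Finset.sum_ite_eq]
    simp
  have htop : P.coeff k = 0 := by
    rw [hcoef, if_pos (by omega)]
    simp only [Nat.sub_self, pow_zero, one_mul]
    rw [sum_pow_zero (by omega), mul_zero]
  have hdeg : P = 0 ∨ P.natDegree < k := by
    by_cases h0 : P = 0
    · exact Or.inl h0
    · right
      have h3 : P.natDegree ≤ k := by
        apply natDegree_le_iff_coeff_eq_zero.2
        intro j hj
        rw [hcoef, if_neg (by omega)]
      rcases lt_or_eq_of_le h3 with h4 | h4
      · exact h4
      · exfalso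
        rw [← h4] at htop
        exact h0 (leadingCoeff_eq_zero.1 htop)
  have hP0 : P = 0 := by
    rcases hdeg with h | h
    · exact h
    · by_contra h0
      have h4 : D.card ≤ P.natDegree := by
        have h5 : D ⊆ P.roots.toFinset := by
          intro t ht
          rw [Multiset.mem_toFinset, mem_roots h0]
          exact hroot t ht
        exact (card_le_card h5).trans ((Multiset.toFinset_card_le _).trans (card_roots' P))
      omega
  have h6 := hcoef m
  rw [hP0, coeff_zero, if_pos (by omega)] at h6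
  have h7 : ((k.choose m : ℕ) : ZMod p) ≠ 0 := by
    intro h8
    rw [ZMod.natCast_eq_zero_iff] at h8
    have h9 : p ∣ k.factorial := by
      rw [← Nat.choose_mul_factorial_mul_factorial hm]
      exact Dvd.dvd.mul_right (Dvd.dvd.mul_right h8 _) _
    have := (hp.out.dvd_factorial).1 h9
    omega
  have h8 : ((-1 : ZMod p)) ^ m ≠ 0 := pow_ne_zero _ (by simp)
  rcases mul_eq_zero.1 h6.symm with h9 | h9
  · rcases mul_eq_zero.1 h9 with h10 | h10
    · exact absurd h10 h8
    · exact absurd h10 h7
  · exact h9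

theorem affine (h2 : 2 < p) (F : ZMod p → ZMod p) (D : Finset (ZMod p))
    (hD : (p - 1) / 2 ≤ D.card) (hperm : ∀ t ∈ D, Function.Bijective fun y => F y - t * y) :
    ∃ a b : ZMod p, ∀ y, F y = a * y + b := by
  have hodd : p - 1 = 2 * ((p - 1) / 2) := by
    have h3 : Odd p := hp.out.odd_of_ne_two (by omega)
    obtain ⟨j, hj⟩ := h3
    omega
  obtain ⟨f, hfd, hfe⟩ : ∃ f : (ZMod p)[X], f.natDegree ≤ p - 1 ∧ ∀ y, f.eval y = F y := by
    refine ⟨Lagrange.interpolate univ id F, ?_, ?_⟩
    · have h3 := Lagrange.degree_interpolate_lt F (s := univ) (v := (id : ZMod p → ZMod p))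
        (Function.injective_id.injOn)
      rw [card_univ, ZMod.card] at h3
      by_cases h0 : Lagrange.interpolate univ id F = 0
      · rw [h0]; simp
      · rw [degree_eq_natDegree h0] at h3
        have h4 : (Lagrange.interpolate univ id F).natDegree < p := by exact_mod_cast h3
        omega
    · intro y
      exact Lagrange.eval_interpolate_at_node F (Function.injective_id.injOn) (mem_univ y)
  by_cases hd : f.natDegree ≤ 1
  · refine ⟨f.coeff 1, f.coeff 0, fun y => ?_⟩
    rw [← hfe, eval_eq_sum_range' (n := 2) (by omega), sum_range_succ, sum_range_one]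
    ring
  exfalso
  push Not at hd
  set d := f.natDegree with hdd
  set q := (p - 1) / d with hq
  set r := (p - 1) % d with hr
  have hqr : d * q + r = p - 1 := Nat.div_add_mod _ _
  have hrd : r < d := Nat.mod_lt _ (by omega)
  have hq1 : 1 ≤ q := by
    rw [hq]
    exact (Nat.one_le_div_iff (by omega)).2 hfd
  have hkey : q + r ≤ (p - 1) / 2 := by
    rcases Nat.lt_or_ge q 2 with h3 | h3
    · have : q = 1 := by omega
      rw [this] at hqr ⊢
      -- d + r = p - 1, r < d
      omega
    · rcases Nat.lt_or_ge d 3 with h4 | h4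
      · have : d = 2 := by omega
        rw [this] at hqr hrd
        omega
      · have h5 : r ≤ q * (d - 2) := by
          have : 2 * (d - 2) ≤ q * (d - 2) := Nat.mul_le_mul_right _ h3
          omega
        have h6 : q * (d - 2) + 2 * q = d * q := by
          obtain ⟨e, he⟩ : ∃ e, d = e + 2 := ⟨d - 2, by omega⟩
          rw [he, Nat.add_sub_cancel]
          ring
        omega
  have hm := moments h2 F D hD hperm (q + r) r hkey (by omega)
  rw [Nat.add_sub_cancel] at hm
  have h7 : ∑ y : ZMod p, (f ^ q * X ^ r).eval y = 0 := by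
    rw [← hm]
    refine sum_congr rfl fun y _ => ?_
    rw [eval_mul, eval_pow, eval_pow, eval_X, hfe]
  have hf0 : f ≠ 0 := by
    intro h
    rw [hdd, h, natDegree_zero] at hd
    omega
  have hnd : (f ^ q * X ^ r).natDegree = p - 1 := by
    rw [natDegree_mul (pow_ne_zero _ hf0) (pow_ne_zero _ X_ne_zero), natDegree_pow, natDegree_X_pow,
      ← hqr, mul_comm d q]
  rw [sum_eval h2 _ hnd.le] at h7
  have h8 : (f ^ q * X ^ r).coeff (p - 1) ≠ 0 := by
    rw [← hnd]
    exact leadingCoeff_ne_zero.2 (mul_ne_zero (pow_ne_zero _ hf0) (pow_ne_zero _ X_ne_zero))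
  exact h8 (neg_eq_zero.1 h7)

end Pool.Agent.Work.MP_446a37_lc
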