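import Pool.Agent.Work.MP_446a37_lc.Levels

/-!
The letters of an extremal orientable automaton.
-/

namespace Pool.Agent.Work.MP_446a37_lc

open Finset

variable {n : ℕ} [NeZero n]

theorem intCast_eq_zero_lt {z : ℤ} (h : (z : ZMod n) = 0) (h1 : -(n : ℤ) < z) (h2 : z < n) :
    z = 0 := by
  rw [ZMod.intCast_zmod_eq_zero_iff_dvd] at h
  exact Int.eq_zero_of_abs_lt_dvd h (abs_lt.2 ⟨h1, h2⟩)

theorem shape (hn : 3 ≤ n) (f : ZMod n → ZMod n) (g : ℤ → ℤ) (hg : IsLift n g f)
    (h01 : f 0 = f 1)
    (hinj : ∀ x y, x ≠ y → f x = f y → (x = 0 ∧ y = 1) ∨ (x = 1 ∧ y = 0)) :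
    g 0 = g 1 ∧ (∀ z : ℤ, 1 ≤ z → z < n → g z < g (z + 1)) ∧
      ∀ z : ℤ, 1 ≤ z → z ≤ n → g z = g 1 + z - 1 ∨ g z = g 1 + z := by
  have hn' : (3 : ℤ) ≤ n := by exact_mod_cast hn
  have hstrict : ∀ z : ℤ, 1 ≤ z → z < n → g z < g (z + 1) := by
    intro z h1 h2
    apply lt_of_le_of_ne (hg.mono (by omega))
    intro heq
    have h3 : f ((z : ℤ) : ZMod n) = f ((z + 1 : ℤ) : ZMod n) := by
      rw [hg.ind, hg.ind, heq]
    have hne : ((z : ℤ) : ZMod n) ≠ ((z + 1 : ℤ) : ZMod n) := by
      intro h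
      have h4 : ((1 : ℤ) : ZMod n) = 0 := by
        push_cast at h ⊢
        linear_combination -h
      have := intCast_eq_zero_lt h4 (by omega) (by omega)
      omega
    rcases hinj _ _ hne h3 with ⟨h4, -⟩ | ⟨h4, h5⟩
    · have := intCast_eq_zero_lt h4 (by omega) (by omega)
      omega
    · have h6 : ((z - 1 : ℤ) : ZMod n) = 0 := by
        push_cast
        rw [h4]
        ring
      have h7 := intCast_eq_zero_lt h6 (by omega) (by omega)
      have h8 : z = 1 := by omega
      rw [h8] at h5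
      have h9 := intCast_eq_zero_lt h5 (by omega) (by omega)
      omega
  have hper : g n = g 0 + n := by
    have := hg.per 0
    rwa [zero_add] at this
  have hlow : ∀ m : ℕ, (m : ℤ) + 1 ≤ n → g 1 + m ≤ g (m + 1) := by
    intro m
    induction m with
    | zero => intro _; simp
    | succ m ih =>
      intro h
      have h1 := ih (by push_cast at h; omega)
      have h2 := hstrict (m + 1) (by omega) (by push_cast at h; omega)
      push_cast
      omega
  have hup : ∀ m : ℕ, (m : ℤ) + 1 ≤ n → g (n - m) ≤ g n - m := by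
    intro m
    induction m with
    | zero => intro _; simp
    | succ m ih =>
      intro h
      have h1 := ih (by push_cast at h; omega)
      have h2 := hstrict (n - (m + 1)) (by push_cast at h; omega) (by omega)
      have e : (n : ℤ) - (m + 1) + 1 = n - m := by ring
      rw [e] at h2
      push_cast
      omega
  have h0 : g 0 = g 1 := by
    have h1 : ((g 1 - g 0 : ℤ) : ZMod n) = 0 := by
      have h2 : f ((0 : ℤ) : ZMod n) = f ((1 : ℤ) : ZMod n) := by
        simpa using h01
      rw [hg.ind, hg.ind] at h2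
      push_cast
      rw [h2]
      ring
    have h3 := hg.mono (show (0 : ℤ) ≤ 1 by omega)
    have h4 := hlow (n - 1) (by omega)
    have h5 : (((n - 1 : ℕ) : ℤ) + 1) = n := by omega
    rw [h5, hper] at h4
    have h6 := intCast_eq_zero_lt h1 (by omega) (by omega)
    omega
  refine ⟨h0, hstrict, ?_⟩
  intro z h1 h2
  have h3 := hlow (z - 1).toNat (by omega)
  have h4 := hup (n - z).toNat (by omega)
  have e1 : (((z - 1).toNat : ℕ) : ℤ) = z - 1 := Int.toNat_of_nonneg (by omega)
  have e2 : (((n - z).toNat : ℕ) : ℤ) = n - z := Int.toNat_of_nonneg (by omega)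
  rw [e1, show z - 1 + 1 = z by ring] at h3
  rw [e2, show (n : ℤ) - (n - z) = z by ring, hper] at h4
  omega

theorem rotation_of_injective (hn : 3 ≤ n) (f : ZMod n → ZMod n) (g : ℤ → ℤ) (hg : IsLift n g f)
    (hinj : Function.Injective f) : ∃ s, ∀ x, f x = x + s := by
  have hn' : (3 : ℤ) ≤ n := by exact_mod_cast hn
  have hstrict : ∀ z : ℤ, g z < g (z + 1) := by
    intro z
    apply lt_of_le_of_ne (hg.mono (by omega))
    intro heq
    have h3 : f ((z : ℤ) : ZMod n) = f ((z + 1 : ℤ) : ZMod n) := by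
      rw [hg.ind, hg.ind, heq]
    have h := hinj h3
    have h4 : ((1 : ℤ) : ZMod n) = 0 := by
      push_cast at h ⊢
      linear_combination -h
    have := intCast_eq_zero_lt h4 (by omega) (by omega)
    omega
  have hlow : ∀ (m : ℕ) (z : ℤ), g z + m ≤ g (z + m) := by
    intro m
    induction m with
    | zero => intro z; simp
    | succ m ih =>
      intro z
      have h1 := ih z
      have h2 := hstrict (z + m)
      have e : z + ((m + 1 : ℕ) : ℤ) = z + m + 1 := by push_cast; ring
      rw [e]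
      push_cast
      omega
  have heq : ∀ m : ℕ, (m : ℤ) ≤ n → g m = g 0 + m := by
    intro m hm
    have h1 := hlow m 0
    have h2 := hlow (n - m) m
    have h3 := hg.per 0
    rw [zero_add] at h1 h3
    have e : (m : ℤ) + ((n - m : ℕ) : ℤ) = n := by omega
    rw [e, h3] at h2
    omega
  refine ⟨(g 0 : ZMod n), fun x => ?_⟩
  have h1 : f (((x.val : ℕ) : ℤ) : ZMod n) = g (x.val : ℕ) := hg.ind _
  rw [heq x.val (by exact_mod_cast (ZMod.val_lt x).le)] at h1
  rw [Int.cast_natCast, ZMod.natCast_zmod_val] at h1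
  rw [h1]
  push_cast
  rw [ZMod.natCast_zmod_val]
  ring

end Pool.Agent.Work.MP_446a37_lc
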